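import Mathlib
import Pool.Agent.TH447.KS.IntFin

set_option autoImplicit false

/-!
# Nested and shifted pairs, monotone antichains (MP_c890a7_co)
-/

open Finset Classical

namespace Pool.Agent.N502.IO

open Pool.Agent.TH447.KS Pool.Agent.H13R3.WB Pool.Agent.H931R3.Bal

/-- `x` and `y` are nested: one of them has both more elements below it and more elements above it
(if `x`, `y` are incomparable elements of an interval order this means that the interval of one can
be taken inside the interval of the other) -/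
def Nested {P : Type} [PartialOrder P] (x y : P) : Prop :=
  ((∀ z, z < x → z < y) ∧ (∀ z, x < z → y < z)) ∨ ((∀ z, z < y → z < x) ∧ (∀ z, y < z → x < z))

/-- `x` and `y` are shifted: one of them has more elements below it and fewer elements above it -/
def Shifted {P : Type} [PartialOrder P] (x y : P) : Prop :=
  ((∀ z, z < x → z < y) ∧ (∀ z, y < z → x < z)) ∨ ((∀ z, z < y → z < x) ∧ (∀ z, x < z → y < z))

/-- a set whose elements are pairwise nested, or pairwise shifted -/
def Mono {P : Type} [PartialOrder P] (B : Finset P) : Prop :=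
  (∀ x ∈ B, ∀ y ∈ B, Nested x y) ∨ (∀ x ∈ B, ∀ y ∈ B, Shifted x y)

/-- every antichain `A` contains a monotone subset with at least `|A| / k` elements -/
def MonoAnti (k : ℕ) (P : Type) [PartialOrder P] : Prop :=
  ∀ A : Finset P, IsAntichain (· ≤ ·) (A : Set P) → ∃ B : Finset P, B ⊆ A ∧
    A.card ≤ k * B.card ∧ Mono B

/-- interval orders with at most `k` lengths -/
def LengthsLE (k : ℕ) (P : Type) [PartialOrder P] : Prop :=
  ∃ (l : P → ℝ) (c : P → Fin k) (g : Fin k → ℝ), (∀ i, 0 ≤ g i) ∧
    ∀ x y : P, x < y ↔ l x + g (c x) < l y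

/-- infimum of the balance constants of the interval orders of width `w` in which every antichain
`A` contains a monotone subset with at least `|A| / k` elements -/
noncomputable def dM (k w : ℕ) : ℝ :=
  sInf {d : ℝ | ∃ (P : Type) (_ : Fintype P) (_ : PartialOrder P), IsIntervalOrder P ∧
    MonoAnti k P ∧ HasWidth P w ∧ balance P = d}

section

variable {P : Type} [Fintype P]

/-- sorting a finite set by a function -/
lemma exists_sort (A : Finset P) (p : P → ℕ) (s : ℕ) (hs : A.card = s + 1) :
    ∃ z : ℕ → P, (∀ i, z i ∈ A) ∧ (∀ i, i < s → z i ≠ z (i + 1)) ∧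
      (∀ i, i < s → p (z i) ≤ p (z (i + 1))) := by
  obtain ⟨e0⟩ : Nonempty (Fin A.card ≃ A) := ⟨(A.equivFin).symm⟩
  set σ := Tuple.sort (fun i => p (e0 i : P)) with hσ
  have hmono : Monotone ((fun i => p (e0 i : P)) ∘ σ) := Tuple.monotone_sort _
  set a : Fin A.card → P := fun i => (e0 (σ i) : P) with ha
  have hainj : Function.Injective a := by
    intro i j hij
    exact σ.injective (e0.injective (Subtype.ext hij))
  have haA : ∀ i, a i ∈ A := fun i => (e0 (σ i)).2
  have hap : ∀ i j, i ≤ j → p (a i) ≤ p (a j) := fun i j hij => hmono hij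
  refine ⟨fun n => a ⟨min n s, by omega⟩, fun i => haA _, fun i hi h => ?_, fun i hi => ?_⟩
  · have := hainj h
    rw [Fin.mk.injEq] at this
    omega
  · apply hap
    rw [Fin.mk_le_mk]
    omega

/-- number of elements below -/
noncomputable def nb (r : P → P → Prop) (x : P) : ℕ := (univ.filter (fun z => r z x)).card

/-- number of elements above -/
noncomputable def na (r : P → P → Prop) (x : P) : ℕ := (univ.filter (fun z => r x z)).card

lemma nb_mono {r : P → P → Prop} {x y : P} (h : ∀ z, r z x → r z y) : nb r x ≤ nb r y := by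
  apply card_le_card
  intro z hz
  simp only [mem_filter, mem_univ, true_and] at hz ⊢
  exact h z hz

lemma na_mono {r : P → P → Prop} {x y : P} (h : ∀ z, r x z → r y z) : na r x ≤ na r y := by
  apply card_le_card
  intro z hz
  simp only [mem_filter, mem_univ, true_and] at hz ⊢
  exact h z hz

lemma sub_of_nb {r : P → P → Prop} (h22 : ∀ a b c d, r a b → r c d → r a d ∨ r c b) {x y : P}
    (h : nb r x ≤ nb r y) : ∀ z, r z x → r z y := nested_univ h22 x y h

lemma sub_of_na {r : P → P → Prop} (h22 : ∀ a b c d, r a b → r c d → r a d ∨ r c b) {x y : P}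
    (h : na r x ≤ na r y) : ∀ z, r x z → r y z := by
  have h22' : ∀ a b c d, r b a → r d c → r d a ∨ r b c := fun a b c d h1 h2 => h22 _ _ _ _ h2 h1
  exact nested_univ (r := fun a b => r b a) h22' x y h

/-- a monotone antichain with `s + 1` elements contains a balanced pair -/
theorem mono_pair {r : P → P → Prop} (h22 : ∀ a b c d, r a b → r c d → r a d ∨ r c b)
    (B : Finset P) (hB : ∀ a ∈ B, ∀ b ∈ B, ¬ r a b) (s : ℕ) (hs1 : 1 ≤ s) (hs : B.card = s + 1)
    (hm : (∀ x ∈ B, ∀ y ∈ B, ((∀ z, r z x → r z y) ∧ (∀ z, r x z → r y z)) ∨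
      ((∀ z, r z y → r z x) ∧ (∀ z, r y z → r x z))) ∨
      (∀ x ∈ B, ∀ y ∈ B, ((∀ z, r z x → r z y) ∧ (∀ z, r y z → r x z)) ∨
      ((∀ z, r z y → r z x) ∧ (∀ z, r x z → r y z))))
    (M : ℕ) (hM : ∀ x ∈ B, inc r x ≤ M) :
    ∃ x y, x ≠ y ∧ |cnt r x y - cnt r y x| ≤ 2 * (Lin r).card * (harmonic M : ℝ) / s := by
  have hcross : ∀ z : ℕ → P, (∀ i, z i ∈ B) → ∀ i, i ≤ s → ∀ j, j ≤ s → ∀ w t,
      r w (z i) → r (z j) t → r w t := by
    intro z hz i _ j _ w t h1 h2
    rcases h22 w (z i) (z j) t h1 h2 with h | h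
    · exact h
    · exact absurd h (hB _ (hz j) _ (hz i))
  rcases hm with hm | hm
  · obtain ⟨z, hz1, hz2, hz3⟩ := exists_sort B (fun x => nb r x + na r x) s hs
    have key : ∀ i, i < s → nb r (z i) ≤ nb r (z (i + 1)) ∧ na r (z i) ≤ na r (z (i + 1)) := by
      intro i hi
      have h3 := hz3 i hi
      beta_reduce at h3
      rcases hm _ (hz1 i) _ (hz1 (i + 1)) with ⟨h1, h2⟩ | ⟨h1, h2⟩
      · exact ⟨nb_mono h1, na_mono h2⟩
      · have h4 := nb_mono h1
        have h5 := na_mono h2
        omega
    obtain ⟨i, hi, h⟩ := chain_pair r z s hs1 (fun i _ j _ => hB _ (hz1 i) _ (hz1 j))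
      (hcross z hz1) (Or.inr fun i hi => sub_of_na h22 (key i hi).2)
      (Or.inr fun i hi => sub_of_nb h22 (key i hi).1) M (fun i _ => hM _ (hz1 i))
    exact ⟨z i, z (i + 1), hz2 i hi, h⟩
  · obtain ⟨z, hz1, hz2, hz3⟩ := exists_sort B
      (fun x => nb r x + (Fintype.card P - na r x)) s hs
    have hle : ∀ x, na r x ≤ Fintype.card P := fun x => card_le_univ _
    have key : ∀ i, i < s → nb r (z i) ≤ nb r (z (i + 1)) ∧ na r (z (i + 1)) ≤ na r (z i) := by
      intro i hi
      have h3 := hz3 i hi
      beta_reduce at h3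
      have h6 := hle (z i)
      have h7 := hle (z (i + 1))
      rcases hm _ (hz1 i) _ (hz1 (i + 1)) with ⟨h1, h2⟩ | ⟨h1, h2⟩
      · exact ⟨nb_mono h1, na_mono h2⟩
      · have h4 := nb_mono h1
        have h5 := na_mono h2
        omega
    obtain ⟨i, hi, h⟩ := chain_pair r z s hs1 (fun i _ j _ => hB _ (hz1 i) _ (hz1 j))
      (hcross z hz1) (Or.inl fun i hi => sub_of_na h22 (key i hi).2)
      (Or.inr fun i hi => sub_of_nb h22 (key i hi).1) M (fun i _ => hM _ (hz1 i))
    exact ⟨z i, z (i + 1), hz2 i hi, h⟩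

end

/-- **Interval orders with a large monotone antichain.** -/
theorem mono_balance (P : Type) [Fintype P] [PartialOrder P] (hP : IsIntervalOrder P) (w : ℕ)
    (hw : HasWidth P w) (B : Finset P) (hB : IsAntichain (· ≤ ·) (B : Set P)) (hm : Mono B)
    (hB1 : 1 ≤ B.card) :
    1 / 2 - 3 * (1 + Real.log w) / B.card ≤ balance P := by
  have hwid := hw.2
  have hsw : B.card ≤ w := hwid B hB
  have hw1 : 1 ≤ w := hB1.trans hsw
  have hne : Nonempty P := by
    obtain ⟨x, _⟩ := Finset.card_pos.1 (show 0 < B.card by omega)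
    exact ⟨x⟩
  have hwR : (1 : ℝ) ≤ w := by exact_mod_cast hw1
  have hsR : (1 : ℝ) ≤ B.card := by exact_mod_cast hB1
  have hs0 : (0 : ℝ) < B.card := by linarith
  have hswR : (B.card : ℝ) ≤ w := by exact_mod_cast hsw
  have hlog : 0 ≤ Real.log w := Real.log_nonneg hwR
  by_cases hpos : 0 < 1 / 2 - 3 * (1 + Real.log w) / B.card
  · have h6 : 6 * (1 + Real.log w) < B.card := by
      have : 3 * (1 + Real.log w) / B.card < 1 / 2 := by linarith
      rw [div_lt_iff₀ hs0] at this
      linarith
    have h6' : (6 : ℝ) < B.card := by nlinarith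
    have hBc : 7 ≤ B.card := by
      have : 6 < B.card := by exact_mod_cast h6'
      omega
    by_cases hbig : ∃ x, w * w ≤ inc (lt' P) x
    · obtain ⟨x, hx⟩ := hbig
      have hm' : 6 * w < inc (lt' P) x := by nlinarith
      obtain ⟨z, hxz, h1, h2⟩ := ladder (r := lt' P) (fun a b c => lt_trans)
        (fun a => lt_irrefl a) (interval_22 hP) (fun C hC => hwid C (anti_iff.2 hC)) x hm'
      have hmpos : (0 : ℝ) < inc (lt' P) x := by
        have : 0 < inc (lt' P) x := by omega
        exact_mod_cast this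
      have hxR : (w : ℝ) * w ≤ inc (lt' P) x := by exact_mod_cast hx
      have h3 : 3 * (w : ℝ) / inc (lt' P) x ≤ 3 * (1 + Real.log w) / B.card := by
        rw [div_le_div_iff₀ hmpos hs0]
        have e1 : 3 * (w : ℝ) * B.card ≤ 3 * w * w := by nlinarith
        have e2 : 3 * (w : ℝ) * w ≤ 3 * (1 + Real.log w) * inc (lt' P) x := by
          nlinarith [mul_nonneg hlog hmpos.le]
        linarith
      have h4 : (1 / 2 - 3 * (1 + Real.log w) / B.card) * ((Lin (lt' P)).card : ℝ) ≤
          (1 / 2 - 3 * w / inc (lt' P) x) * ((Lin (lt' P)).card : ℝ) :=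
        mul_le_mul_of_nonneg_right (by linarith) (Nat.cast_nonneg _)
      exact le_balance_of_cnt (h4.trans h1) (h4.trans h2)
    · push Not at hbig
      obtain ⟨s, hs⟩ : ∃ s, B.card = s + 1 := ⟨B.card - 1, by omega⟩
      obtain ⟨x, y, hxy, h⟩ := mono_pair (r := lt' P) (interval_22 hP) B (anti_iff.1 hB) s
        (by omega) hs hm (w * w) (fun x _ => (hbig x).le)
      have hsR' : (B.card : ℝ) = s + 1 := by rw [hs]; push_cast; ring
      have hs6 : (6 : ℝ) ≤ s := by
        have : 6 ≤ s := by omega
        exact_mod_cast this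
      have hspos : (0 : ℝ) < s := by linarith
      have hMlog : (harmonic (w * w) : ℝ) ≤ 1 + 2 * Real.log w := by
        refine (harmonic_le_one_add_log (w * w)).trans ?_
        push_cast
        rw [Real.log_mul (by linarith) (by linarith)]
        linarith
      have h1 : 2 * (Lin (lt' P)).card * (harmonic (w * w) : ℝ) / s ≤
          2 * (3 * (1 + Real.log w) / B.card) * (Lin (lt' P)).card := by
        have h2 : (harmonic (w * w) : ℝ) / s ≤ 3 * (1 + Real.log w) / B.card := by
          rw [div_le_div_iff₀ hspos hs0]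
          calc (harmonic (w * w) : ℝ) * B.card ≤ (1 + 2 * Real.log w) * B.card :=
                mul_le_mul_of_nonneg_right hMlog hs0.le
            _ ≤ (1 + 2 * Real.log w) * (7 / 6 * s) := by
                apply mul_le_mul_of_nonneg_left _ (by linarith)
                linarith
            _ ≤ 3 * (1 + Real.log w) * s := by nlinarith
        calc 2 * (Lin (lt' P)).card * (harmonic (w * w) : ℝ) / s =
            2 * ((harmonic (w * w) : ℝ) / s) * (Lin (lt' P)).card := by ring
          _ ≤ _ := by
            apply mul_le_mul_of_nonneg_right _ (Nat.cast_nonneg _)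
            linarith
      obtain ⟨h2, h3⟩ := half_of_abs hxy (h.trans h1)
      exact le_balance_of_cnt h2 h3
  · exact (not_lt.1 hpos).trans balance_nonneg

/-- interval orders whose antichains contain large monotone subsets -/
theorem class_balance (k : ℕ) (P : Type) [Fintype P] [PartialOrder P]
    (hP : IsIntervalOrder P) (hk : MonoAnti k P) (w : ℕ) (hw1 : 1 ≤ w) (hw : HasWidth P w) :
    1 / 2 - 3 * k * (1 + Real.log w) / w ≤ balance P := by
  obtain ⟨A, hA, hAc⟩ := hw.1
  obtain ⟨B, hBA, hc, hm⟩ := hk A hA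
  have hB0 : 1 ≤ B.card := by
    by_contra h
    have : B.card = 0 := by omega
    rw [this] at hc
    omega
  have hB : IsAntichain (· ≤ ·) (B : Set P) := hA.subset (by exact_mod_cast hBA)
  refine le_trans ?_ (mono_balance P hP w hw B hB hm hB0)
  have hwR : (1 : ℝ) ≤ w := by exact_mod_cast hw1
  have hBR : (1 : ℝ) ≤ B.card := by exact_mod_cast hB0
  have hlog : 0 ≤ Real.log w := Real.log_nonneg hwR
  have hcR : (w : ℝ) ≤ k * B.card := by
    rw [hAc] at hc
    exact_mod_cast hc
  have : 3 * (1 + Real.log w) / B.card ≤ 3 * k * (1 + Real.log w) / w := by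
    rw [div_le_div_iff₀ (by linarith) (by linarith)]
    have : 3 * (1 + Real.log w) * w ≤ 3 * (1 + Real.log w) * (k * B.card) :=
      mul_le_mul_of_nonneg_left hcR (by linarith)
    linarith
  linarith

/-- two elements with intervals of the same length are shifted -/
theorem shifted_of_length {k : ℕ} {P : Type} [PartialOrder P] {l : P → ℝ} {c : P → Fin k}
    {g : Fin k → ℝ} (h : ∀ x y : P, x < y ↔ l x + g (c x) < l y) {x y : P} (hxy : c x = c y) :
    Shifted x y := by
  rcases le_total (l x) (l y) with h1 | h1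
  · left
    refine ⟨fun z hz => ?_, fun z hz => ?_⟩
    · rw [h] at hz ⊢
      linarith
    · rw [h] at hz ⊢
      rw [hxy]
      linarith
  · right
    refine ⟨fun z hz => ?_, fun z hz => ?_⟩
    · rw [h] at hz ⊢
      linarith
    · rw [h] at hz ⊢
      rw [← hxy]
      linarith

theorem lengths_interval {k : ℕ} {P : Type} [PartialOrder P] (h : LengthsLE k P) :
    IsIntervalOrder P := by
  obtain ⟨l, c, g, hg, h⟩ := h
  exact ⟨l, fun x => l x + g (c x), fun x => by linarith [hg (c x)], h⟩

theorem lengths_mono {k : ℕ} {P : Type} [PartialOrder P] (h : LengthsLE k P) :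
    MonoAnti k P := by
  obtain ⟨l, c, g, hg, h⟩ := h
  intro A hA
  rcases A.eq_empty_or_nonempty with rfl | hne
  · exact ⟨∅, Finset.Subset.refl _, by simp, Or.inl (by simp)⟩
  · obtain ⟨x0, hx0⟩ := hne
    have hk : 0 < k := (c x0).pos
    have : Nonempty (Fin k) := ⟨c x0⟩
    obtain ⟨i, hi⟩ := Finite.exists_max (fun i : Fin k => (A.filter (fun x => c x = i)).card)
    refine ⟨A.filter (fun x => c x = i), Finset.filter_subset _ _, ?_, Or.inr ?_⟩
    · rw [Finset.card_eq_sum_card_fiberwise (f := c) (t := (univ : Finset (Fin k)))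
        (fun x _ => Finset.mem_coe.2 (mem_univ _))]
      refine (Finset.sum_le_card_nsmul _ _ _ (fun j _ => hi j)).trans ?_
      rw [Finset.card_univ, Fintype.card_fin, smul_eq_mul]
    · intro x hx y hy
      rw [mem_filter] at hx hy
      exact shifted_of_length h (hx.2.trans hy.2.symm)

end Pool.Agent.N502.IO
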