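import Mathlib
import Pool.Agent.N502.IO.Defs
import Pool.Agent.H581.KS.Half2
import Pool.Agent.H581.KS.Lex
import Pool.Agent.H581.KS.Pt

set_option autoImplicit false

/-!
# Interval orders whose antichains are unions of a nested and a shifted set
-/

open Finset Classical

namespace Pool.Agent.N502.IO

open Pool.Agent.TH447.KS (IsIntervalOrder)
open Pool.Agent.H581.KS (HG)

/-- every antichain is the union of a set of pairwise nested and of a set of pairwise shifted
elements -/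
def TwoA (P : Type) [PartialOrder P] : Prop :=
  ∀ A : Finset P, IsAntichain (· ≤ ·) (A : Set P) → ∃ B C : Finset P,
    (∀ x, x ∈ A ↔ x ∈ B ∨ x ∈ C) ∧ (∀ x ∈ B, ∀ y ∈ B, Nested x y) ∧
    (∀ x ∈ C, ∀ y ∈ C, Shifted x y)

theorem TwoA.mono {P : Type} [PartialOrder P] (h : TwoA P) {k : ℕ} (hk : 2 ≤ k) :
    MonoAnti k P := by
  intro A hA
  obtain ⟨B, C, hA', h1, h2⟩ := h A hA
  have hc : A.card ≤ B.card + C.card := by
    refine le_trans (card_le_card ?_) (card_union_le B C)
    intro x hx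
    exact mem_union.2 ((hA' x).1 hx)
  rcases le_total B.card C.card with hle | hle
  · refine ⟨C, fun x hx => (hA' x).2 (Or.inr hx), ?_, Or.inr h2⟩
    nlinarith
  · refine ⟨B, fun x hx => (hA' x).2 (Or.inl hx), ?_, Or.inl h1⟩
    nlinarith

section emb

variable {P R : Type} [PartialOrder P] [PartialOrder R] (e : P ↪o R)
  (he : ∀ z : R, (∀ p, e p ≠ z) → ∀ x y : P, (z < e x → z < e y) ∧ (e x < z → e y < z))

include he

theorem down_emb {x y : P} (h : ∀ z, z < x → z < y) : ∀ z, z < e x → z < e y := by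
  intro z hz
  by_cases hp : ∃ p, e p = z
  · obtain ⟨p, rfl⟩ := hp
    exact e.lt_iff_lt.2 (h p (e.lt_iff_lt.1 hz))
  · push Not at hp
    exact (he z hp x y).1 hz

theorem up_emb {x y : P} (h : ∀ z, x < z → y < z) : ∀ z, e x < z → e y < z := by
  intro z hz
  by_cases hp : ∃ p, e p = z
  · obtain ⟨p, rfl⟩ := hp
    exact e.lt_iff_lt.2 (h p (e.lt_iff_lt.1 hz))
  · push Not at hp
    exact (he z hp x y).2 hz

theorem nested_emb {x y : P} (h : Nested x y) : Nested (e x) (e y) := by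
  rcases h with ⟨h1, h2⟩ | ⟨h1, h2⟩
  · exact Or.inl ⟨down_emb e he h1, up_emb e he h2⟩
  · exact Or.inr ⟨down_emb e he h1, up_emb e he h2⟩

theorem shifted_emb {x y : P} (h : Shifted x y) : Shifted (e x) (e y) := by
  rcases h with ⟨h1, h2⟩ | ⟨h1, h2⟩
  · exact Or.inl ⟨down_emb e he h1, up_emb e he h2⟩
  · exact Or.inr ⟨down_emb e he h1, up_emb e he h2⟩

theorem two_emb (hP : TwoA P) (A : Finset R) (hA : IsAntichain (· ≤ ·) (A : Set R))
    (hr : ∀ a ∈ A, ∃ p, e p = a) : ∃ B C : Finset R,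
    (∀ x, x ∈ A ↔ x ∈ B ∨ x ∈ C) ∧ (∀ x ∈ B, ∀ y ∈ B, Nested x y) ∧
    (∀ x ∈ C, ∀ y ∈ C, Shifted x y) := by
  obtain ⟨B, C, h1, h2, h3⟩ := hP (A.preimage e e.injective.injOn) (by
    intro x hx y hy hne hle
    rw [mem_coe, mem_preimage] at hx hy
    exact hA hx hy (fun h => hne (e.injective h)) (e.le_iff_le.2 hle))
  refine ⟨B.map e.toEmbedding, C.map e.toEmbedding, ?_, ?_, ?_⟩
  · intro a
    rw [mem_map, mem_map]
    constructor
    · intro ha
      obtain ⟨p, rfl⟩ := hr a ha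
      rcases (h1 p).1 (mem_preimage.2 ha) with h | h
      · exact Or.inl ⟨p, h, rfl⟩
      · exact Or.inr ⟨p, h, rfl⟩
    · rintro (⟨p, hp, rfl⟩ | ⟨p, hp, rfl⟩)
      · exact mem_preimage.1 ((h1 p).2 (Or.inl hp))
      · exact mem_preimage.1 ((h1 p).2 (Or.inr hp))
  · intro x hx y hy
    obtain ⟨p, hp, rfl⟩ := mem_map.1 hx
    obtain ⟨q, hq, rfl⟩ := mem_map.1 hy
    exact nested_emb e he (h2 p hp q hq)
  · intro x hx y hy
    obtain ⟨p, hp, rfl⟩ := mem_map.1 hx
    obtain ⟨q, hq, rfl⟩ := mem_map.1 hy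
    exact shifted_emb e he (h3 p hp q hq)

end emb

section lex

variable {P Q : Type} [PartialOrder P] [PartialOrder Q]

/-- left part of an ordinal sum -/
def lexL (P Q : Type) [PartialOrder P] [PartialOrder Q] : P ↪o (P ⊕ₗ Q) where
  toFun x := toLex (Sum.inl x)
  inj' x y h := Sum.inl_injective (toLex.injective h)
  map_rel_iff' := Sum.Lex.inl_le_inl_iff

/-- right part of an ordinal sum -/
def lexR (P Q : Type) [PartialOrder P] [PartialOrder Q] : Q ↪o (P ⊕ₗ Q) where
  toFun x := toLex (Sum.inr x)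
  inj' x y h := Sum.inr_injective (toLex.injective h)
  map_rel_iff' := Sum.Lex.inr_le_inr_iff

theorem lex_cases (z : P ⊕ₗ Q) : (∃ p, lexL P Q p = z) ∨ ∃ q, lexR P Q q = z := by
  rcases hz : ofLex z with x | y
  · left; exact ⟨x, by rw [← toLex_ofLex z, hz]; rfl⟩
  · right; exact ⟨y, by rw [← toLex_ofLex z, hz]; rfl⟩

theorem lexL_lt_lexR (p : P) (q : Q) : lexL P Q p < lexR P Q q := Sum.Lex.inl_lt_inr p q

theorem he_lexL (z : P ⊕ₗ Q) (hz : ∀ p, lexL P Q p ≠ z) (x y : P) :
    (z < lexL P Q x → z < lexL P Q y) ∧ (lexL P Q x < z → lexL P Q y < z) := by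
  rcases lex_cases z with ⟨p, hp⟩ | ⟨q, rfl⟩
  · exact absurd hp (hz p)
  · exact ⟨fun h => absurd h (lt_asymm (lexL_lt_lexR x q)), fun _ => lexL_lt_lexR y q⟩

theorem he_lexR (z : P ⊕ₗ Q) (hz : ∀ p, lexR P Q p ≠ z) (x y : Q) :
    (z < lexR P Q x → z < lexR P Q y) ∧ (lexR P Q x < z → lexR P Q y < z) := by
  rcases lex_cases z with ⟨p, rfl⟩ | ⟨q, hq⟩
  · exact ⟨fun _ => lexL_lt_lexR p y, fun h => absurd h (lt_asymm (lexL_lt_lexR p x))⟩
  · exact absurd hq (hz q)

theorem two_lex (hP : TwoA P) (hQ : TwoA Q) : TwoA (P ⊕ₗ Q) := by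
  intro A hA
  by_cases hc : ∃ p, lexL P Q p ∈ A
  · obtain ⟨p, hp⟩ := hc
    obtain ⟨B, C, h1, h2, h3⟩ := two_emb (lexL P Q) he_lexL hP A hA (by
      intro a ha
      rcases lex_cases a with h | ⟨q, rfl⟩
      · exact h
      · exact absurd (lexL_lt_lexR p q).le (hA hp ha (lexL_lt_lexR p q).ne))
    exact ⟨B, C, h1, h2, h3⟩
  · push Not at hc
    obtain ⟨B, C, h1, h2, h3⟩ := two_emb (lexR P Q) he_lexR hQ A hA (by
      intro a ha
      rcases lex_cases a with ⟨p, rfl⟩ | h
      · exact absurd ha (hc p)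
      · exact h)
    exact ⟨B, C, h1, h2, h3⟩

theorem bounds {P : Type} [Finite P] (l u : P → ℝ) : ∃ B C : ℝ, B ≤ C ∧ (∀ a, B ≤ l a) ∧
    ∀ a, u a ≤ C := by
  obtain ⟨C, hC⟩ := (Set.finite_range u).bddAbove
  obtain ⟨B, hB⟩ := (Set.finite_range l).bddBelow
  exact ⟨min B C, C, min_le_right _ _, fun a => (min_le_left _ _).trans (hB ⟨a, rfl⟩),
    fun a => hC ⟨a, rfl⟩⟩

theorem interval_lex [Finite P] [Finite Q] (hP : IsIntervalOrder P) (hQ : IsIntervalOrder Q) :
    IsIntervalOrder (P ⊕ₗ Q) := by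
  obtain ⟨l, u, h1, h2⟩ := hP
  obtain ⟨l', u', h1', h2'⟩ := hQ
  obtain ⟨B, C, hBC, hB, hC⟩ := bounds l u
  obtain ⟨B', C', hBC', hB', hC'⟩ := bounds l' u'
  refine ⟨fun z => Sum.elim l (fun q => l' q + (C - B' + 1)) (ofLex z),
    fun z => Sum.elim u (fun q => u' q + (C - B' + 1)) (ofLex z), ?_, ?_⟩
  · intro z
    rcases lex_cases z with ⟨p, rfl⟩ | ⟨q, rfl⟩
    · exact h1 p
    · show l' q + _ ≤ u' q + _
      linarith [h1' q]
  · intro z w
    rcases lex_cases z with ⟨p, rfl⟩ | ⟨q, rfl⟩ <;> rcases lex_cases w with ⟨p', rfl⟩ | ⟨q', rfl⟩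
    · rw [(lexL P Q).lt_iff_lt]
      exact h2 p p'
    · show _ ↔ u p < l' q' + (C - B' + 1)
      have := hC p
      have := hB' q'
      exact ⟨fun _ => by linarith, fun _ => lexL_lt_lexR p q'⟩
    · show _ ↔ u' q + (C - B' + 1) < l p'
      have h3 := hC p'
      have h4 := hB' q
      have h5 := h1 p'
      have h6 := h1' q
      exact ⟨fun h => absurd h (lt_asymm (lexL_lt_lexR p' q)), fun h => by linarith⟩
    · rw [(lexR P Q).lt_iff_lt]
      show _ ↔ u' q + (C - B' + 1) < l' q' + (C - B' + 1)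
      rw [h2' q q']
      constructor <;> intro h <;> linarith

end lex

section pt

variable {P : Type} [PartialOrder P]

/-- the old elements when an isolated element is added -/
def ptL (P : Type) [PartialOrder P] : P ↪o (P ⊕ Fin 1) where
  toFun x := Sum.inl x
  inj' x y h := Sum.inl_injective h
  map_rel_iff' := Sum.inl_le_inl_iff

theorem he_ptL (z : P ⊕ Fin 1) (hz : ∀ p, ptL P p ≠ z) (x y : P) :
    (z < ptL P x → z < ptL P y) ∧ (ptL P x < z → ptL P y < z) := by
  rcases z with p | q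
  · exact absurd rfl (hz p)
  · exact ⟨fun h => absurd h Sum.not_inr_lt_inl, fun h => absurd h Sum.not_inl_lt_inr⟩

theorem not_lt_pt (q : Fin 1) (z : P ⊕ Fin 1) : ¬ z < Sum.inr q := by
  rcases z with p | r
  · exact Sum.not_inl_lt_inr
  · rw [Subsingleton.elim q r]; exact lt_irrefl _

theorem not_pt_lt (q : Fin 1) (z : P ⊕ Fin 1) : ¬ Sum.inr q < z := by
  rcases z with p | r
  · exact Sum.not_inr_lt_inl
  · rw [Subsingleton.elim q r]; exact lt_irrefl _

theorem nested_pt (q : Fin 1) (z : P ⊕ Fin 1) : Nested (Sum.inr q) z :=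
  Or.inl ⟨fun y hy => absurd hy (not_lt_pt q y), fun y hy => absurd hy (not_pt_lt q y)⟩

theorem nested_pt' (q : Fin 1) (z : P ⊕ Fin 1) : Nested z (Sum.inr q) :=
  Or.inr ⟨fun y hy => absurd hy (not_lt_pt q y), fun y hy => absurd hy (not_pt_lt q y)⟩

theorem two_pt (hP : TwoA P) : TwoA (P ⊕ Fin 1) := by
  intro A hA
  obtain ⟨B, C, h1, h2, h3⟩ := two_emb (ptL P) he_ptL hP (A.filter (fun x => x ≠ Sum.inr 0))
    (hA.subset (by exact_mod_cast filter_subset _ _)) (by
      intro a ha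
      rw [mem_filter] at ha
      rcases a with p | q
      · exact ⟨p, rfl⟩
      · exact absurd (by rw [Subsingleton.elim q 0]) ha.2)
  by_cases h0 : (Sum.inr 0 : P ⊕ Fin 1) ∈ A
  · refine ⟨insert (Sum.inr 0) B, C, ?_, ?_, h3⟩
    · intro z
      have h4 := h1 z
      rw [mem_filter] at h4
      rw [mem_insert]
      by_cases hz : z = Sum.inr 0
      · subst hz
        simp [h0]
      · tauto
    · intro x hx y hy
      rw [mem_insert] at hx hy
      rcases hx with rfl | hx
      · exact nested_pt 0 y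
      · rcases hy with rfl | hy
        · exact nested_pt' 0 x
        · exact h2 x hx y hy
  · refine ⟨B, C, fun z => ?_, h2, h3⟩
    have h4 := h1 z
    rw [mem_filter] at h4
    rw [← h4]
    constructor
    · intro hz
      exact ⟨hz, fun h => h0 (h ▸ hz)⟩
    · exact fun h => h.1

theorem interval_pt [Finite P] (hP : IsIntervalOrder P) : IsIntervalOrder (P ⊕ Fin 1) := by
  obtain ⟨l, u, h1, h2⟩ := hP
  obtain ⟨B, C, hBC, hB, hC⟩ := bounds l u
  refine ⟨Sum.elim l (fun _ => B), Sum.elim u (fun _ => C), ?_, ?_⟩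
  · rintro (p | q)
    · exact h1 p
    · exact hBC
  · rintro (p | q) (p' | q')
    · rw [Sum.inl_lt_inl_iff]
      exact h2 p p'
    · show _ ↔ u p < B
      have := hB p
      have := h1 p
      exact ⟨fun h => absurd h Sum.not_inl_lt_inr, fun h => by linarith⟩
    · show _ ↔ C < l p'
      have := hC p'
      have := h1 p'
      exact ⟨fun h => absurd h Sum.not_inr_lt_inl, fun h => by linarith⟩
    · show _ ↔ C < B
      exact ⟨fun h => absurd h (not_lt_pt q' _), fun h => by linarith⟩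

end pt

theorem two_fin (q : ℕ) : TwoA (Fin q) := by
  intro A hA
  refine ⟨∅, A, by simp, by simp, ?_⟩
  intro x hx y hy
  by_cases h : x = y
  · subst h
    exact Or.inl ⟨fun z hz => hz, fun z hz => hz⟩
  · rcases le_total x y with h' | h'
    · exact absurd h' (hA hx hy h)
    · exact absurd h' (hA hy hx (Ne.symm h))

theorem interval_fin (q : ℕ) : IsIntervalOrder (Fin q) := by
  refine ⟨fun i => (i : ℕ), fun i => (i : ℕ), fun i => le_rfl, fun i j => ?_⟩
  rw [Fin.lt_def]
  exact (Nat.cast_lt (α := ℝ)).symm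

section HG

open Pool.Agent.H581.KS.HG

theorem HG_lt {r : ℕ} {x y : HG r} (h : x < y) : ∃ i j, x = a i ∧ y = b j ∧ i ≤ j := by
  obtain ⟨h1, h2⟩ := lt_iff_le_not_ge.1 h
  cases x with
  | a i =>
    cases y with
    | a j => exact absurd (a_le_a.2 (a_le_a.1 h1).symm) h2
    | b j => exact ⟨i, j, rfl, rfl, a_le_b.1 h1⟩
  | b i =>
    cases y with
    | a j => exact absurd h1 b_le_a
    | b j => exact absurd (b_le_b.2 (b_le_b.1 h1).symm) h2

theorem HG_lt_iff {r : ℕ} {i j : Fin r} : (a i : HG r) < b j ↔ i ≤ j := by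
  rw [lt_iff_le_not_ge]
  exact ⟨fun h => a_le_b.1 h.1, fun h => ⟨a_le_b.2 h, b_le_a⟩⟩

theorem HG_shifted {r : ℕ} (x y : HG r) : Shifted x y := by
  cases x with
  | a i =>
    cases y with
    | a j =>
      rcases le_total i j with h | h
      · refine Or.inl ⟨fun z hz => ?_, fun z hz => ?_⟩
        · obtain ⟨_, _, _, h2, _⟩ := HG_lt hz
          cases h2
        · obtain ⟨i', j', h1, rfl, h3⟩ := HG_lt hz
          cases h1
          exact HG_lt_iff.2 (h.trans h3)
      · refine Or.inr ⟨fun z hz => ?_, fun z hz => ?_⟩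
        · obtain ⟨_, _, _, h2, _⟩ := HG_lt hz
          cases h2
        · obtain ⟨i', j', h1, rfl, h3⟩ := HG_lt hz
          cases h1
          exact HG_lt_iff.2 (h.trans h3)
    | b j =>
      refine Or.inl ⟨fun z hz => ?_, fun z hz => ?_⟩
      · obtain ⟨_, _, _, h2, _⟩ := HG_lt hz
        cases h2
      · obtain ⟨_, _, h1, _, _⟩ := HG_lt hz
        cases h1
  | b i =>
    cases y with
    | a j =>
      refine Or.inr ⟨fun z hz => ?_, fun z hz => ?_⟩
      · obtain ⟨_, _, _, h2, _⟩ := HG_lt hz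
        cases h2
      · obtain ⟨_, _, h1, _, _⟩ := HG_lt hz
        cases h1
    | b j =>
      rcases le_total i j with h | h
      · refine Or.inl ⟨fun z hz => ?_, fun z hz => ?_⟩
        · obtain ⟨i', j', rfl, h2, h3⟩ := HG_lt hz
          cases h2
          exact HG_lt_iff.2 (h3.trans h)
        · obtain ⟨_, _, h1, _, _⟩ := HG_lt hz
          cases h1
      · refine Or.inr ⟨fun z hz => ?_, fun z hz => ?_⟩
        · obtain ⟨i', j', rfl, h2, h3⟩ := HG_lt hz
          cases h2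
          exact HG_lt_iff.2 (h3.trans h)
        · obtain ⟨_, _, h1, _, _⟩ := HG_lt hz
          cases h1

theorem two_HG (r : ℕ) : TwoA (HG r) :=
  fun A _ => ⟨∅, A, by simp, by simp, fun x _ y _ => HG_shifted x y⟩

theorem interval_HG (r : ℕ) : IsIntervalOrder (HG r) := by
  refine ⟨fun x => match x with
    | a _ => 0
    | b j => ((j : ℕ) : ℝ) + 1 / 2, fun x => match x with
    | a i => ((i : ℕ) : ℝ)
    | b _ => (r : ℝ) + 1, ?_, ?_⟩
  · intro x
    cases x with
    | a i => exact Nat.cast_nonneg _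
    | b j =>
      show ((j : ℕ) : ℝ) + 1 / 2 ≤ (r : ℝ) + 1
      have : ((j : ℕ) : ℝ) ≤ r := by exact_mod_cast j.2.le
      linarith
  · intro x y
    cases x with
    | a i =>
      cases y with
      | a j =>
        show _ ↔ ((i : ℕ) : ℝ) < 0
        refine ⟨fun h => ?_, fun h => absurd h (not_lt.2 (Nat.cast_nonneg _))⟩
        obtain ⟨_, _, _, h2, _⟩ := HG_lt h
        cases h2
      | b j =>
        show _ ↔ ((i : ℕ) : ℝ) < ((j : ℕ) : ℝ) + 1 / 2
        rw [HG_lt_iff, Fin.le_def]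
        constructor
        · intro h
          have : ((i : ℕ) : ℝ) ≤ ((j : ℕ) : ℝ) := by exact_mod_cast h
          linarith
        · intro h
          by_contra hc
          have : ((j : ℕ) : ℝ) + 1 ≤ ((i : ℕ) : ℝ) := by
            have : (j : ℕ) + 1 ≤ (i : ℕ) := by omega
            exact_mod_cast this
          linarith
    | b i =>
      cases y with
      | a j =>
        show _ ↔ (r : ℝ) + 1 < 0
        refine ⟨fun h => ?_, fun h => ?_⟩
        · obtain ⟨_, _, h1, _, _⟩ := HG_lt h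
          cases h1
        · have : (0 : ℝ) ≤ r := Nat.cast_nonneg _
          linarith
      | b j =>
        show _ ↔ (r : ℝ) + 1 < ((j : ℕ) : ℝ) + 1 / 2
        refine ⟨fun h => ?_, fun h => ?_⟩
        · obtain ⟨_, _, h1, _, _⟩ := HG_lt h
          cases h1
        · have : ((j : ℕ) : ℝ) ≤ r := by exact_mod_cast j.2.le
          linarith

end HG

end Pool.Agent.N502.IO
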