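import Mathlib
import Pool.Agent.N502.IO.Two

set_option autoImplicit false

/-!
The building blocks of `Pool.Agent.H581.KS` with the additional property that the posets are interval
orders all of whose antichains are unions of a nested and of a shifted set.
-/

open Finset

namespace Pool.Agent.N502.IO

open Pool.Agent.TH447.KS (IsIntervalOrder)
open Pool.Agent.H931R3.Bal (avg pr LEn avg_lex_inl avg_lex_inr pr_lex_inl pr_lex_inr card_ne
  pr_disj_inl LEn_nonempty)
open Pool.Agent.H581.KS

/-- there is an interval order with `n` elements and width `w`, all of whose antichains are unions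
of a nested and of a shifted set, all of whose incomparable pairs are `ε`-unbalanced and such that
the co-heights `n + 1 - ht x` of its elements lie in `S` -/
def ExT (ε : ℝ) (w n : ℕ) (S : Set ℝ) : Prop :=
  ∃ (P : Type) (_ : Fintype P) (_ : PartialOrder P), Fintype.card P = n ∧ HasWidth P w ∧
    Good P ε ∧ (∀ x : P, (n : ℝ) + 1 - ht P x ∈ S) ∧ IsIntervalOrder P ∧ TwoA P

theorem ext_lex {ε : ℝ} {w v n m : ℕ} {S T : Set ℝ} (h1 : ExT ε w n S) (h2 : ExT ε v m T) :
    ExT ε (max w v) (m + n) {t | t ∈ S ∨ t - n ∈ T} := by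
  obtain ⟨P, fP, oP, hPc, hPw, hPg, hPs, hPi, hPt⟩ := h1
  obtain ⟨Q, fQ, oQ, hQc, hQw, hQg, hQs, hQi, hQt⟩ := h2
  have hcard : Fintype.card (Q ⊕ₗ P) = m + n := by
    have : Fintype.card (Q ⊕ₗ P) = Fintype.card (Q ⊕ P) := Fintype.card_congr ofLex
    rw [this, Fintype.card_sum, hPc, hQc]
  refine ⟨Q ⊕ₗ P, inferInstance, inferInstance, hcard, ?_, ?_, ?_, interval_lex hQi hPi,
    two_lex hQt hPt⟩
  · rw [max_comm]
    exact width_lex hQw hPw
  · intro x y hxy hyx
    rw [hcard]
    rcases hx' : ofLex x with a | a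
    · have hx : x = toLex (Sum.inl a) := by rw [← hx']; rfl
      rcases hy' : ofLex y with b | b
      · have hy : y = toLex (Sum.inl b) := by rw [← hy']; rfl
        subst hx hy
        rw [pr_lex_inl hQc hPc]
        have := hQg a b (fun h => hxy (Sum.Lex.inl_le_inl_iff.2 h))
          (fun h => hyx (Sum.Lex.inl_le_inl_iff.2 h))
        rwa [hQc] at this
      · have hy : y = toLex (Sum.inr b) := by rw [← hy']; rfl
        subst hx hy
        exact absurd (Sum.Lex.inl_le_inr a b) hxy
    · have hx : x = toLex (Sum.inr a) := by rw [← hx']; rfl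
      rcases hy' : ofLex y with b | b
      · have hy : y = toLex (Sum.inl b) := by rw [← hy']; rfl
        subst hx hy
        exact absurd (Sum.Lex.inl_le_inr b a) hyx
      · have hy : y = toLex (Sum.inr b) := by rw [← hy']; rfl
        subst hx hy
        rw [pr_lex_inr hQc hPc]
        have := hPg a b (fun h => hxy (Sum.Lex.inr_le_inr_iff.2 h))
          (fun h => hyx (Sum.Lex.inr_le_inr_iff.2 h))
        rwa [hPc] at this
  · intro x
    unfold ht
    rw [hcard]
    rcases hx' : ofLex x with a | a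
    · have hx : x = toLex (Sum.inl a) := by rw [← hx']; rfl
      subst hx
      right
      have := hQs a
      unfold ht at this
      rw [hQc] at this
      rw [avg_lex_inl hQc hPc]
      push_cast
      rw [show (m : ℝ) + n + 1 - avg Q m a (fun i => (i : ℝ) + 1) - n =
        m + 1 - avg Q m a (fun i => (i : ℝ) + 1) by ring]
      exact this
    · have hx : x = toLex (Sum.inr a) := by rw [← hx']; rfl
      subst hx
      left
      have := hPs a
      unfold ht at this
      rw [hPc] at this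
      rw [avg_lex_inr hQc hPc]
      have h3 : avg P n a (fun i => ((m + i : ℕ) : ℝ) + 1) =
          m + avg P n a (fun i => (i : ℝ) + 1) := by
        unfold avg
        have h4 : (Fintype.card (LEn P n) : ℝ) ≠ 0 := card_ne hPc
        have h5 : ∑ f : LEn P n, (((m + ((f.1 a : Fin n) : ℕ) : ℕ) : ℝ) + 1) =
            (Fintype.card (LEn P n) : ℝ) * m + ∑ f : LEn P n, ((((f.1 a : Fin n) : ℕ) : ℝ) + 1) := by
          have : ∀ f : LEn P n, (((m + ((f.1 a : Fin n) : ℕ) : ℕ) : ℝ) + 1) =
              (m : ℝ) + ((((f.1 a : Fin n) : ℕ) : ℝ) + 1) := by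
            intro f; push_cast; ring
          rw [Finset.sum_congr rfl (fun f _ => this f), Finset.sum_add_distrib, Finset.sum_const,
            Finset.card_univ, nsmul_eq_mul]
        rw [h5]
        field_simp
      rw [h3]
      push_cast
      rw [show (m : ℝ) + n + 1 - (m + avg P n a (fun i => (i : ℝ) + 1)) =
        n + 1 - avg P n a (fun i => (i : ℝ) + 1) by ring]
      exact this

theorem ext_point {ε : ℝ} {w n : ℕ} {S : Set ℝ} (h1 : ExT ε w n S)
    (h : ∀ s ∈ S, ε * (n + 1) ≤ |s - (n + 1) / 2|) :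
    ExT ε (w + 1) (n + 1) {t | t = ((n : ℝ) + 2) / 2 ∨ t * (n + 1) / (n + 2) ∈ S} := by
  obtain ⟨P, iF, iP, hn, hw, hg, hS, hPi, hPt⟩ := h1
  have hc : Fintype.card (P ⊕ Fin 1) = n + 1 := by simp [hn]
  have hpos : (0 : ℝ) < (n : ℝ) + 1 := by positivity
  have hpos2 : (0 : ℝ) < (n : ℝ) + 2 := by positivity
  have key : ∀ x : P, ε ≤ |1 / 2 - avg P n x (fun i => (i : ℝ) + 1) / (n + 1)| := by
    intro x
    have h2 := h _ (hS x)
    unfold ht at h2
    rw [hn] at h2
    have h3 : (n : ℝ) + 1 - avg P n x (fun i => (i : ℝ) + 1) - (n + 1) / 2 =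
        (1 / 2 - avg P n x (fun i => (i : ℝ) + 1) / (n + 1)) * (n + 1) := by
      field_simp
      ring
    rw [h3, abs_mul, abs_of_pos hpos] at h2
    exact le_of_mul_le_mul_right h2 hpos
  refine ⟨P ⊕ Fin 1, inferInstance, inferInstance, hc, width_point hw, ?_, ?_,
    interval_pt hPi, two_pt hPt⟩
  · intro a b hab hba
    rw [hc]
    rcases a with a | a <;> rcases b with b | b
    · rw [pr_disj_inl hn (by simp)]
      have := hg a b (fun hh => hab (Sum.inl_le_inl_iff.2 hh))
        (fun hh => hba (Sum.inl_le_inl_iff.2 hh))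
      rwa [hn] at this
    · rw [pr_pt_inl_inr hn]
      have := key a
      rwa [show 1 - avg P n a (fun i => (i : ℝ) + 1) / (n + 1) - 1 / 2 =
        1 / 2 - avg P n a (fun i => (i : ℝ) + 1) / (n + 1) by ring]
    · rw [pr_pt_inr_inl hn]
      have := key b
      rwa [abs_sub_comm]
    · exact absurd (by rw [Subsingleton.elim a b]) hab
  · intro a
    unfold ht
    rw [hc]
    rcases a with a | a
    · right
      rw [avg_pt_inl hn]
      have h2 := hS a
      unfold ht at h2
      rw [hn] at h2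
      convert h2 using 1
      push_cast
      field_simp
      ring
    · left
      rw [avg_pt_inr hn]
      push_cast
      ring

open HALF HG

theorem ext_chain (ε : ℝ) {q : ℕ} (hq : 1 ≤ q) : ExT ε 1 q {t | 1 ≤ t ∧ t ≤ q} := by
  refine ⟨Fin q, inferInstance, inferInstance, Fintype.card_fin q, ⟨⟨{⟨0, by omega⟩}, ?_, ?_⟩, ?_⟩,
    ?_, ?_, interval_fin q, two_fin q⟩
  · rw [Finset.coe_singleton]
    exact IsAntichain.singleton
  · exact Finset.card_singleton _
  · intro s hs
    rw [Finset.card_le_one]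
    intro a ha b hb
    by_contra hne
    rcases le_total a b with h | h
    · exact hs (Finset.mem_coe.2 ha) (Finset.mem_coe.2 hb) hne h
    · exact hs (Finset.mem_coe.2 hb) (Finset.mem_coe.2 ha) (Ne.symm hne) h
  · intro x y h1 h2
    rcases le_total x y with h | h
    · exact absurd h h1
    · exact absurd h h2
  · intro x
    have hc : Fintype.card (Fin q) = q := Fintype.card_fin q
    have h1 : 1 ≤ ht (Fin q) x := by
      apply le_avg rfl
      intro f
      have : (0 : ℝ) ≤ (((f.1 x : Fin _) : ℕ) : ℝ) := Nat.cast_nonneg _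
      linarith
    have h2 : ht (Fin q) x ≤ q := by
      apply avg_le rfl
      intro f
      have : (((f.1 x : Fin _) : ℕ)) + 1 ≤ q := by
        have h3 := (f.1 x).2
        omega
      exact_mod_cast this
    rw [Set.mem_ofPred_eq]
    constructor <;> linarith

/-- `ext_half` from the other pieces -/
theorem ext_half_of
    (hAB : ∀ {r : ℕ} (i j : Fin r), j < i →
      1 / 2 + 1 / (8 * (r : ℝ) ^ 2) ≤ pr (HG r) (2 * r) (a i) (b j))
    (hAA : ∀ {r : ℕ} (i j : Fin r), i < j →
      1 / 2 + 1 / (8 * (r : ℝ) ^ 2) ≤ pr (HG r) (2 * r) (a i) (a j))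
    (hPD : ∀ {r : ℕ} (x y : HG r), pr (HG r) (2 * r) (dl y) (dl x) = pr (HG r) (2 * r) x y)
    (hHD : ∀ {r : ℕ} (x : HG r), ht (HG r) (dl x) = 2 * r + 1 - ht (HG r) x)
    (hW : ∀ r : ℕ, HasWidth (HG r) r)
    (hC1 : ∀ r : ℕ, (r + 1) * (r + 2) * Fintype.card (LEn (HG r) (2 * r)) ≤
      2 * Fintype.card (LEn (HG (r + 1)) (2 * (r + 1))))
    (hC2 : ∀ (r : ℕ) (i : Fin (r + 1)),
      Nat.card {f : LEn (HG (r + 1)) (2 * (r + 1)) // ((f.1 (a i) : Fin (2 * (r + 1))) : ℕ) = 0} ≤
        (2 * r + 1) * Fintype.card (LEn (HG r) (2 * r)))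
    (hC3 : ∀ {P : Type} [Fintype P] [PartialOrder P] {n : ℕ} (_ : Fintype.card P = n) (x : P)
      (_ : ∀ y, y ≤ x → y = x) (t : ℕ),
      Nat.card {f : LEn P n // ((f.1 x : Fin n) : ℕ) = t} ≤
        Nat.card {f : LEn P n // ((f.1 x : Fin n) : ℕ) = 0})
    (hM : ∀ {P : Type} [Fintype P] [PartialOrder P] {n : ℕ} (_ : Fintype.card P = n) (x : P)
      (c : ℝ) (_ : 0 < c) (_ : ∀ t : ℕ, c * Nat.card {f : LEn P n // ((f.1 x : Fin n) : ℕ) = t} ≤
        Fintype.card (LEn P n)), c / 2 ≤ ht P x)
    {ε : ℝ} {r : ℕ} (hr : 1 ≤ r) (hε : 8 * (r : ℝ) ^ 2 * ε ≤ 1) :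
    ExT ε r (2 * r) {t | ((r : ℝ) + 1) / 8 ≤ t ∧ t ≤ 2 * r + 1 - ((r : ℝ) + 1) / 8} := by
  have hr0 : (0 : ℝ) < r := by exact_mod_cast hr
  have hd : ε ≤ 1 / (8 * (r : ℝ) ^ 2) := by
    rw [le_div_iff₀ (by positivity)]
    linarith
  have key : ∀ x y : HG r, x ≠ y →
      (1 / 2 + 1 / (8 * (r : ℝ) ^ 2) ≤ pr (HG r) (2 * r) x y ∨
        1 / 2 + 1 / (8 * (r : ℝ) ^ 2) ≤ pr (HG r) (2 * r) y x) →
      ε ≤ |pr (HG r) (2 * r) x y - 1 / 2| := by
    intro x y hne h
    have h1 := pr_symm (card_HG r) x y hne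
    rw [le_abs]
    rcases h with h | h
    · left; linarith
    · right; linarith
  have hA : ∀ i : Fin r, ((r : ℝ) + 1) / 8 ≤ ht (HG r) (a i) := by
    obtain ⟨s, rfl⟩ : ∃ s, r = s + 1 := ⟨r - 1, by omega⟩
    intro i
    have h0 : ((((s + 1 : ℕ) : ℝ) + 1) / 4) / 2 ≤ ht (HG (s + 1)) (a i) := by
      apply hM (card_HG (s + 1)) (a i) _ (by positivity)
      intro t
      have hmin : ∀ y : HG (s + 1), y ≤ a i → y = a i := by
        intro y hy
        cases y with
        | a j => exact congrArg _ (a_le_a.1 hy)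
        | b j => exact absurd hy b_le_a
      have e1 := hC3 (card_HG (s + 1)) (a i) hmin t
      have e2 := hC2 s i
      have e3 := hC1 s
      have e4 : (Nat.card {f : LEn (HG (s + 1)) (2 * (s + 1)) //
          ((f.1 (a i) : Fin (2 * (s + 1))) : ℕ) = t} : ℝ) ≤
          (2 * s + 1) * (Fintype.card (LEn (HG s) (2 * s)) : ℝ) := by
        exact_mod_cast e1.trans e2
      have e5 : ((s : ℝ) + 1) * (s + 2) * (Fintype.card (LEn (HG s) (2 * s)) : ℝ) ≤
          2 * (Fintype.card (LEn (HG (s + 1)) (2 * (s + 1))) : ℝ) := by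
        exact_mod_cast e3
      have e6 : (0 : ℝ) ≤ (Fintype.card (LEn (HG s) (2 * s)) : ℝ) := Nat.cast_nonneg _
      have e7 : (0 : ℝ) ≤ s := Nat.cast_nonneg _
      push_cast
      calc ((s : ℝ) + 1 + 1) / 4 * (Nat.card {f : LEn (HG (s + 1)) (2 * (s + 1)) //
          ((f.1 (a i) : Fin (2 * (s + 1))) : ℕ) = t} : ℝ) ≤
          ((s : ℝ) + 1 + 1) / 4 * ((2 * s + 1) * (Fintype.card (LEn (HG s) (2 * s)) : ℝ)) := by
            apply mul_le_mul_of_nonneg_left e4 (by positivity)
        _ ≤ ((s : ℝ) + 1) * (s + 2) * (Fintype.card (LEn (HG s) (2 * s)) : ℝ) / 2 := by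
            nlinarith [mul_nonneg e6 e7]
        _ ≤ _ := by linarith
    linarith
  have hB : ∀ x : HG r, ((r : ℝ) + 1) / 8 ≤ ht (HG r) x := by
    intro x
    cases x with
    | a i => exact hA i
    | b j =>
      refine (hA j).trans (ht_mono ?_)
      exact a_le_b.2 le_rfl
  refine ⟨HG r, inferInstance, inferInstance, card_HG r, hW r, ?_, ?_, interval_HG r, two_HG r⟩
  · intro x y h1 h2
    rw [card_HG r]
    have hne : x ≠ y := fun h => h1 (h ▸ le_rfl)
    apply key x y hne
    cases x with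
    | a i =>
      cases y with
      | a j =>
        have hij : i ≠ j := fun h => hne (congrArg _ h)
        rcases lt_or_gt_of_ne hij with h | h
        · exact Or.inl (hAA i j h)
        · exact Or.inr (hAA j i h)
      | b j =>
        left
        apply hAB
        rw [a_le_b] at h1
        exact not_le.1 h1
    | b i =>
      cases y with
      | a j =>
        right
        apply hAB
        rw [a_le_b] at h2
        exact not_le.1 h2
      | b j =>
        have hij : i ≠ j := fun h => hne (congrArg _ h)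
        have e1 := hPD (r := r) (b i) (b j)
        have e2 := hPD (r := r) (b j) (b i)
        change pr (HG r) (2 * r) (a j.rev) (a i.rev) = _ at e1
        change pr (HG r) (2 * r) (a i.rev) (a j.rev) = _ at e2
        rw [← e1, ← e2]
        rcases lt_or_gt_of_ne hij with h | h
        · exact Or.inl (hAA j.rev i.rev (Fin.rev_lt_rev.2 h))
        · exact Or.inr (hAA i.rev j.rev (Fin.rev_lt_rev.2 h))
  · intro x
    have h1 := hB x
    have h2 := hB (dl x)
    rw [hHD] at h2
    rw [Set.mem_ofPred_eq]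
    push_cast
    constructor <;> linarith

theorem ext_half {ε : ℝ} {r : ℕ} (hr : 1 ≤ r) (hε : 8 * (r : ℝ) ^ 2 * ε ≤ 1) :
    ExT ε r (2 * r) {t | ((r : ℝ) + 1) / 8 ≤ t ∧ t ≤ 2 * r + 1 - ((r : ℝ) + 1) / 8} :=
  ext_half_of (fun i j h => pr_ab i j h) (fun i j h => pr_aa i j h) (fun x y => pr_dual x y)
    (fun x => ht_dual x) width_HG card_succ card_first (fun hn x hx t => card_at hn x hx t)
    (fun hn x c hc h => mean_ge hn x c hc h) hr hε

end Pool.Agent.N502.IO
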