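import Mathlib
import Pool.Agent.N502.IO.ExT

/-! The recursion of `Pool.Agent.H581.KS.Rec` with the additional property of the posets. -/

set_option autoImplicit false

open Finset
namespace Pool.Agent.N502.IO
open Pool.Agent.H931R3.Bal

theorem ExT.mono {ε : ℝ} {w n : ℕ} {S T : Set ℝ} (h : ExT ε w n S) (hST : ∀ s ∈ S, s ∈ T) :
    ExT ε w n T := by
  obtain ⟨P, i1, i2, h1, h2, h3, h4, h5⟩ := h
  exact ⟨P, i1, i2, h1, h2, h3, fun x => hST _ (h4 x), h5⟩

/-- co-heights in a block -/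
def BT (r q N : ℕ) : Set ℝ :=
  {t | (1 ≤ t ∧ t ≤ q) ∨ ∃ k : ℕ, k < N ∧ (q : ℝ) + 2 * r * k + ((r : ℝ) + 1) / 8 ≤ t ∧
    t ≤ (q : ℝ) + 2 * r * k + (2 * r + 1 - ((r : ℝ) + 1) / 8)}

theorem ext_block {ε : ℝ} {r : ℕ} (hr : 1 ≤ r) (hε : 8 * (r : ℝ) ^ 2 * ε ≤ 1) (q N : ℕ) :
    ExT ε r (2 * r * (N + 1) + q) (BT r q (N + 1)) := by
  induction N with
  | zero =>
    rcases Nat.eq_zero_or_pos q with hq | hq
    · subst hq
      have h := ext_half hr hε
      have e : 2 * r * (0 + 1) + 0 = 2 * r := by ring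
      rw [e]
      refine h.mono ?_
      intro s hs
      refine Or.inr ⟨0, by omega, ?_, ?_⟩
      · have := hs.1
        push_cast
        linarith
      · have := hs.2
        push_cast
        linarith
    · have h := ext_lex (ext_chain ε hq) (ext_half hr hε)
      have e : 2 * r * (0 + 1) + q = 2 * r + q := by ring
      have e2 : max 1 r = r := max_eq_right hr
      rw [e2] at h
      rw [e]
      refine h.mono ?_
      rintro s (hs | hs)
      · exact Or.inl hs
      · refine Or.inr ⟨0, by omega, ?_, ?_⟩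
        · have := hs.1
          push_cast
          linarith
        · have := hs.2
          push_cast
          linarith
  | succ N ih =>
    have h := ext_lex ih (ext_half hr hε)
    have e : 2 * r * (N + 1 + 1) + q = 2 * r + (2 * r * (N + 1) + q) := by ring
    rw [max_self] at h
    rw [e]
    refine h.mono ?_
    rintro s (hs | hs)
    · rcases hs with hs | ⟨k, hk, hs⟩
      · exact Or.inl hs
      · exact Or.inr ⟨k, by omega, hs⟩
    · refine Or.inr ⟨N + 1, by omega, ?_, ?_⟩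
      · have := hs.1
        push_cast at this ⊢
        linarith
      · have := hs.2
        push_cast at this ⊢
        linarith

/-- blocks with many free intervals -/
theorem block {ε : ℝ} {r b : ℕ} (hr : 7 ≤ r) (hε : 8 * (r : ℝ) ^ 2 * ε ≤ 1) (hb : 2 * r ≤ b) :
    ∃ T : Set ℝ, ExT ε r b T ∧ (∀ t ∈ T, 1 ≤ t ∧ t ≤ b) ∧
      ∀ y : ℝ, 0 ≤ y → y ≤ b + 1 → ∃ p : ℝ, |p - y| ≤ 3 * r ∧ ((r : ℝ) + 1) / 16 ≤ p ∧
        p + ((r : ℝ) + 1) / 16 ≤ b ∧
        ∀ t ∈ T, t ≤ p - ((r : ℝ) + 1) / 16 ∨ p + ((r : ℝ) + 1) / 16 ≤ t := by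
  have hr7 : (7 : ℝ) ≤ r := by exact_mod_cast hr
  obtain ⟨N, hN⟩ : ∃ N, b / (2 * r) = N + 1 := by
    have : 1 ≤ b / (2 * r) := by
      rw [Nat.one_le_div_iff (by omega)]
      exact hb
    exact ⟨b / (2 * r) - 1, by omega⟩
  set q := b % (2 * r) with hq
  have hbq : b = 2 * r * (N + 1) + q := by
    have := Nat.div_add_mod b (2 * r)
    rw [hN] at this
    omega
  have hq2 : q < 2 * r := Nat.mod_lt _ (by omega)
  have hq2' : (q : ℝ) < 2 * r := by exact_mod_cast hq2
  have hbR : (b : ℝ) = 2 * r * (N + 1) + q := by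
    rw [hbq]
    push_cast
    ring
  have hq0 : (0 : ℝ) ≤ q := Nat.cast_nonneg q
  refine ⟨BT r q (N + 1), ?_, ?_, ?_⟩
  · rw [hbq]
    exact ext_block (by omega) hε q N
  · rintro t (⟨h1, h2⟩ | ⟨k, hk, h1, h2⟩)
    · refine ⟨h1, h2.trans ?_⟩
      rw [hbR]
      have : (0 : ℝ) ≤ 2 * r * (N + 1) := by positivity
      linarith
    · have hk0 : (0 : ℝ) ≤ k := Nat.cast_nonneg k
      have hkN : (k : ℝ) ≤ N := by exact_mod_cast Nat.lt_succ_iff.1 hk
      constructor
      · have : (0 : ℝ) ≤ 2 * r * k := by positivity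
        linarith
      · rw [hbR]
        have : (2 : ℝ) * r * k ≤ 2 * r * N := by
          apply mul_le_mul_of_nonneg_left hkN
          positivity
        linarith
  · intro y hy0 hyb
    have key : ∃ k : ℕ, k ≤ N ∧ |(q : ℝ) + 2 * r * k + ((r : ℝ) + 1) / 16 - y| ≤ 3 * r := by
      rcases lt_or_ge y q with hyq | hyq
      · refine ⟨0, by omega, ?_⟩
        rw [abs_le]
        constructor <;> push_cast <;> linarith
      · set j := ⌊(y - q) / (2 * r)⌋₊ with hj
        have hpos : (0 : ℝ) < 2 * r := by linarith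
        have h0 : 0 ≤ (y - q) / (2 * r) := div_nonneg (by linarith) hpos.le
        have h1 : (j : ℝ) ≤ (y - q) / (2 * r) := Nat.floor_le h0
        have h2 : (y - q) / (2 * r) < j + 1 := Nat.lt_floor_add_one _
        rw [le_div_iff₀ hpos] at h1
        rw [div_lt_iff₀ hpos] at h2
        rcases le_or_gt j N with hjN | hjN
        · refine ⟨j, hjN, ?_⟩
          rw [abs_le]
          constructor <;> nlinarith
        · refine ⟨N, le_rfl, ?_⟩
          have hjN' : (N : ℝ) + 1 ≤ j := by exact_mod_cast hjN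
          have h3 : ((N : ℝ) + 1) * (2 * r) ≤ y - q := by nlinarith
          rw [abs_le]
          constructor <;> nlinarith
    obtain ⟨k, hk, hky⟩ := key
    have hk0 : (0 : ℝ) ≤ k := Nat.cast_nonneg k
    have hkN : (k : ℝ) ≤ N := by exact_mod_cast hk
    have h2k : (0 : ℝ) ≤ 2 * r * k := by positivity
    have h2kN : (2 : ℝ) * r * k ≤ 2 * r * N := by
      apply mul_le_mul_of_nonneg_left hkN
      positivity
    refine ⟨(q : ℝ) + 2 * r * k + ((r : ℝ) + 1) / 16, hky, by linarith, ?_, ?_⟩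
    · rw [hbR]
      linarith
    · rintro t (⟨h1, h2⟩ | ⟨j, hj, h1, h2⟩)
      · left
        linarith
      · rcases lt_or_ge j k with hjk | hjk
        · left
          have : (j : ℝ) + 1 ≤ k := by exact_mod_cast hjk
          have h3 : (2 : ℝ) * r * (j + 1) ≤ 2 * r * k := by
            apply mul_le_mul_of_nonneg_left this
            positivity
          linarith
        · right
          have : (k : ℝ) ≤ j := by exact_mod_cast hjk
          have h3 : (2 : ℝ) * r * k ≤ 2 * r * j := by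
            apply mul_le_mul_of_nonneg_left this
            positivity
          linarith

/-- every number in the lower half is near the centre of a free interval -/
def Gap (ε : ℝ) (n : ℕ) (S : Set ℝ) : Prop :=
  ∀ y : ℝ, (1 / 2 + 1200 * ε) * n ≤ y → y ≤ n → ∃ p : ℝ, |p - y| ≤ 2000 * ε * y ∧
    p * (1 + 10 * ε) ≤ n + 1 ∧ ∀ s ∈ S, s ≤ p * (1 - 10 * ε) ∨ p * (1 + 10 * ε) ≤ s

/-- the invariant of the recursion -/
def Inv (ε : ℝ) (w n : ℕ) : Prop :=
  ∃ S : Set ℝ, ExT ε w n S ∧ Gap ε n S ∧ ∀ s ∈ S, s ≤ n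

theorem inv_base {ε : ℝ} (hε0 : 0 < ε) (hε1 : ε ≤ 1 / 100000) {n r : ℕ} (hn : 1 ≤ 8 * ε * n)
    (hr1 : 320 * ε * n ≤ r) (hr2 : r ≤ 320 * ε * n + 1) (hr3 : 8 * (r : ℝ) ^ 2 * ε ≤ 1) :
    Inv ε r n := by
  have hn0 : (0 : ℝ) < n := by
    rcases Nat.eq_zero_or_pos n with h | h
    · subst h
      simp at hn
      linarith
    · exact_mod_cast h
  have hr40 : (40 : ℝ) ≤ r := by linarith
  have hr7 : 7 ≤ r := by
    have : (7 : ℝ) ≤ r := by linarith
    exact_mod_cast this
  have hrn : (r : ℝ) ≤ 328 * ε * n := by linarith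
  have hεn : ε * n ≤ n / 100000 := by nlinarith
  have h2r : 2 * r ≤ n := by
    have : (2 : ℝ) * r ≤ n := by nlinarith
    exact_mod_cast this
  obtain ⟨T, h1, h2, h3⟩ := block hr7 hr3 h2r
  refine ⟨T, h1, ?_, fun s hs => (h2 s hs).2⟩
  intro y hy1 hy2
  have hy0 : (n : ℝ) / 2 ≤ y := by nlinarith
  obtain ⟨p, hp1, hp2, hp3, hp4⟩ := h3 y (by linarith) (by linarith)
  have hpn : p ≤ n := by linarith
  have hp10 : p * (10 * ε) ≤ ((r : ℝ) + 1) / 16 := by nlinarith
  refine ⟨p, ?_, ?_, ?_⟩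
  · refine hp1.trans ?_
    nlinarith
  · nlinarith
  · intro s hs
    rcases hp4 s hs with h | h
    · left
      nlinarith
    · right
      nlinarith

theorem gap_scale {ε : ℝ} {m : ℕ} {S : Set ℝ} {y z : ℝ} (hz : z * ((m : ℝ) + 2) = y * (m + 1))
    (hex : ∃ p : ℝ, |p - z| ≤ 2000 * ε * z ∧ p * (1 + 10 * ε) ≤ m + 1 ∧
      ((m : ℝ) + 1) / 2 ≤ p * (1 - 10 * ε) ∧
      ∀ s ∈ S, s ≤ p * (1 - 10 * ε) ∨ p * (1 + 10 * ε) ≤ s) :
    ∃ p : ℝ, |p - y| ≤ 2000 * ε * y ∧ p * (1 + 10 * ε) ≤ (m + 1 : ℝ) + 1 ∧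
      ∀ s ∈ {t : ℝ | t = ((m : ℝ) + 2) / 2 ∨ t * (m + 1) / (m + 2) ∈ S},
        s ≤ p * (1 - 10 * ε) ∨ p * (1 + 10 * ε) ≤ s := by
  obtain ⟨p, hp1, hp2, hp3, hp4⟩ := hex
  have hm1 : (0 : ℝ) < (m : ℝ) + 1 := by positivity
  have hm2 : (0 : ℝ) < (m : ℝ) + 2 := by positivity
  obtain ⟨D, hD⟩ : ∃ D : ℝ, D = ((m : ℝ) + 2) / (m + 1) := ⟨_, rfl⟩
  have hD0 : 0 < D := by rw [hD]; positivity
  have hDm : D * ((m : ℝ) + 1) = m + 2 := by rw [hD]; field_simp
  have hy : y = z * D := by
    rw [hD]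
    field_simp
    linarith
  refine ⟨p * D, ?_, ?_, ?_⟩
  · rw [hy, ← sub_mul, abs_mul, abs_of_pos hD0]
    have := mul_le_mul_of_nonneg_right hp1 hD0.le
    linarith
  · have := mul_le_mul_of_nonneg_right hp2 hD0.le
    nlinarith
  · rintro t (ht | ht)
    · left
      have := mul_le_mul_of_nonneg_right hp3 hD0.le
      nlinarith
    · have ht2 : t = (t * ((m : ℝ) + 1) / (m + 2)) * D := by
        rw [hD]
        field_simp
      rcases hp4 _ ht with h | h
      · left
        have := mul_le_mul_of_nonneg_right h hD0.le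
        rw [← ht2] at this
        nlinarith
      · right
        have := mul_le_mul_of_nonneg_right h hD0.le
        rw [← ht2] at this
        nlinarith

theorem aux1 {A m y : ℝ} (hA : 0 ≤ A) (hm : 0 ≤ m) (h : A * (m + 1) ≤ y) :
    A * m ≤ y * (m + 1) / (m + 2) := by
  rw [le_div_iff₀ (by linarith)]
  have := mul_le_mul_of_nonneg_right h (show 0 ≤ m + 1 by linarith)
  nlinarith

theorem aux2 {m y : ℝ} (hm : 0 ≤ m) (h : y ≤ m + 1) : y * (m + 1) / (m + 2) ≤ m + 1 := by
  rw [div_le_iff₀ (by linarith)]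
  nlinarith

theorem aux3 {s m : ℝ} (hm : 0 ≤ m) (h : s * (m + 1) / (m + 2) ≤ m) : s ≤ m + 1 := by
  rw [div_le_iff₀ (by linarith)] at h
  by_contra hc
  push Not at hc
  have : (m + 1) * (m + 1) < s * (m + 1) := mul_lt_mul_of_pos_right hc (by linarith)
  nlinarith

theorem inv_step {ε : ℝ} (hε0 : 0 < ε) (hε1 : ε ≤ 1 / 100000) {w n r : ℕ} (hn : 1 ≤ 8 * ε * n)
    (hr1 : 320 * ε * n ≤ r) (hr2 : r ≤ 320 * ε * n + 1) (hr3 : 8 * (r : ℝ) ^ 2 * ε ≤ 1)
    (hrw : r ≤ w) (h : Inv ε w n) :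
    ∃ n' : ℕ, n < n' ∧ (n' : ℝ) ≤ n * (1 + 5000 * ε) ∧ Inv ε (w + 1) n' := by
  obtain ⟨S, h1, h2, h3⟩ := h
  have hn0 : (0 : ℝ) < n := by
    rcases Nat.eq_zero_or_pos n with h | h
    · subst h
      simp at hn
      linarith
    · exact_mod_cast h
  have hr40 : (40 : ℝ) ≤ r := by linarith
  have hr7 : 7 ≤ r := by
    have : (7 : ℝ) ≤ r := by linarith
    exact_mod_cast this
  obtain ⟨e, he⟩ : ∃ e : ℝ, e = ε * n := ⟨_, rfl⟩
  have he1 : 1 ≤ 8 * e := by rw [he]; linarith
  have he2 : e ≤ n / 100000 := by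
    rw [he]
    have := mul_le_mul_of_nonneg_right hε1 hn0.le
    linarith
  have he3 : ε * e ≤ e / 100000 := by
    have := mul_le_mul_of_nonneg_right hε1 (show 0 ≤ e by linarith)
    linarith
  have hr1' : 320 * e ≤ r := by rw [he]; linarith
  have hr2' : (r : ℝ) ≤ 320 * e + 1 := by rw [he]; linarith
  have hrn : (r : ℝ) ≤ 328 * e := by linarith
  obtain ⟨p, hp1, hp2, hp3⟩ := h2 ((1 / 2 + 1400 * ε) * n)
    (by rw [add_mul, mul_assoc, ← he, add_mul, mul_assoc, ← he]; linarith)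
    (by rw [add_mul, mul_assoc, ← he]; linarith)
  have hy0 : (1 / 2 + 1400 * ε) * (n : ℝ) = n / 2 + 1400 * e := by rw [he]; ring
  rw [hy0] at hp1
  have herr : 2000 * ε * ((n : ℝ) / 2 + 1400 * e) ≤ 1028 * e := by
    have : 2000 * ε * ((n : ℝ) / 2 + 1400 * e) = 1000 * e + 2800000 * (ε * e) := by rw [he]; ring
    rw [this]
    linarith
  have hp1' := abs_le.1 (hp1.trans herr)
  have hpl : (n : ℝ) / 2 + 372 * e ≤ p := by linarith [hp1'.1]
  have hpu : p ≤ (n : ℝ) / 2 + 2428 * e := by linarith [hp1'.2]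
  have hp0 : 0 ≤ p := by linarith
  obtain ⟨M, hM⟩ : ∃ M : ℕ, M = ⌊2 * p⌋₊ := ⟨_, rfl⟩
  have hM1 : (M : ℝ) ≤ 2 * p := by rw [hM]; exact Nat.floor_le (by linarith)
  have hM2 : 2 * p < M + 1 := by rw [hM]; exact Nat.lt_floor_add_one _
  have hMb : n + 1 + 2 * r ≤ M := by
    have : (n : ℝ) + 1 + 2 * r < M + 1 := by linarith
    have h' : n + 1 + 2 * r < M + 1 := by exact_mod_cast this
    omega
  obtain ⟨b, hb⟩ : ∃ b, M = b + n + 1 := ⟨M - n - 1, by omega⟩
  have h2r : 2 * r ≤ b := by omega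
  obtain ⟨T, hT1, hT2, hT3⟩ := block hr7 hr3 h2r
  have hx := ext_lex h1 hT1
  rw [max_eq_left hrw] at hx
  obtain ⟨m, hm⟩ : ∃ m, m = b + n := ⟨_, rfl⟩
  rw [← hm] at hx
  have hmR : (m : ℝ) = b + n := by rw [hm]; push_cast; ring
  have hMm : (M : ℝ) = m + 1 := by rw [hb, ← hm]; push_cast; ring
  have hmu : (m : ℝ) + 1 ≤ n + 4856 * e := by rw [← hMm]; linarith
  have hmn : (n : ℝ) ≤ m := by rw [hmR]; have : (0 : ℝ) ≤ b := Nat.cast_nonneg b; linarith
  have hpe : p * ε ≤ 0.6 * e := by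
    have : p * ε ≤ ((n : ℝ) / 2 + 2428 * e) * ε := mul_le_mul_of_nonneg_right hpu hε0.le
    have e2 : ((n : ℝ) / 2 + 2428 * e) * ε = e / 2 + 2428 * (ε * e) := by rw [he]; ring
    linarith
  have hpe2 : 0.5 * e ≤ p * ε := by
    have : ((n : ℝ) / 2) * ε ≤ p * ε := mul_le_mul_of_nonneg_right (by linarith) hε0.le
    have e2 : ((n : ℝ) / 2) * ε = e / 2 := by rw [he]; ring
    linarith
  have hcond : ∀ s ∈ {t : ℝ | t ∈ S ∨ t - n ∈ T}, ε * ((m : ℝ) + 1) ≤ |s - ((m : ℝ) + 1) / 2| := by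
    have hεm : ε * ((m : ℝ) + 1) ≤ 2 * (p * ε) := by
      rw [← hMm]
      have := mul_le_mul_of_nonneg_left hM1 hε0.le
      linarith
    have hup : ∀ s : ℝ, p * (1 + 10 * ε) ≤ s → ε * ((m : ℝ) + 1) ≤ |s - ((m : ℝ) + 1) / 2| := by
      intro s hs
      refine le_trans ?_ (le_abs_self _)
      rw [← hMm]
      rw [← hMm] at hεm
      have e5 : p * (1 + 10 * ε) = p + 10 * (p * ε) := by ring
      rw [e5] at hs
      linarith
    rintro s (hs | hs)
    · rcases hp3 s hs with h | h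
      · rw [abs_sub_comm]
        refine le_trans ?_ (le_abs_self _)
        rw [← hMm]
        rw [← hMm] at hεm
        have e5 : p * (1 - 10 * ε) = p - 10 * (p * ε) := by ring
        rw [e5] at h
        linarith
      · exact hup s h
    · apply hup
      have := (hT2 _ hs).1
      linarith
  have hy := ext_point hx hcond
  refine ⟨m + 1, by omega, ?_, _, hy, ?_, ?_⟩
  · push_cast
    have : (n : ℝ) * (1 + 5000 * ε) = n + 5000 * e := by rw [he]; ring
    rw [this]
    linarith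
  · intro y hy1 hy2
    push_cast at hy1 hy2 ⊢
    have hm2 : (0 : ℝ) < (m : ℝ) + 2 := by positivity
    obtain ⟨z, hz⟩ : ∃ z : ℝ, z = y * (m + 1) / (m + 2) := ⟨_, rfl⟩
    have hz1 : z * ((m : ℝ) + 2) = y * (m + 1) := by rw [hz]; field_simp
    have hz2 : (1 / 2 + 1200 * ε) * m ≤ z := by
      rw [hz]
      exact aux1 (by positivity) (Nat.cast_nonneg m) hy1
    have hz3 : z ≤ m + 1 := by
      rw [hz]
      exact aux2 (Nat.cast_nonneg m) hy2
    apply gap_scale hz1
    rcases le_or_gt z n with hzn | hzn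
    · obtain ⟨p1, hq1, hq2, hq3⟩ := h2 z (by
        refine le_trans ?_ hz2
        apply mul_le_mul_of_nonneg_left hmn
        positivity) hzn
      refine ⟨p1, hq1, by linarith, ?_, ?_⟩
      · have hq1' := (abs_le.1 hq1).1
        have hzε : ε * z ≤ e := by
          rw [he]
          exact mul_le_mul_of_nonneg_left hzn hε0.le
        obtain ⟨f, hf⟩ : ∃ f : ℝ, f = ε * m := ⟨_, rfl⟩
        have hef : e ≤ f := by
          rw [he, hf]
          exact mul_le_mul_of_nonneg_left hmn hε0.le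
        have hεf : ε * f ≤ f / 100000 := by
          have := mul_le_mul_of_nonneg_right hε1 (show 0 ≤ f by linarith)
          linarith
        have h20 : 0 ≤ 1 - 2000 * ε := by linarith
        have h21 := mul_le_mul_of_nonneg_right hz2 h20
        have h22 : (1 / 2 + 1200 * ε) * (m : ℝ) * (1 - 2000 * ε) =
            m / 2 + 200 * f - 2400000 * (ε * f) := by rw [hf]; ring
        rw [h22] at h21
        have h23 : z * (1 - 2000 * ε) ≤ p1 := by linarith
        have h24 : (m : ℝ) / 2 + 176 * f ≤ p1 := by linarith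
        have h25 : p1 ≤ z + 2000 * ε * z := by linarith [(abs_le.1 hq1).2]
        have h26 : ε * (ε * z) ≤ (ε * z) / 100000 := by
          have h27 : 0 ≤ ε * z := mul_nonneg hε0.le (by
            have : (0 : ℝ) ≤ (1 / 2 + 1200 * ε) * m := by positivity
            linarith)
          have := mul_le_mul_of_nonneg_right hε1 h27
          linarith
        have h28 : ε * p1 ≤ ε * (z + 2000 * ε * z) := mul_le_mul_of_nonneg_left h25 hε0.le
        have h29 : ε * (z + 2000 * ε * z) = ε * z + 2000 * (ε * (ε * z)) := by ring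
        have h30 : p1 * (1 - 10 * ε) = p1 - 10 * (ε * p1) := by ring
        rw [h30]
        linarith
      · rintro s (hs | hs)
        · exact hq3 s hs
        · right
          have := (hT2 _ hs).1
          linarith
    · obtain ⟨p1, hq1, hq2, hq3, hq4⟩ := hT3 (z - n) (by linarith) (by rw [hmR] at hz3; linarith)
      have hq1' := abs_le.1 hq1
      have hbm : (b : ℝ) + n = m := hmR.symm
      have hpm : p1 + n ≤ m := by linarith
      have hpε : (p1 + n) * (10 * ε) ≤ ((r : ℝ) + 1) / 16 := by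
        have h8 : (p1 + n) * (10 * ε) ≤ (n + 4856 * e) * (10 * ε) :=
          mul_le_mul_of_nonneg_right (by linarith) (by positivity)
        have h9 : ((n : ℝ) + 4856 * e) * (10 * ε) = 10 * e + 48560 * (ε * e) := by rw [he]; ring
        linarith
      refine ⟨p1 + n, ?_, ?_, ?_, ?_⟩
      · have e3 : p1 + n - z = p1 - (z - n) := by ring
        rw [e3]
        refine hq1.trans ?_
        have : e ≤ ε * z := by
          rw [he]
          exact mul_le_mul_of_nonneg_left hzn.le hε0.le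
        linarith
      · have e5 : (p1 + n) * (1 + 10 * ε) = p1 + n + (p1 + n) * (10 * ε) := by ring
        rw [e5]
        linarith
      · have e5 : (p1 + n) * (1 - 10 * ε) = p1 + n - (p1 + n) * (10 * ε) := by ring
        rw [e5]
        linarith
      · have e5 : (p1 + n) * (1 + 10 * ε) = p1 + n + (p1 + n) * (10 * ε) := by ring
        have e6 : (p1 + n) * (1 - 10 * ε) = p1 + n - (p1 + n) * (10 * ε) := by ring
        rw [e5, e6]
        rintro s (hs | hs)
        · left
          have := h3 s hs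
          linarith
        · rcases hq4 _ hs with h | h
          · left
            linarith
          · right
            linarith
  · rintro s (hs | hs)
    · rw [hs]
      push_cast
      have : (0 : ℝ) ≤ m := Nat.cast_nonneg m
      linarith
    · have hm2 : (0 : ℝ) < (m : ℝ) + 2 := by positivity
      have hs2 : s * ((m : ℝ) + 1) / (m + 2) ≤ m := by
        rcases hs with hs | hs
        · exact (h3 _ hs).trans hmn
        · have := (hT2 _ hs).2
          rw [hmR]
          rw [hmR] at this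
          linarith
      push_cast
      exact aux3 (Nat.cast_nonneg m) hs2

end Pool.Agent.N502.IO
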