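import Mathlib

set_option autoImplicit false

/-!
# The potential: the integral of the square root of the distance to a set
-/

open MeasureTheory Set Metric

namespace Pool.Agent.N502.IO

/-- the integral over `[0, L]` of the square root of the distance to `S` -/
noncomputable def Gam (S : Set ℝ) (L : ℝ) : ℝ := ∫ p in (0 : ℝ)..L, Real.sqrt (infDist p S)

theorem cont_dist (S : Set ℝ) : Continuous (fun p : ℝ => Real.sqrt (infDist p S)) :=
  (continuous_infDist_pt S).sqrt

theorem int_dist (S : Set ℝ) (a b : ℝ) :
    IntervalIntegrable (fun p : ℝ => Real.sqrt (infDist p S)) volume a b :=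
  (cont_dist S).intervalIntegrable a b

theorem Gam_nonneg (S : Set ℝ) {L : ℝ} (hL : 0 ≤ L) : 0 ≤ Gam S L :=
  intervalIntegral.integral_nonneg hL (fun _ _ => Real.sqrt_nonneg _)

theorem infDist_shift (a : ℝ) (T : Set ℝ) (q : ℝ) :
    infDist (q + a) ((fun x => x + a) '' T) = infDist q T :=
  infDist_image (Φ := fun x : ℝ => x + a) (IsometryEquiv.addRight a).isometry

/-- gluing -/
theorem Gam_union {S T : Set ℝ} (hS : S.Nonempty) (hT : T.Nonempty) {a b : ℝ} (ha : 0 ≤ a)
    (hb : 0 ≤ b) : Gam (S ∪ (fun x => x + a) '' T) (a + b + 1) ≤ Gam S (a + 1) + Gam T (b + 1) := by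
  unfold Gam
  rw [← intervalIntegral.integral_add_adjacent_intervals (int_dist _ 0 a)
    (int_dist _ a (a + b + 1))]
  apply add_le_add
  · calc ∫ p in (0 : ℝ)..a, Real.sqrt (infDist p (S ∪ (fun x => x + a) '' T)) ≤
        ∫ p in (0 : ℝ)..a, Real.sqrt (infDist p S) := by
          apply intervalIntegral.integral_mono_on ha (int_dist _ _ _) (int_dist _ _ _)
          intro p _
          exact Real.sqrt_le_sqrt (infDist_le_infDist_of_subset subset_union_left hS)
      _ ≤ ∫ p in (0 : ℝ)..(a + 1), Real.sqrt (infDist p S) := by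
          apply intervalIntegral.integral_mono_interval le_rfl ha (by linarith)
          · exact Filter.Eventually.of_forall (fun p => Real.sqrt_nonneg _)
          · exact int_dist _ _ _
  · calc ∫ p in a..(a + b + 1), Real.sqrt (infDist p (S ∪ (fun x => x + a) '' T)) ≤
        ∫ p in a..(a + b + 1), Real.sqrt (infDist p ((fun x => x + a) '' T)) := by
          apply intervalIntegral.integral_mono_on (by linarith) (int_dist _ _ _) (int_dist _ _ _)
          intro p _
          exact Real.sqrt_le_sqrt (infDist_le_infDist_of_subset subset_union_right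
            (hT.image _))
      _ = ∫ p in (0 : ℝ)..(b + 1), Real.sqrt (infDist p T) := by
          have h := intervalIntegral.integral_comp_add_right (a := 0) (b := b + 1)
            (fun p => Real.sqrt (infDist p ((fun x => x + a) '' T))) a
          rw [zero_add, show b + 1 + a = a + b + 1 by ring] at h
          rw [← h]
          congr 1
          funext p
          rw [infDist_shift]

/-- scaling -/
theorem Gam_scale (S : Set ℝ) {l : ℝ} (hl : 0 < l) (L : ℝ) :
    Gam ((fun x => l * x) '' S) (l * L) = l * Real.sqrt l * Gam S L := by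
  unfold Gam
  have h := intervalIntegral.integral_comp_mul_left (a := 0) (b := L)
    (fun p => Real.sqrt (infDist p ((fun x => l * x) '' S))) hl.ne'
  rw [mul_zero, smul_eq_mul] at h
  have h2 : ∫ x in (0 : ℝ)..(l * L), Real.sqrt (infDist x ((fun x => l * x) '' S)) =
      l * ∫ x in (0 : ℝ)..L, Real.sqrt (infDist (l * x) ((fun x => l * x) '' S)) := by
    rw [h, ← mul_assoc, mul_inv_cancel₀ hl.ne', one_mul]
  have e : ∀ x : ℝ, Real.sqrt (infDist (l * x) ((fun x => l * x) '' S)) =
      Real.sqrt l * Real.sqrt (infDist x S) := by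
    intro x
    have e1 : infDist (l * x) ((fun x => l * x) '' S) = l * infDist x S := by
      have := infDist_smul₀ (c := l) hl.ne' S x
      rw [Real.norm_of_nonneg hl.le] at this
      exact this
    rw [e1, Real.sqrt_mul hl.le]
  rw [h2]
  simp_rw [e]
  rw [intervalIntegral.integral_const_mul]
  ring

/-- adding a point in the middle of a free interval -/
theorem Gam_insert {S : Set ℝ} (hS : S.Nonempty) {g r L : ℝ} (hr : 0 ≤ r)
    (hd : ∀ s ∈ S, r ≤ |g - s|) (h1 : 0 ≤ g - r / 4) (h2 : g + r / 4 ≤ L) :
    Gam (insert g S) L + 1 / 6 * (r * Real.sqrt r) ≤ Gam S L := by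
  have hmono : ∀ p : ℝ, Real.sqrt (infDist p (insert g S)) ≤ Real.sqrt (infDist p S) := fun p =>
    Real.sqrt_le_sqrt (infDist_le_infDist_of_subset (subset_insert g S) hS)
  have hc : Continuous (fun p : ℝ => Real.sqrt (infDist p S) -
      Real.sqrt (infDist p (insert g S))) := (cont_dist S).sub (cont_dist _)
  have key : ∀ p ∈ Icc (g - r / 4) (g + r / 4), Real.sqrt r / 3 ≤ Real.sqrt (infDist p S) -
      Real.sqrt (infDist p (insert g S)) := by
    intro p hp
    have hpg : |p - g| ≤ r / 4 := by
      rw [abs_le]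
      constructor <;> linarith [hp.1, hp.2]
    have e1 : infDist p (insert g S) ≤ r / 4 := by
      refine (infDist_le_dist_of_mem (mem_insert g S)).trans ?_
      rw [Real.dist_eq]
      exact hpg
    have e2 : 3 * r / 4 ≤ infDist p S := by
      rw [le_infDist hS]
      intro s hs
      rw [Real.dist_eq]
      have h3 := hd s hs
      have h4 : |g - s| ≤ |p - s| + |p - g| := by
        have := abs_sub_le g p s
        rw [abs_sub_comm g p] at this
        linarith
      linarith
    have e3 : Real.sqrt (infDist p (insert g S)) ≤ Real.sqrt r / 2 := by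
      refine (Real.sqrt_le_sqrt e1).trans ?_
      rw [Real.sqrt_le_left (by positivity)]
      rw [div_pow, Real.sq_sqrt hr]
      linarith
    have e4 : Real.sqrt r * (5 / 6) ≤ Real.sqrt (infDist p S) := by
      refine le_trans ?_ (Real.sqrt_le_sqrt e2)
      apply Real.le_sqrt_of_sq_le
      rw [mul_pow, Real.sq_sqrt hr]
      linarith
    linarith
  have hint : ∀ a b : ℝ, IntervalIntegrable (fun p : ℝ => Real.sqrt (infDist p S) -
      Real.sqrt (infDist p (insert g S))) volume a b := fun a b => hc.intervalIntegrable a b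
  have hL : 0 ≤ L := by linarith
  have e5 : Gam S L - Gam (insert g S) L = ∫ p in (0 : ℝ)..L, (Real.sqrt (infDist p S) -
      Real.sqrt (infDist p (insert g S))) := by
    unfold Gam
    rw [intervalIntegral.integral_sub (int_dist _ _ _) (int_dist _ _ _)]
  have e6 : ∫ p in (g - r / 4)..(g + r / 4), (Real.sqrt (infDist p S) -
      Real.sqrt (infDist p (insert g S))) ≤ ∫ p in (0 : ℝ)..L, (Real.sqrt (infDist p S) -
      Real.sqrt (infDist p (insert g S))) := by
    apply intervalIntegral.integral_mono_interval h1 (by linarith) h2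
    · exact Filter.Eventually.of_forall (fun p => sub_nonneg.2 (hmono p))
    · exact hint _ _
  have e7 : ∫ _ in (g - r / 4)..(g + r / 4), Real.sqrt r / 3 ≤
      ∫ p in (g - r / 4)..(g + r / 4), (Real.sqrt (infDist p S) -
      Real.sqrt (infDist p (insert g S))) := by
    apply intervalIntegral.integral_mono_on (by linarith) (by simp) (hint _ _)
    exact key
  rw [intervalIntegral.integral_const, smul_eq_mul] at e7
  have e8 : (g + r / 4 - (g - r / 4)) * (Real.sqrt r / 3) = 1 / 6 * (r * Real.sqrt r) := by ring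
  rw [e8] at e7
  linarith

/-- one point -/
theorem Gam_one : Gam {1} 2 ≤ 4 / 3 := by
  have h1 : Gam {1} 2 = ∫ p in (0 : ℝ)..2, Real.sqrt |p - 1| := by
    unfold Gam
    congr 1
    funext p
    rw [infDist_singleton, Real.dist_eq]
  have hc : Continuous (fun p : ℝ => Real.sqrt |p - 1|) := by fun_prop
  have h2 : ∫ p in (0 : ℝ)..2, Real.sqrt |p - 1| = (∫ p in (0 : ℝ)..1, Real.sqrt |p - 1|) +
      ∫ p in (1 : ℝ)..2, Real.sqrt |p - 1| :=
    (intervalIntegral.integral_add_adjacent_intervals (hc.intervalIntegrable _ _)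
      (hc.intervalIntegrable _ _)).symm
  have h0 : ∫ p in (0 : ℝ)..1, Real.sqrt p = 2 / 3 := by
    have : ∫ p in (0 : ℝ)..1, Real.sqrt p = ∫ p in (0 : ℝ)..1, p ^ (1 / 2 : ℝ) := by
      congr 1
      funext p
      rw [Real.sqrt_eq_rpow]
    rw [this, integral_rpow (Or.inl (by norm_num))]
    norm_num
  have h3 : ∫ p in (1 : ℝ)..2, Real.sqrt |p - 1| = 2 / 3 := by
    have h := intervalIntegral.integral_comp_sub_right (a := 1) (b := 2)
      (fun p => Real.sqrt |p|) 1
    rw [h, show (1 : ℝ) - 1 = 0 by norm_num, show (2 : ℝ) - 1 = 1 by norm_num, ← h0]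
    apply intervalIntegral.integral_congr
    intro p hp
    rw [uIcc_of_le (by norm_num)] at hp
    simp only
    rw [abs_of_nonneg hp.1]
  have h4 : ∫ p in (0 : ℝ)..1, Real.sqrt |p - 1| = 2 / 3 := by
    have h := intervalIntegral.integral_comp_sub_left (a := 0) (b := 1)
      (fun p => Real.sqrt |p|) 1
    have e : ∫ p in (0 : ℝ)..1, Real.sqrt |p - 1| = ∫ p in (0 : ℝ)..1, Real.sqrt |1 - p| := by
      congr 1
      funext p
      rw [abs_sub_comm]
    rw [e, h, show (1 : ℝ) - 1 = 0 by norm_num, show (1 : ℝ) - 0 = 1 by norm_num, ← h0]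
    apply intervalIntegral.integral_congr
    intro p hp
    rw [uIcc_of_le (by norm_num)] at hp
    simp only
    rw [abs_of_nonneg hp.1]
  rw [h1, h2, h3, h4]
  norm_num

end Pool.Agent.N502.IO
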