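import Mathlib
import Pool.Agent.N502.IO.Two
import Pool.Agent.N502.IO.Gam

set_option autoImplicit false

/-!
# Series-parallel interval orders: the width of an unbalanced one is `O(1/f)`
-/

open Finset

namespace Pool.Agent.N502.IO

open Pool.Agent.TH447.KS (IsIntervalOrder)
open Pool.Agent.H931R3.Bal (avg pr LEn avg_lex_inl avg_lex_inr pr_lex_inl pr_lex_inr card_ne
  pr_disj_inl LEn_nonempty avg_iso pr_iso pr_add SeriesParallel card_lexS)
open Pool.Agent.H581.KS

/-- `x ^ (3/2)` -/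
noncomputable def r32 (x : ℝ) : ℝ := x * Real.sqrt x

/-- the constant in the bound for the width -/
noncomputable def EE0 (f : ℝ) : ℝ := 1 / (2 * f) + 3 / 2 + 48 / f

/-- the numerical part of the invariant -/
def IB (f m D b : ℝ) : Prop :=
  0 ≤ D ∧ D ≤ 8 / 3 * m ∧ ((f * m < 1 ∧ b ≤ (m + 1) / 2) ∨
    (1 ≤ f * m ∧ b ≤ EE0 f - 6 * (8 * m - D) / r32 (f * m)))

theorem r32_pos {x : ℝ} (h : 0 < x) : 0 < r32 x := mul_pos h (Real.sqrt_pos.2 h)

theorem r32_mul {x y : ℝ} (hx : 0 ≤ x) : r32 (x * y) = r32 x * r32 y := by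
  unfold r32
  rw [Real.sqrt_mul hx]
  ring

theorem ratio {m n D : ℝ} (hm : 0 < m) (hmn : m ≤ n) (hD0 : 0 ≤ D) (hD : D ≤ 8 / 3 * m) :
    (8 * n - D) / r32 n ≤ (8 * m - D) / r32 m := by
  rw [div_le_div_iff₀ (r32_pos (hm.trans_le hmn)) (r32_pos hm)]
  unfold r32
  obtain ⟨a, ha, ha0⟩ : ∃ a : ℝ, m = a ^ 2 ∧ 0 < a :=
    ⟨Real.sqrt m, (Real.sq_sqrt hm.le).symm, Real.sqrt_pos.2 hm⟩
  obtain ⟨b, hb, hb0⟩ : ∃ b : ℝ, n = b ^ 2 ∧ 0 < b :=
    ⟨Real.sqrt n, (Real.sq_sqrt (hm.le.trans hmn)).symm, Real.sqrt_pos.2 (hm.trans_le hmn)⟩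
  subst ha hb
  rw [Real.sqrt_sq ha0.le, Real.sqrt_sq hb0.le]
  have hab : a ≤ b := by
    by_contra hc
    push Not at hc
    nlinarith
  have h1 : a * b ≤ b ^ 2 := by nlinarith
  have h2 : a ^ 2 ≤ b ^ 2 := hmn
  have h3 : D * (b ^ 2 + a * b + a ^ 2) ≤ 8 * a ^ 2 * b ^ 2 := by
    calc D * (b ^ 2 + a * b + a ^ 2) ≤ (8 / 3 * a ^ 2) * (3 * b ^ 2) := by
          apply mul_le_mul hD (by linarith) (by positivity) (by positivity)
      _ = 8 * a ^ 2 * b ^ 2 := by ring
  have h4 := mul_le_mul_of_nonneg_right h3 (show 0 ≤ b - a by linarith)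
  nlinarith

theorem IB_step {f m n D D' b : ℝ} (hf : 0 < f) (hm : 0 < m) (hmn : m + 2 ≤ n)
    (h : IB f m D b) (hD' : D + 1 / 6 * r32 (f * n) ≤ D') (hD'' : D' ≤ 8 / 3 * n) :
    IB f n D' (b + 1) := by
  obtain ⟨h1, h2, h3⟩ := h
  have hn : 0 < n := by linarith
  have hfn : 0 < f * n := mul_pos hf hn
  have hr := r32_pos hfn
  have hD0 : 0 ≤ D' := by linarith
  refine ⟨hD0, hD'', ?_⟩
  rcases lt_or_ge (f * n) 1 with hn1 | hn1
  · left
    refine ⟨hn1, ?_⟩
    rcases h3 with ⟨_, h4⟩ | ⟨h4, _⟩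
    · linarith
    · exfalso
      have : f * m ≤ f * n := mul_le_mul_of_nonneg_left (by linarith) hf.le
      linarith
  · right
    refine ⟨hn1, ?_⟩
    rcases h3 with ⟨h4, h5⟩ | ⟨h4, h5⟩
    · have h6 : m < 1 / f := by
        rw [lt_div_iff₀ hf]; linarith
      have h7 : 6 * (8 * n - D') / r32 (f * n) ≤ 48 / f := by
        rw [div_le_div_iff₀ hr hf]
        have h8 : f * n ≤ r32 (f * n) := by
          unfold r32
          have : 1 ≤ Real.sqrt (f * n) := by
            rw [Real.one_le_sqrt]; exact hn1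
          nlinarith
        nlinarith
      unfold EE0
      have h9 : (m + 1) / 2 ≤ 1 / (2 * f) + 1 / 2 := by
        have : 1 / (2 * f) = 1 / f / 2 := by field_simp
        rw [this]
        linarith
      linarith
    · have h6 := ratio hm (show m ≤ n by linarith) h1 h2
      have hfm : 0 < f * m := mul_pos hf hm
      have e1 : 6 * (8 * n - D') / r32 (f * n) ≤ 6 * (8 * n - D) / r32 (f * n) - 1 := by
        rw [div_sub_one hr.ne', div_le_div_iff_of_pos_right hr]
        linarith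
      have e2 : 6 * (8 * n - D) / r32 (f * n) ≤ 6 * (8 * m - D) / r32 (f * m) := by
        rw [r32_mul hf.le, r32_mul hf.le]
        have hrf := r32_pos hf
        have k1 : 6 * (8 * n - D) / (r32 f * r32 n) = 6 / r32 f * ((8 * n - D) / r32 n) := by
          field_simp
        have k2 : 6 * (8 * m - D) / (r32 f * r32 m) = 6 / r32 f * ((8 * m - D) / r32 m) := by
          field_simp
        rw [k1, k2]
        exact mul_le_mul_of_nonneg_left h6 (by positivity)
      linarith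

theorem IB_end {f m D b : ℝ} (hf : 0 < f) (hm : 0 < m) (h : IB f m D b) : b ≤ EE0 f := by
  obtain ⟨h1, h2, h3⟩ := h
  have h48 : 0 < 48 / f := by positivity
  rcases h3 with ⟨h4, h5⟩ | ⟨h4, h5⟩
  · have h6 : m < 1 / f := by
      rw [lt_div_iff₀ hf]; linarith
    unfold EE0
    have h9 : (m + 1) / 2 ≤ 1 / (2 * f) + 1 / 2 := by
      have : 1 / (2 * f) = 1 / f / 2 := by field_simp
      rw [this]
      linarith
    linarith
  · have : 0 ≤ 6 * (8 * m - D) / r32 (f * m) := by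
      apply div_nonneg _ (r32_pos (mul_pos hf hm)).le
      linarith
    linarith

/-- the growth of the potential when an isolated element is added -/
theorem growth_num {n : ℝ} (hn : 2 ≤ n) :
    (n + 1) / n * Real.sqrt ((n + 1) / n) * (n - 2) ≤ n - 1 / 2 := by
  have hn0 : 0 < n := by linarith
  have hl : 0 ≤ (n + 1) / n := by positivity
  apply le_of_sq_le_sq _ (by linarith)
  have e : ((n + 1) / n * Real.sqrt ((n + 1) / n) * (n - 2)) ^ 2 =
      (n + 1) ^ 3 * (n - 2) ^ 2 / n ^ 3 := by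
    rw [mul_pow, mul_pow, Real.sq_sqrt hl]
    field_simp
  rw [e, div_le_iff₀ (by positivity)]
  nlinarith [mul_nonneg (sub_nonneg.2 hn) (sub_nonneg.2 hn), mul_nonneg (mul_nonneg
    (sub_nonneg.2 hn) (sub_nonneg.2 hn)) (sub_nonneg.2 hn), sq_nonneg (n ^ 2), sq_nonneg n]

end Pool.Agent.N502.IO
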