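import Mathlib
import Pool.Agent.N502.IO.NFree

set_option autoImplicit false

/-!
# The invariant for series-parallel interval orders
-/

open Finset

namespace Pool.Agent.N502.IO

open Pool.Agent.TH447.KS (IsIntervalOrder interval_22 lt')
open Pool.Agent.H931R3.Bal (avg pr LEn avg_lex_inl avg_lex_inr pr_lex_inl pr_lex_inr card_ne
  pr_disj_inl LEn_nonempty avg_iso pr_iso pr_add SeriesParallel)
open Pool.Agent.H581.KS

/-- all antichains have at most `b` elements -/
def Wd (R : Type) [PartialOrder R] (b : ℝ) : Prop :=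
  ∀ s : Finset R, IsAntichain (· ≤ ·) (s : Set R) → (s.card : ℝ) ≤ b

/-- a nonempty set of average heights -/
def HS (R : Type) [Fintype R] [PartialOrder R] (S : Set ℝ) : Prop :=
  S.Nonempty ∧ ∀ s ∈ S, ∃ x : R, ht R x = s

/-- `x` is incomparable to all other elements -/
def Iso {R : Type} [PartialOrder R] (x : R) : Prop := ∀ y, y ≠ x → ¬ x ≤ y ∧ ¬ y ≤ x

/-- the invariant for posets with an isolated element -/
def Bl (f : ℝ) (R : Type) [Fintype R] [PartialOrder R] : Prop :=
  ∃ (S : Set ℝ) (D b : ℝ), HS R S ∧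
    Gam S (Fintype.card R + 1) ≤ 8 / 3 * (Fintype.card R - 1 / 2) - D ∧
    IB f (Fintype.card R) D b ∧ Wd R b ∧ ∃ x : R, Iso x

/-- the invariant for ordinal sums -/
def Sm (f : ℝ) (R : Type) [Fintype R] [PartialOrder R] : Prop :=
  ∃ (S : Set ℝ) (D b : ℝ) (m : ℕ), HS R S ∧ 1 ≤ m ∧ m + 1 ≤ Fintype.card R ∧
    Gam S (Fintype.card R + 1) ≤ 8 / 3 * (Fintype.card R - 1) - D ∧
    IB f m D b ∧ Wd R b

/-- the common weak form -/
def Wk (f : ℝ) (R : Type) [Fintype R] [PartialOrder R] : Prop :=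
  ∃ (S : Set ℝ) (D b : ℝ) (m : ℕ), HS R S ∧ 1 ≤ m ∧ m ≤ Fintype.card R ∧
    Gam S (Fintype.card R + 1) ≤ 8 / 3 * (Fintype.card R - 1 / 2) - D ∧
    IB f m D b ∧ Wd R b

theorem Bl.wk {f : ℝ} {R : Type} [Fintype R] [PartialOrder R] (h : Bl f R) : Wk f R := by
  obtain ⟨S, D, b, h1, h2, h3, h4, x, _⟩ := h
  have : 0 < Fintype.card R := Fintype.card_pos_iff.2 ⟨x⟩
  exact ⟨S, D, b, Fintype.card R, h1, this, le_rfl, h2, h3, h4⟩

theorem Sm.wk {f : ℝ} {R : Type} [Fintype R] [PartialOrder R] (h : Sm f R) : Wk f R := by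
  obtain ⟨S, D, b, m, h1, h2, h3, h4, h5, h6⟩ := h
  exact ⟨S, D, b, m, h1, h2, by omega, by linarith, h5, h6⟩

section iso

variable {R Q : Type} [Fintype R] [Fintype Q] [PartialOrder R] [PartialOrder Q] (e : R ≃o Q)

include e

theorem ht_iso (x : R) : ht Q (e x) = ht R x := by
  unfold ht
  rw [Fintype.card_congr e.symm.toEquiv, avg_iso]

theorem HS_iso {S : Set ℝ} (h : HS Q S) : HS R S := by
  refine ⟨h.1, fun s hs => ?_⟩
  obtain ⟨x, hx⟩ := h.2 s hs
  exact ⟨e.symm x, by rw [← ht_iso e, e.apply_symm_apply, hx]⟩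

omit [Fintype R] [Fintype Q] in
theorem Wd_iso {b : ℝ} (h : Wd Q b) : Wd R b := by
  intro s hs
  have := h (s.map e.toEquiv.toEmbedding) (by
    intro x hx y hy hne hle
    rw [coe_map] at hx hy
    obtain ⟨p, hp, rfl⟩ := hx
    obtain ⟨q, hq, rfl⟩ := hy
    exact hs hp hq (fun h => hne (by rw [h])) (e.le_iff_le.1 hle))
  rwa [card_map] at this

theorem Bl_iso {f : ℝ} (h : Bl f Q) : Bl f R := by
  obtain ⟨S, D, b, h1, h2, h3, h4, x, hx⟩ := h
  have hc : Fintype.card R = Fintype.card Q := Fintype.card_congr e.toEquiv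
  refine ⟨S, D, b, HS_iso e h1, by rw [hc]; exact h2, by rw [hc]; exact h3, Wd_iso e h4,
    e.symm x, ?_⟩
  intro y hy
  have := hx (e y) (fun h => hy (by rw [← h, e.symm_apply_apply]))
  rw [e.symm_apply_le, e.le_symm_apply]
  exact this

theorem Sm_iso {f : ℝ} (h : Sm f Q) : Sm f R := by
  obtain ⟨S, D, b, m, h1, h2, h3, h4, h5, h6⟩ := h
  have hc : Fintype.card R = Fintype.card Q := Fintype.card_congr e.toEquiv
  exact ⟨S, D, b, m, HS_iso e h1, h2, by rw [hc]; exact h3, by rw [hc]; exact h4, h5,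
    Wd_iso e h6⟩

theorem Good_iso {f : ℝ} (h : Good R f) : Good Q f := by
  intro x y hxy hyx
  have hc : Fintype.card Q = Fintype.card R := Fintype.card_congr e.symm.toEquiv
  have := h (e.symm x) (e.symm y) (fun h => hxy (e.symm.le_iff_le.1 h))
    (fun h => hyx (e.symm.le_iff_le.1 h))
  rw [hc, ← e.apply_symm_apply x, ← e.apply_symm_apply y, pr_iso]
  exact this

end iso

theorem interval_emb {P R : Type} [PartialOrder P] [PartialOrder R] (e : P ↪o R)
    (h : IsIntervalOrder R) : IsIntervalOrder P := by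
  obtain ⟨l, u, h1, h2⟩ := h
  exact ⟨fun x => l (e x), fun x => u (e x), fun x => h1 _, fun x y => by
    rw [← e.lt_iff_lt]; exact h2 _ _⟩

section lex

variable {P Q : Type} [Fintype P] [Fintype Q] [PartialOrder P] [PartialOrder Q]

theorem card_lex' : Fintype.card (P ⊕ₗ Q) = Fintype.card P + Fintype.card Q := by
  rw [← Nat.card_eq_fintype_card, ← Nat.card_eq_fintype_card, ← Nat.card_eq_fintype_card]
  exact Nat.card_sum

theorem ht_lexL (x : P) : ht (P ⊕ₗ Q) (lexL P Q x) = ht P x := by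
  unfold ht
  rw [card_lex']
  exact avg_lex_inl rfl rfl x _

theorem ht_lexR (x : Q) : ht (P ⊕ₗ Q) (lexR P Q x) = ht Q x + Fintype.card P := by
  unfold ht
  rw [card_lex']
  refine (avg_lex_inr rfl rfl x _).trans ?_
  unfold avg
  have h4 : (Fintype.card (LEn Q (Fintype.card Q)) : ℝ) ≠ 0 := card_ne rfl
  have h5 : ∑ f : LEn Q (Fintype.card Q), (((Fintype.card P + ((f.1 x : Fin _) : ℕ) : ℕ) : ℝ) + 1) =
      ∑ f : LEn Q (Fintype.card Q), ((((f.1 x : Fin _) : ℕ) : ℝ) + 1) +
        (Fintype.card (LEn Q (Fintype.card Q)) : ℝ) * Fintype.card P := by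
    have : ∀ f : LEn Q (Fintype.card Q), (((Fintype.card P + ((f.1 x : Fin _) : ℕ) : ℕ) : ℝ) + 1) =
        ((((f.1 x : Fin _) : ℕ) : ℝ) + 1) + (Fintype.card P : ℝ) := by
      intro f; push_cast; ring
    rw [Finset.sum_congr rfl (fun f _ => this f), Finset.sum_add_distrib, Finset.sum_const,
      Finset.card_univ, nsmul_eq_mul]
  rw [h5]
  field_simp

theorem Good_lexL {f : ℝ} (h : Good (P ⊕ₗ Q) f) : Good P f := by
  intro x y hxy hyx
  have := h (lexL P Q x) (lexL P Q y) (fun h => hxy ((lexL P Q).le_iff_le.1 h))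
    (fun h => hyx ((lexL P Q).le_iff_le.1 h))
  rw [card_lex'] at this
  have e := pr_lex_inl (P := P) (Q := Q) rfl rfl x y
  change f ≤ |pr (P ⊕ₗ Q) _ (toLex (Sum.inl x)) (toLex (Sum.inl y)) - 1 / 2| at this
  rwa [e] at this

theorem Good_lexR {f : ℝ} (h : Good (P ⊕ₗ Q) f) : Good Q f := by
  intro x y hxy hyx
  have := h (lexR P Q x) (lexR P Q y) (fun h => hxy ((lexR P Q).le_iff_le.1 h))
    (fun h => hyx ((lexR P Q).le_iff_le.1 h))
  rw [card_lex'] at this
  have e := pr_lex_inr (P := P) (Q := Q) rfl rfl x y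
  change f ≤ |pr (P ⊕ₗ Q) _ (toLex (Sum.inr x)) (toLex (Sum.inr y)) - 1 / 2| at this
  rwa [e] at this

omit [Fintype P] [Fintype Q] in
theorem Wd_lex {b c : ℝ} (hP : Wd P b) (hQ : Wd Q c) : Wd (P ⊕ₗ Q) (max b c) := by
  classical
  intro s hs
  by_cases hc : ∃ p, lexL P Q p ∈ s
  · obtain ⟨p, hp⟩ := hc
    refine le_trans ?_ ((hP (s.preimage (lexL P Q) (lexL P Q).injective.injOn) ?_).trans
      (le_max_left _ _))
    · have h1 : s ⊆ (s.preimage (lexL P Q) (lexL P Q).injective.injOn).map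
          (lexL P Q).toEmbedding := by
        intro z hz
        rcases lex_cases z with ⟨x, rfl⟩ | ⟨q, rfl⟩
        · exact mem_map.2 ⟨x, mem_preimage.2 hz, rfl⟩
        · exact absurd (lexL_lt_lexR p q).le (hs hp hz (lexL_lt_lexR p q).ne)
      have h2 := card_le_card h1
      rw [card_map] at h2
      exact_mod_cast h2
    · intro x hx y hy hne hle
      rw [mem_coe, mem_preimage] at hx hy
      exact hs hx hy (fun h => hne ((lexL P Q).injective h)) ((lexL P Q).le_iff_le.2 hle)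
  · push Not at hc
    refine le_trans ?_ ((hQ (s.preimage (lexR P Q) (lexR P Q).injective.injOn) ?_).trans
      (le_max_right _ _))
    · have h1 : s ⊆ (s.preimage (lexR P Q) (lexR P Q).injective.injOn).map
          (lexR P Q).toEmbedding := by
        intro z hz
        rcases lex_cases z with ⟨x, rfl⟩ | ⟨q, rfl⟩
        · exact absurd hz (hc x)
        · exact mem_map.2 ⟨q, mem_preimage.2 hz, rfl⟩
      have h2 := card_le_card h1
      rw [card_map] at h2
      exact_mod_cast h2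
    · intro x hx y hy hne hle
      rw [mem_coe, mem_preimage] at hx hy
      exact hs hx hy (fun h => hne ((lexR P Q).injective h)) ((lexR P Q).le_iff_le.2 hle)

theorem Sm_lex {f : ℝ} (hP : Wk f P) (hQ : Wk f Q) : Sm f (P ⊕ₗ Q) := by
  obtain ⟨S, D, b, m, h1, h2, h3, h4, h5, h6⟩ := hP
  obtain ⟨T, D', b', m', h1', h2', h3', h4', h5', h6'⟩ := hQ
  have hG : Gam (S ∪ (fun x => x + (Fintype.card P : ℝ)) '' T) (Fintype.card (P ⊕ₗ Q) + 1) ≤
      8 / 3 * (Fintype.card (P ⊕ₗ Q) - 1) - D - D' := by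
    rw [card_lex']
    push_cast
    refine (Gam_union h1.1 h1'.1 (Nat.cast_nonneg _) (Nat.cast_nonneg _)).trans ?_
    linarith
  have hHS : HS (P ⊕ₗ Q) (S ∪ (fun x => x + (Fintype.card P : ℝ)) '' T) := by
    refine ⟨h1.1.inl, ?_⟩
    rintro s (hs | ⟨t, ht', rfl⟩)
    · obtain ⟨x, rfl⟩ := h1.2 s hs
      exact ⟨lexL P Q x, ht_lexL x⟩
    · obtain ⟨x, rfl⟩ := h1'.2 t ht'
      exact ⟨lexR P Q x, ht_lexR x⟩
  have hW := Wd_lex h6 h6'
  have hD := h5.1
  have hD' := h5'.1
  rcases le_total b' b with hbb | hbb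
  · rw [max_eq_left hbb] at hW
    refine ⟨_, D, b, m, hHS, h2, ?_, by linarith, h5, hW⟩
    rw [card_lex']
    omega
  · rw [max_eq_right hbb] at hW
    refine ⟨_, D', b', m', hHS, h2', ?_, by linarith, h5', hW⟩
    rw [card_lex']
    omega

end lex

section pt

variable {P : Type} [Fintype P] [PartialOrder P]

theorem card_pt' : Fintype.card (P ⊕ Fin 1) = Fintype.card P + 1 := by simp

theorem ht_ptL (x : P) : ht (P ⊕ Fin 1) (Sum.inl x) =
    ((Fintype.card P : ℝ) + 2) / (Fintype.card P + 1) * ht P x := by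
  unfold ht
  rw [card_pt', avg_pt_inl rfl]
  ring

theorem ht_ptR (x : Fin 1) : ht (P ⊕ Fin 1) (Sum.inr x) = ((Fintype.card P : ℝ) + 2) / 2 := by
  unfold ht
  rw [card_pt', avg_pt_inr rfl]

theorem Good_ptL {f : ℝ} (h : Good (P ⊕ Fin 1) f) : Good P f := by
  intro x y hxy hyx
  have := h (Sum.inl x) (Sum.inl y) (fun h => hxy (Sum.inl_le_inl_iff.1 h))
    (fun h => hyx (Sum.inl_le_inl_iff.1 h))
  rw [card_pt', pr_disj_inl rfl (by simp)] at this
  exact this

theorem Good_ptR {f : ℝ} (h : Good (P ⊕ Fin 1) f) (x : P) :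
    f * (Fintype.card P + 1) ≤ |ht P x - (Fintype.card P + 1) / 2| := by
  have h1 := h (Sum.inl x) (Sum.inr 0) (Sum.not_inl_le_inr) (Sum.not_inr_le_inl)
  rw [card_pt', pr_pt_inl_inr rfl] at h1
  have hpos : (0 : ℝ) < (Fintype.card P : ℝ) + 1 := by positivity
  have e : ht P x - (Fintype.card P + 1) / 2 =
      - ((1 - avg P (Fintype.card P) x (fun i => (i : ℝ) + 1) / (Fintype.card P + 1) - 1 / 2) *
        (Fintype.card P + 1)) := by
    unfold ht
    field_simp
    ring
  rw [e, abs_neg, abs_mul, abs_of_pos hpos]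
  exact mul_le_mul_of_nonneg_right h1 hpos.le

omit [Fintype P] in
theorem Wd_pt {b : ℝ} (hP : Wd P b) : Wd (P ⊕ Fin 1) (b + 1) := by
  classical
  intro s hs
  have h0 := hP (s.preimage (ptL P) (ptL P).injective.injOn) (by
    intro x hx y hy hne hle
    rw [mem_coe, mem_preimage] at hx hy
    exact hs hx hy (fun h => hne ((ptL P).injective h)) ((ptL P).le_iff_le.2 hle))
  have h1 : s ⊆ (s.preimage (ptL P) (ptL P).injective.injOn).map
      (ptL P).toEmbedding ∪ {Sum.inr 0} := by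
    intro z hz
    rw [mem_union]
    rcases z with x | q
    · exact Or.inl (mem_map.2 ⟨x, mem_preimage.2 hz, rfl⟩)
    · right
      rw [mem_singleton, Subsingleton.elim q 0]
  have h2 := (card_le_card h1).trans (card_union_le _ _)
  rw [card_map, card_singleton] at h2
  have h3 : (s.card : ℝ) ≤
      ((s.preimage (ptL P) (ptL P).injective.injOn).card : ℝ) + 1 := by exact_mod_cast h2
  linarith

theorem Bl_pt {f : ℝ} (hf : 0 < f) (hf2 : f ≤ 1 / 2) (hP : Sm f P) (hg : Good (P ⊕ Fin 1) f) :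
    Bl f (P ⊕ Fin 1) := by
  obtain ⟨S, D, b, m, h1, h2, h3, h4, h5, h6⟩ := hP
  obtain ⟨n, hn⟩ : ∃ n : ℝ, n = (Fintype.card P : ℝ) + 1 := ⟨_, rfl⟩
  have hc : (Fintype.card (P ⊕ Fin 1) : ℝ) = n := by rw [card_pt', hn]; push_cast; ring
  have hm1 : (1 : ℝ) ≤ m := by exact_mod_cast h2
  have hm2 : (m : ℝ) + 2 ≤ n := by
    have : (m : ℝ) + 1 ≤ Fintype.card P := by exact_mod_cast h3
    linarith
  have hn0 : 0 < n := by linarith
  set l := (n + 1) / n with hl
  have hl0 : 0 < l := by positivity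
  have hl1 : 1 ≤ l := by
    rw [hl, one_le_div hn0]; linarith
  have hln : l * n = n + 1 := by rw [hl]; field_simp
  have hcP : (Fintype.card P : ℝ) = n - 1 := by linarith
  rw [hcP] at h4
  set S' := insert ((n + 1) / 2) ((fun x => l * x) '' S) with hS'
  have hG1 : Gam ((fun x => l * x) '' S) (n + 1) = l * Real.sqrt l * Gam S n := by
    rw [← hln, Gam_scale S hl0]
  have hsep : ∀ s ∈ (fun x => l * x) '' S, f * n ≤ |(n + 1) / 2 - s| := by
    rintro s ⟨t, ht', rfl⟩
    obtain ⟨x, rfl⟩ := h1.2 t ht'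
    have h7 := Good_ptR hg x
    rw [← hn] at h7
    have e : (n + 1) / 2 - l * ht P x = l * (n / 2 - ht P x) := by rw [← hln]; ring
    simp only
    rw [e, abs_mul, abs_of_pos hl0, abs_sub_comm]
    have : 0 ≤ |ht P x - n / 2| := abs_nonneg _
    nlinarith
  have hfn : 0 ≤ f * n := by positivity
  have hfn2 : f * n ≤ n / 2 := by nlinarith
  have hG2 := Gam_insert (h1.1.image _) hfn hsep (L := n + 1) (by linarith) (by linarith)
  have hsl : 1 ≤ Real.sqrt l := by rw [Real.one_le_sqrt]; exact hl1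
  have hll : 1 ≤ l * Real.sqrt l := by nlinarith
  have hG3 : Gam S' (n + 1) ≤ 8 / 3 * (n - 1 / 2) - (D + 1 / 6 * r32 (f * n)) := by
    have e0 : n - 1 + 1 = n := by ring
    rw [e0] at h4
    have e1 : l * Real.sqrt l * Gam S n ≤ l * Real.sqrt l * (8 / 3 * (n - 2) - D) := by
      apply mul_le_mul_of_nonneg_left _ (by linarith)
      linarith
    have e2 := growth_num (show 2 ≤ n by linarith)
    rw [← hl] at e2
    have e3 : D ≤ l * Real.sqrt l * D := by nlinarith [h5.1]
    unfold r32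
    rw [hG1] at hG2
    nlinarith
  refine ⟨S', D + 1 / 6 * r32 (f * n), b + 1, ⟨⟨_, Set.mem_insert _ _⟩, ?_⟩, ?_, ?_, Wd_pt h6,
    Sum.inr 0, ?_⟩
  · intro s hs
    rw [hS', Set.mem_insert_iff] at hs
    rcases hs with rfl | ⟨t, ht', rfl⟩
    · refine ⟨Sum.inr 0, ?_⟩
      rw [ht_ptR, hn]
      ring
    · obtain ⟨x, rfl⟩ := h1.2 t ht'
      refine ⟨Sum.inl x, ?_⟩
      rw [ht_ptL, hl, hn]
      ring
  · rw [hc]
    exact hG3
  · rw [hc]
    have hG0 := Gam_nonneg S' (show 0 ≤ n + 1 by linarith)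
    exact IB_step hf (by linarith) hm2 h5 le_rfl (by linarith)
  · intro y hy
    rcases y with x | q
    · exact ⟨Sum.not_inr_le_inl, Sum.not_inl_le_inr⟩
    · exact absurd (by rw [Subsingleton.elim q 0]) hy

end pt

/-- two isolated elements are balanced -/
theorem twins_bad {f : ℝ} (hf : 0 < f) {R : Type} [Fintype R] [PartialOrder R] {x y : R}
    (hxy : x ≠ y) (hx : Iso x) (hy : Iso y) (h : Good R f) : False := by
  classical
  have hle : ∀ a b : R, a ≤ b → Equiv.swap x y a ≤ Equiv.swap x y b := by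
    intro a b hab
    by_cases ha : a = b
    · rw [ha]
    · have h1 : a ≠ x := fun h => (hx b (fun h' => ha (h.trans h'.symm))).1 (h ▸ hab)
      have h2 : b ≠ x := fun h => (hx a h1).2 (h ▸ hab)
      have h3 : a ≠ y := fun h => (hy b (fun h' => ha (h.trans h'.symm))).1 (h ▸ hab)
      have h4 : b ≠ y := fun h => (hy a h3).2 (h ▸ hab)
      rwa [Equiv.swap_apply_of_ne_of_ne h1 h3, Equiv.swap_apply_of_ne_of_ne h2 h4]
  let e : R ≃o R :=
    { toEquiv := Equiv.swap x y
      map_rel_iff' := by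
        intro a b
        refine ⟨fun h => ?_, hle a b⟩
        have := hle _ _ h
        rwa [Equiv.swap_apply_self, Equiv.swap_apply_self] at this }
  have h1 : pr R (Fintype.card R) y x = pr R (Fintype.card R) x y := by
    have := pr_iso e (Fintype.card R) x y
    have ex : e x = y := Equiv.swap_apply_left x y
    have ey : e y = x := Equiv.swap_apply_right x y
    rwa [ex, ey] at this
  have h2 := pr_add (P := R) rfl hxy
  have h3 := h x y (hx y (Ne.symm hxy)).1 (hx y (Ne.symm hxy)).2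
  have h4 : pr R (Fintype.card R) x y - 1 / 2 = 0 := by linarith
  rw [h4, abs_zero] at h3
  linarith

theorem Bl_one {f : ℝ} (hf : 0 < f) (hf2 : f ≤ 1 / 2) : Bl f (Fin 1) := by
  refine ⟨{1}, 0, 1, ⟨⟨1, rfl⟩, ?_⟩, ?_, ?_, ?_, 0, ?_⟩
  · intro s hs
    rw [Set.mem_singleton_iff] at hs
    subst hs
    refine ⟨0, ?_⟩
    unfold ht avg
    have hz : ∀ f : LEn (Fin 1) (Fintype.card (Fin 1)), (((f.1 0 : Fin _) : ℕ) : ℝ) + 1 = 1 := by
      intro f
      have : ((f.1 0 : Fin _) : ℕ) = 0 := by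
        have := (f.1 0).2
        simp only [Fintype.card_fin] at this
        omega
      rw [this]; norm_num
    rw [sum_congr rfl (fun f _ => hz f), sum_const, card_univ, nsmul_eq_mul, mul_one]
    exact div_self (card_ne rfl)
  · have e : ((Fintype.card (Fin 1) : ℕ) : ℝ) + 1 = 2 := by simp; norm_num
    rw [e]
    refine Gam_one.trans ?_
    simp
    norm_num
  · refine ⟨le_rfl, by simp; positivity, Or.inl ⟨?_, ?_⟩⟩
    · simp; linarith
    · simp
  · intro s _
    have := card_le_univ s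
    rw [Fintype.card_fin] at this
    exact_mod_cast this
  · intro y hy
    exact absurd (Subsingleton.elim y 0) hy

theorem step_pt {f : ℝ} (hf : 0 < f) (hf2 : f ≤ 1 / 2) {P : Type} [Fintype P] [PartialOrder P]
    (h : Bl f P ∨ Sm f P) (hg : Good (P ⊕ Fin 1) f) : Bl f (P ⊕ Fin 1) := by
  rcases h with h | h
  · obtain ⟨S, D, b, -, -, -, -, x, hx⟩ := h
    exfalso
    refine twins_bad hf (x := Sum.inl x) (y := Sum.inr 0) (by simp) ?_ ?_ hg
    · intro y hy
      rcases y with z | q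
      · have := hx z (fun h => hy (by rw [h]))
        exact ⟨fun h => this.1 (Sum.inl_le_inl_iff.1 h), fun h => this.2 (Sum.inl_le_inl_iff.1 h)⟩
      · exact ⟨Sum.not_inl_le_inr, Sum.not_inr_le_inl⟩
    · intro y hy
      rcases y with z | q
      · exact ⟨Sum.not_inr_le_inl, Sum.not_inl_le_inr⟩
      · exact absurd (by rw [Subsingleton.elim q 0]) hy
  · exact Bl_pt hf hf2 h hg

/-- one of the two parts of an unbalanced disjoint sum which is an interval order has one element -/
theorem part_one {f : ℝ} (hf : 0 < f) {P Q : Type} [Fintype P] [Fintype Q] [PartialOrder P]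
    [PartialOrder Q] (hI : IsIntervalOrder (P ⊕ Q)) (hg : Good (P ⊕ Q) f)
    (hQ : Nonempty Q) (hP : Nonempty P) :
    Nonempty (Q ≃o Fin 1) ∨ Nonempty (P ≃o Fin 1) := by
  have key : (∀ q q' : Q, ¬ q < q') ∨ (∀ p p' : P, ¬ p < p') := by
    by_contra hc
    push Not at hc
    obtain ⟨⟨q, q', hq⟩, p, p', hp⟩ := hc
    rcases interval_22 hI (Sum.inl p) (Sum.inl p') (Sum.inr q) (Sum.inr q')
      (Sum.inl_lt_inl_iff.2 hp) (Sum.inr_lt_inr_iff.2 hq) with h | h
    · exact Sum.not_inl_lt_inr h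
    · exact Sum.not_inr_lt_inl h
  rcases key with h | h
  · left
    have hs : Subsingleton Q := by
      refine ⟨fun a b => ?_⟩
      by_contra hab
      refine twins_bad hf (x := (Sum.inr a : P ⊕ Q)) (y := Sum.inr b) (by simpa using hab) ?_ ?_ hg
      · intro y hy
        rcases y with z | q
        · exact ⟨Sum.not_inr_le_inl, Sum.not_inl_le_inr⟩
        · have hne : q ≠ a := fun h => hy (by rw [h])
          exact ⟨fun h' => h a q (lt_of_le_of_ne (Sum.inr_le_inr_iff.1 h') (Ne.symm hne)),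
            fun h' => h q a (lt_of_le_of_ne (Sum.inr_le_inr_iff.1 h') hne)⟩
      · intro y hy
        rcases y with z | q
        · exact ⟨Sum.not_inr_le_inl, Sum.not_inl_le_inr⟩
        · have hne : q ≠ b := fun h => hy (by rw [h])
          exact ⟨fun h' => h b q (lt_of_le_of_ne (Sum.inr_le_inr_iff.1 h') (Ne.symm hne)),
            fun h' => h q b (lt_of_le_of_ne (Sum.inr_le_inr_iff.1 h') hne)⟩
    obtain ⟨q0⟩ := hQ
    exact ⟨{ toFun := fun _ => 0, invFun := fun _ => q0, left_inv := fun x => Subsingleton.elim _ _,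
             right_inv := fun x => Subsingleton.elim _ _,
             map_rel_iff' := by
              intro a b
              exact ⟨fun _ => le_of_eq (Subsingleton.elim a b), fun _ => le_refl _⟩ }⟩
  · right
    have hs : Subsingleton P := by
      refine ⟨fun a b => ?_⟩
      by_contra hab
      refine twins_bad hf (x := (Sum.inl a : P ⊕ Q)) (y := Sum.inl b) (by simpa using hab) ?_ ?_ hg
      · intro y hy
        rcases y with z | q
        · have hne : z ≠ a := fun h => hy (by rw [h])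
          exact ⟨fun h' => h a z (lt_of_le_of_ne (Sum.inl_le_inl_iff.1 h') (Ne.symm hne)),
            fun h' => h z a (lt_of_le_of_ne (Sum.inl_le_inl_iff.1 h') hne)⟩
        · exact ⟨Sum.not_inl_le_inr, Sum.not_inr_le_inl⟩
      · intro y hy
        rcases y with z | q
        · have hne : z ≠ b := fun h => hy (by rw [h])
          exact ⟨fun h' => h b z (lt_of_le_of_ne (Sum.inl_le_inl_iff.1 h') (Ne.symm hne)),
            fun h' => h z b (lt_of_le_of_ne (Sum.inl_le_inl_iff.1 h') hne)⟩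
        · exact ⟨Sum.not_inl_le_inr, Sum.not_inr_le_inl⟩
    obtain ⟨q0⟩ := hP
    exact ⟨{ toFun := fun _ => 0, invFun := fun _ => q0, left_inv := fun x => Subsingleton.elim _ _,
             right_inv := fun x => Subsingleton.elim _ _,
             map_rel_iff' := by
              intro a b
              exact ⟨fun _ => le_of_eq (Subsingleton.elim a b), fun _ => le_refl _⟩ }⟩

end Pool.Agent.N502.IO
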