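import Mathlib
import Pool.Agent.N502.IO.Inv
import Pool.Agent.H931R3.Bal15

set_option autoImplicit false

/-!
# Series-parallel interval orders of width `w` have balance constant at least `1/2 - 100/w`
-/

open Finset

namespace Pool.Agent.N502.IO

open Pool.Agent.TH447.KS (IsIntervalOrder)
open Pool.Agent.H931R3.Bal (pr SeriesParallel SeriesParallel.nonempty balance_nonneg prob_eq pr_add
  le_balance)
open Pool.Agent.H13R3.WB (balance prob)
open Pool.Agent.H581.KS (Good)

theorem sp_inv {f : ℝ} (hf : 0 < f) (hf2 : f ≤ 1 / 2) {R : Type} [PartialOrder R]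
    (h : SeriesParallel R) : ∀ [Fintype R], IsIntervalOrder R → Good R f → Bl f R ∨ Sm f R := by
  induction h with
  | one P e =>
    intro _ _ _
    obtain ⟨e⟩ := e
    exact Or.inl (Bl_iso e (Bl_one hf hf2))
  | disj P Q R hP hQ e ihP ihQ =>
    intro hR hI hg
    obtain ⟨e⟩ := e
    have hfin : Finite (P ⊕ Q) := Finite.of_equiv R e.toEquiv
    have hfP : Finite P := Finite.of_injective (Sum.inl : P → P ⊕ Q) Sum.inl_injective
    have hfQ : Finite Q := Finite.of_injective (Sum.inr : Q → P ⊕ Q) Sum.inr_injective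
    let _ : Fintype P := Fintype.ofFinite P
    let _ : Fintype Q := Fintype.ofFinite Q
    have hg' : Good (P ⊕ Q) f := Good_iso e hg
    have hI' : IsIntervalOrder (P ⊕ Q) := interval_emb e.symm.toOrderEmbedding hI
    rcases part_one hf hI' hg' hQ.nonempty hP.nonempty with ⟨⟨e1⟩⟩ | ⟨⟨e1⟩⟩
    · have e2 : R ≃o (P ⊕ Fin 1) := e.trans (OrderIso.sumCongr (OrderIso.refl P) e1)
      have hg2 := Good_iso e2 hg
      have hI2 : IsIntervalOrder (P ⊕ Fin 1) := interval_emb e2.symm.toOrderEmbedding hI
      exact Or.inl (Bl_iso e2 (step_pt hf hf2 (ihP (interval_emb (ptL P) hI2) (Good_ptL hg2)) hg2))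
    · have e2 : R ≃o (Q ⊕ Fin 1) := (e.trans (OrderIso.sumComm P Q)).trans
        (OrderIso.sumCongr (OrderIso.refl Q) e1)
      have hg2 := Good_iso e2 hg
      have hI2 : IsIntervalOrder (Q ⊕ Fin 1) := interval_emb e2.symm.toOrderEmbedding hI
      exact Or.inl (Bl_iso e2 (step_pt hf hf2 (ihQ (interval_emb (ptL Q) hI2) (Good_ptL hg2)) hg2))
  | direct P Q R hP hQ e ihP ihQ =>
    intro hR hI hg
    obtain ⟨e⟩ := e
    have hfin : Finite (P ⊕ₗ Q) := Finite.of_equiv R e.toEquiv
    have hfP : Finite P := Finite.of_injective (lexL P Q) (lexL P Q).injective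
    have hfQ : Finite Q := Finite.of_injective (lexR P Q) (lexR P Q).injective
    let _ : Fintype P := Fintype.ofFinite P
    let _ : Fintype Q := Fintype.ofFinite Q
    have hg' : Good (P ⊕ₗ Q) f := Good_iso e hg
    have hI' : IsIntervalOrder (P ⊕ₗ Q) := interval_emb e.symm.toOrderEmbedding hI
    have h1 : Wk f P := by
      rcases ihP (interval_emb (lexL P Q) hI') (Good_lexL hg') with h | h
      · exact h.wk
      · exact h.wk
    have h2 : Wk f Q := by
      rcases ihQ (interval_emb (lexR P Q) hI') (Good_lexR hg') with h | h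
      · exact h.wk
      · exact h.wk
    exact Or.inr (Sm_iso e (Sm_lex h1 h2))

/-- unbalanced series-parallel interval orders have width at most `1 / (2 f) + 3 / 2 + 48 / f` -/
theorem sp_width_le {f : ℝ} (hf : 0 < f) (hf2 : f ≤ 1 / 2) (P : Type) [Fintype P] [PartialOrder P]
    (h : SeriesParallel P) (hI : IsIntervalOrder P) (hg : Good P f) : Wd P (EE0 f) := by
  have hw : Wk f P := by
    rcases sp_inv hf hf2 h hI hg with h | h
    · exact h.wk
    · exact h.wk
  obtain ⟨S, D, b, m, -, h1, -, -, h2, h3⟩ := hw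
  have hm : (0 : ℝ) < m := by
    have : (1 : ℝ) ≤ m := by exact_mod_cast h1
    linarith
  exact fun s hs => (h3 s hs).trans (IB_end hf hm h2)

theorem good_of_balance {P : Type} [Fintype P] [PartialOrder P] {f : ℝ}
    (h : balance P < 1 / 2 - f) : Good P f := by
  intro x y hxy hyx
  have hne : x ≠ y := fun h => hxy (le_of_eq h)
  have h1 := le_balance x y
  rw [prob_eq rfl, prob_eq rfl] at h1
  have h2 := pr_add (P := P) rfl hne
  rcases min_le_iff.1 h1 with h3 | h3
  · rw [abs_sub_comm]
    exact le_trans (by linarith) (le_abs_self _)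
  · exact le_trans (by linarith) (le_abs_self _)

theorem sp_balance (P : Type) [Fintype P] [PartialOrder P] (h : SeriesParallel P)
    (hI : IsIntervalOrder P) {w : ℕ} (hw : 1 ≤ w) (A : Finset P)
    (hA : IsAntichain (· ≤ ·) (A : Set P)) (hAw : A.card = w) :
    1 / 2 - 100 / (w : ℝ) ≤ balance P := by
  have hwR : (1 : ℝ) ≤ w := by exact_mod_cast hw
  have hne := h.nonempty
  by_contra hc
  push Not at hc
  have hb := balance_nonneg (P := P)
  have hf2 : 100 / (w : ℝ) < 1 / 2 := by linarith
  have hf : (0 : ℝ) < 100 / w := by positivity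
  have h1 := sp_width_le hf hf2.le P h hI (good_of_balance hc) A hA
  rw [hAw] at h1
  have h200 : (200 : ℝ) < w := by
    rw [div_lt_iff₀ (by linarith)] at hf2
    linarith
  have e : EE0 (100 / (w : ℝ)) = w / 200 + 3 / 2 + 48 * w / 100 := by
    unfold EE0
    field_simp
    ring
  rw [e] at h1
  linarith

end Pool.Agent.N502.IO
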