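import Mathlib
import Pool.Agent.N502.IO.SP

set_option autoImplicit false

/-!
# Posets generated by small posets, ordinal sums and isolated elements
-/

open Finset

namespace Pool.Agent.N502.IO

open Pool.Agent.TH447.KS (IsIntervalOrder)
open Pool.Agent.H931R3.Bal (avg pr LEn SeriesParallel SeriesParallel.nonempty balance_nonneg
  prob_eq pr_add le_balance)
open Pool.Agent.H13R3.WB (balance prob)
open Pool.Agent.H581.KS (Good ht)

/-- the posets obtained from nonempty posets with at most `m` elements by ordinal sums and by adding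
isolated elements -/
inductive Gen (m : ℕ) : (P : Type) → [PartialOrder P] → Prop
  | base (P : Type) [PartialOrder P] : Finite P → Nonempty P → Nat.card P ≤ m → Gen m P
  | ordinal (P Q R : Type) [PartialOrder P] [PartialOrder Q] [PartialOrder R] :
      Gen m P → Gen m Q → Nonempty (R ≃o (P ⊕ₗ Q)) → Gen m R
  | isolated (P R : Type) [PartialOrder P] [PartialOrder R] :
      Gen m P → Nonempty (R ≃o (P ⊕ Fin 1)) → Gen m R

/-- the constant in the bound for the width -/
noncomputable def EG (C M f : ℝ) : ℝ := M + 1 / (2 * f) + 1 + 18 * C / f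

/-- the numerical part of the invariant -/
def IC (C M f m D b : ℝ) : Prop :=
  0 ≤ D ∧ D ≤ C * m ∧ ((f * m < 1 ∧ b ≤ M + m / 2) ∨
    (1 ≤ f * m ∧ b ≤ EG C M f - 6 * (3 * C * m - D) / r32 (f * m)))

theorem ratioC {C m n D : ℝ} (hm : 0 < m) (hmn : m ≤ n) (hD0 : 0 ≤ D) (hD : D ≤ C * m) :
    (3 * C * n - D) / r32 n ≤ (3 * C * m - D) / r32 m := by
  rcases (mul_nonneg_iff_of_pos_right hm).1 (hD0.trans hD) |>.eq_or_lt with hC | hC
  · have : D = 0 := by rw [← hC] at hD; linarith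
    rw [← hC, this]
    simp
  · have h := ratio (D := 8 / (3 * C) * D) hm hmn (by positivity) (by
      have : 8 / (3 * C) * D ≤ 8 / (3 * C) * (C * m) := mul_le_mul_of_nonneg_left hD (by positivity)
      refine this.trans (le_of_eq ?_)
      field_simp)
    have e : ∀ x : ℝ, (3 * C * x - D) / r32 x = 3 * C / 8 * ((8 * x - 8 / (3 * C) * D) / r32 x) := by
      intro x
      rw [← mul_div_assoc]
      congr 1
      field_simp
    rw [e n, e m]
    exact mul_le_mul_of_nonneg_left h (by positivity)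

theorem large_num {C n f D : ℝ} (hC : 0 ≤ C) (hf : 0 < f) (hD0 : 0 ≤ D)
    (h1 : 1 ≤ f * n) : 6 * (3 * C * n - D) / r32 (f * n) ≤ 18 * C / f := by
  have hfn : 0 < f * n := by linarith
  have hr := r32_pos hfn
  rw [div_le_div_iff₀ hr hf]
  have h8 : f * n ≤ r32 (f * n) := by
    unfold r32
    have : 1 ≤ Real.sqrt (f * n) := by
      rw [Real.one_le_sqrt]; exact h1
    nlinarith
  have h9 : C * (f * n) ≤ C * r32 (f * n) := mul_le_mul_of_nonneg_left h8 hC
  nlinarith [mul_nonneg hD0 hf.le]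

theorem IC_step {C M f m n D D' b : ℝ} (hC : 0 ≤ C) (hf : 0 < f) (hm : 0 < m) (hmn : m + 2 ≤ n)
    (h : IC C M f m D b) (hD' : D + 1 / 6 * r32 (f * n) ≤ D') (hD'' : D' ≤ C * n) :
    IC C M f n D' (b + 1) := by
  obtain ⟨h1, h2, h3⟩ := h
  have hn : 0 < n := by linarith
  have hfn : 0 < f * n := mul_pos hf hn
  have hr := r32_pos hfn
  have hD0 : 0 ≤ D' := by linarith
  refine ⟨hD0, hD'', ?_⟩
  rcases lt_or_ge (f * n) 1 with hn1 | hn1
  · left
    refine ⟨hn1, ?_⟩
    rcases h3 with ⟨_, h4⟩ | ⟨h4, _⟩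
    · linarith
    · exfalso
      have : f * m ≤ f * n := mul_le_mul_of_nonneg_left (by linarith) hf.le
      linarith
  · right
    refine ⟨hn1, ?_⟩
    rcases h3 with ⟨h4, h5⟩ | ⟨h4, h5⟩
    · have h6 : m < 1 / f := by
        rw [lt_div_iff₀ hf]; linarith
      have h7 := large_num hC hf hD0 hn1
      unfold EG
      have : 1 / (2 * f) = 1 / f / 2 := by field_simp
      rw [this]
      linarith
    · have h6 := ratioC hm (show m ≤ n by linarith) h1 h2
      have e1 : 6 * (3 * C * n - D') / r32 (f * n) ≤ 6 * (3 * C * n - D) / r32 (f * n) - 1 := by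
        rw [div_sub_one hr.ne', div_le_div_iff_of_pos_right hr]
        linarith
      have e2 : 6 * (3 * C * n - D) / r32 (f * n) ≤ 6 * (3 * C * m - D) / r32 (f * m) := by
        rw [r32_mul hf.le, r32_mul hf.le]
        have hrf := r32_pos hf
        have hrn := r32_pos hn
        have hrm := r32_pos hm
        have k1 : 6 * (3 * C * n - D) / (r32 f * r32 n) =
            6 / r32 f * ((3 * C * n - D) / r32 n) := by
          field_simp
        have k2 : 6 * (3 * C * m - D) / (r32 f * r32 m) =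
            6 / r32 f * ((3 * C * m - D) / r32 m) := by
          field_simp
        rw [k1, k2]
        exact mul_le_mul_of_nonneg_left h6 (by positivity)
      linarith

theorem IC_end {C M f m D b : ℝ} (hC : 0 ≤ C) (hf : 0 < f) (hm : 0 < m) (h : IC C M f m D b) :
    b ≤ EG C M f := by
  obtain ⟨h1, h2, h3⟩ := h
  have h48 : 0 ≤ 18 * C / f := by positivity
  rcases h3 with ⟨h4, h5⟩ | ⟨h4, h5⟩
  · have h6 : m < 1 / f := by
      rw [lt_div_iff₀ hf]; linarith
    unfold EG
    have : 1 / (2 * f) = 1 / f / 2 := by field_simp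
    rw [this]
    linarith
  · have : 0 ≤ 6 * (3 * C * m - D) / r32 (f * m) := by
      apply div_nonneg _ (r32_pos (mul_pos hf hm)).le
      have : 0 ≤ C * m := by positivity
      linarith
    linarith

/-- start of the invariant -/
theorem IC_zero {C M f n b : ℝ} (hC : 0 ≤ C) (hf : 0 < f) (hn : 1 ≤ n)
    (hb : b ≤ M) : IC C M f n 0 b := by
  refine ⟨le_rfl, by positivity, ?_⟩
  rcases lt_or_ge (f * n) 1 with h | h
  · exact Or.inl ⟨h, by linarith⟩
  · refine Or.inr ⟨h, ?_⟩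
    have := large_num hC hf (le_refl (0 : ℝ)) h
    unfold EG
    have h2 : 0 < 1 / (2 * f) := by positivity
    linarith

theorem IC_zero' {C M f n b : ℝ} (hC : 0 ≤ C) (hf : 0 < f) (hn : 2 ≤ n)
    (hb : b ≤ M + 1) : IC C M f n 0 b := by
  refine ⟨le_rfl, by positivity, ?_⟩
  rcases lt_or_ge (f * n) 1 with h | h
  · exact Or.inl ⟨h, by linarith⟩
  · refine Or.inr ⟨h, ?_⟩
    have := large_num hC hf (le_refl (0 : ℝ)) h
    unfold EG
    have h2 : 0 < 1 / (2 * f) := by positivity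
    linarith

/-- small poset -/
def Sml (M : ℕ) (R : Type) [Fintype R] : Prop := Nonempty R ∧ Fintype.card R ≤ M

/-- the invariant for posets with an isolated element -/
def Cl (C : ℝ) (M : ℕ) (f : ℝ) (R : Type) [Fintype R] [PartialOrder R] : Prop :=
  ∃ (S : Set ℝ) (D b : ℝ), HS R S ∧
    Gam S (Fintype.card R + 1) ≤ C * (Fintype.card R - 1 / 2) - D ∧
    IC C M f (Fintype.card R) D b ∧ Wd R b ∧ ∃ x : R, Iso x

/-- the invariant for ordinal sums -/
def Cm (C : ℝ) (M : ℕ) (f : ℝ) (R : Type) [Fintype R] [PartialOrder R] : Prop :=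
  ∃ (S : Set ℝ) (D b : ℝ) (m : ℕ), HS R S ∧ 1 ≤ m ∧ m + 1 ≤ Fintype.card R ∧
    Gam S (Fintype.card R + 1) ≤ C * (Fintype.card R - 1) - D ∧
    IC C M f m D b ∧ Wd R b

/-- the common weak form -/
def Cw (C : ℝ) (M : ℕ) (f : ℝ) (R : Type) [Fintype R] [PartialOrder R] : Prop :=
  ∃ (S : Set ℝ) (D b : ℝ) (m : ℕ), HS R S ∧ 1 ≤ m ∧ m ≤ Fintype.card R ∧
    Gam S (Fintype.card R + 1) ≤ C * (Fintype.card R - 1 / 2) - D ∧
    IC C M f m D b ∧ Wd R b

variable {C : ℝ} {M : ℕ} {f : ℝ}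

theorem Cl.wk {R : Type} [Fintype R] [PartialOrder R] (h : Cl C M f R) : Cw C M f R := by
  obtain ⟨S, D, b, h1, h2, h3, h4, x, _⟩ := h
  have : 0 < Fintype.card R := Fintype.card_pos_iff.2 ⟨x⟩
  exact ⟨S, D, b, Fintype.card R, h1, this, le_rfl, h2, h3, h4⟩

theorem Cm.wk (hC : 0 ≤ C) {R : Type} [Fintype R] [PartialOrder R] (h : Cm C M f R) :
    Cw C M f R := by
  obtain ⟨S, D, b, m, h1, h2, h3, h4, h5, h6⟩ := h
  exact ⟨S, D, b, m, h1, h2, by omega, by linarith, h5, h6⟩

/-- trivial bound for the potential -/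
theorem Gam_triv (R : Type) [Fintype R] [PartialOrder R] [Nonempty R] :
    HS R (Set.range (ht R)) ∧ Gam (Set.range (ht R)) (Fintype.card R + 1) ≤
      r32 (Fintype.card R + 1) := by
  refine ⟨⟨Set.range_nonempty _, fun s hs => hs⟩, ?_⟩
  have hn : (0 : ℝ) ≤ Fintype.card R := Nat.cast_nonneg _
  obtain ⟨x⟩ := (inferInstance : Nonempty R)
  have hx1 : 0 ≤ ht R x := by
    apply Pool.Agent.H581.KS.HALF.le_avg rfl
    intro g
    positivity
  have hx2 : ht R x ≤ Fintype.card R := by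
    apply Pool.Agent.H581.KS.HALF.avg_le rfl
    intro g
    have : ((g.1 x : Fin _) : ℕ) + 1 ≤ Fintype.card R := (g.1 x).2
    exact_mod_cast this
  unfold Gam
  calc ∫ p in (0 : ℝ)..(Fintype.card R + 1), Real.sqrt (Metric.infDist p (Set.range (ht R))) ≤
      ∫ _ in (0 : ℝ)..(Fintype.card R + 1), Real.sqrt (Fintype.card R + 1) := by
        apply intervalIntegral.integral_mono_on (by linarith) (int_dist _ _ _) (by simp)
        intro p hp
        apply Real.sqrt_le_sqrt
        refine (Metric.infDist_le_dist_of_mem (Set.mem_range_self x)).trans ?_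
        rw [Real.dist_eq, abs_le]
        constructor <;> linarith [hp.1, hp.2]
    _ = r32 (Fintype.card R + 1) := by
        rw [intervalIntegral.integral_const, smul_eq_mul]
        unfold r32
        ring

/-- the condition for the constant -/
def Adm (C : ℝ) (M : ℕ) : Prop := 0 ≤ C ∧ ∀ n : ℕ, 1 ≤ n → n ≤ M + 1 →
  r32 ((n : ℝ) + 1) ≤ C * ((n : ℝ) - 1 / 2)

theorem Wd_card (R : Type) [Fintype R] [PartialOrder R] : Wd R (Fintype.card R) := by
  intro s _
  exact_mod_cast card_le_univ s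

theorem Sml.wk (hA : Adm C M) (hf : 0 < f) {R : Type} [Fintype R] [PartialOrder R]
    (h : Sml M R) : Cw C M f R := by
  obtain ⟨hne, hc⟩ := h
  obtain ⟨h1, h2⟩ := Gam_triv R
  have hpos : 0 < Fintype.card R := Fintype.card_pos
  have h3 := hA.2 (Fintype.card R) hpos (by omega)
  refine ⟨_, 0, Fintype.card R, Fintype.card R, h1, hpos, le_rfl, by linarith, ?_, Wd_card R⟩
  exact IC_zero hA.1 hf (by exact_mod_cast hpos) (by exact_mod_cast hc)

theorem Cl_small (hA : Adm C M) (hf : 0 < f) {P : Type} [Fintype P] [PartialOrder P]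
    (h : Sml M P) : Cl C M f (P ⊕ Fin 1) := by
  obtain ⟨hne, hc⟩ := h
  obtain ⟨h1, h2⟩ := Gam_triv (P ⊕ Fin 1)
  have hpos : 0 < Fintype.card P := Fintype.card_pos
  have hcc : Fintype.card (P ⊕ Fin 1) = Fintype.card P + 1 := card_pt'
  have h3 := hA.2 (Fintype.card (P ⊕ Fin 1)) (by omega) (by omega)
  refine ⟨_, 0, Fintype.card (P ⊕ Fin 1), h1, by linarith, ?_, Wd_card _, Sum.inr 0, ?_⟩
  · apply IC_zero' hA.1 hf
    · rw [hcc]
      push_cast
      have : (1 : ℝ) ≤ Fintype.card P := by exact_mod_cast hpos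
      linarith
    · rw [hcc]
      push_cast
      have : (Fintype.card P : ℝ) ≤ M := by exact_mod_cast hc
      linarith
  · intro y hy
    rcases y with x | q
    · exact ⟨Sum.not_inr_le_inl, Sum.not_inl_le_inr⟩
    · exact absurd (by rw [Subsingleton.elim q 0]) hy

section iso

variable {R Q : Type} [Fintype R] [Fintype Q] [PartialOrder R] [PartialOrder Q] (e : R ≃o Q)

include e

theorem Cl_iso (h : Cl C M f Q) : Cl C M f R := by
  obtain ⟨S, D, b, h1, h2, h3, h4, x, hx⟩ := h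
  have hc : Fintype.card R = Fintype.card Q := Fintype.card_congr e.toEquiv
  refine ⟨S, D, b, HS_iso e h1, by rw [hc]; exact h2, by rw [hc]; exact h3, Wd_iso e h4,
    e.symm x, ?_⟩
  intro y hy
  have := hx (e y) (fun h => hy (by rw [← h, e.symm_apply_apply]))
  rw [e.symm_apply_le, e.le_symm_apply]
  exact this

theorem Cm_iso (h : Cm C M f Q) : Cm C M f R := by
  obtain ⟨S, D, b, m, h1, h2, h3, h4, h5, h6⟩ := h
  have hc : Fintype.card R = Fintype.card Q := Fintype.card_congr e.toEquiv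
  exact ⟨S, D, b, m, HS_iso e h1, h2, by rw [hc]; exact h3, by rw [hc]; exact h4, h5,
    Wd_iso e h6⟩

end iso

theorem Cm_lex {P Q : Type} [Fintype P] [Fintype Q] [PartialOrder P] [PartialOrder Q]
    (hP : Cw C M f P) (hQ : Cw C M f Q) : Cm C M f (P ⊕ₗ Q) := by
  obtain ⟨S, D, b, m, h1, h2, h3, h4, h5, h6⟩ := hP
  obtain ⟨T, D', b', m', h1', h2', h3', h4', h5', h6'⟩ := hQ
  have hG : Gam (S ∪ (fun x => x + (Fintype.card P : ℝ)) '' T) (Fintype.card (P ⊕ₗ Q) + 1) ≤
      C * (Fintype.card (P ⊕ₗ Q) - 1) - D - D' := by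
    rw [card_lex']
    push_cast
    refine (Gam_union h1.1 h1'.1 (Nat.cast_nonneg _) (Nat.cast_nonneg _)).trans ?_
    linarith
  have hHS : HS (P ⊕ₗ Q) (S ∪ (fun x => x + (Fintype.card P : ℝ)) '' T) := by
    refine ⟨h1.1.inl, ?_⟩
    rintro s (hs | ⟨t, ht', rfl⟩)
    · obtain ⟨x, rfl⟩ := h1.2 s hs
      exact ⟨lexL P Q x, ht_lexL x⟩
    · obtain ⟨x, rfl⟩ := h1'.2 t ht'
      exact ⟨lexR P Q x, ht_lexR x⟩
  have hW := Wd_lex h6 h6'
  have hD := h5.1
  have hD' := h5'.1
  rcases le_total b' b with hbb | hbb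
  · rw [max_eq_left hbb] at hW
    refine ⟨_, D, b, m, hHS, h2, ?_, by linarith, h5, hW⟩
    rw [card_lex']
    omega
  · rw [max_eq_right hbb] at hW
    refine ⟨_, D', b', m', hHS, h2', ?_, by linarith, h5', hW⟩
    rw [card_lex']
    omega

theorem Cl_pt (hC : 0 ≤ C) (hf : 0 < f) (hf2 : f ≤ 1 / 2) {P : Type} [Fintype P] [PartialOrder P]
    (hP : Cm C M f P) (hg : Good (P ⊕ Fin 1) f) : Cl C M f (P ⊕ Fin 1) := by
  obtain ⟨S, D, b, m, h1, h2, h3, h4, h5, h6⟩ := hP
  obtain ⟨n, hn⟩ : ∃ n : ℝ, n = (Fintype.card P : ℝ) + 1 := ⟨_, rfl⟩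
  have hc : (Fintype.card (P ⊕ Fin 1) : ℝ) = n := by rw [card_pt', hn]; push_cast; ring
  have hm1 : (1 : ℝ) ≤ m := by exact_mod_cast h2
  have hm2 : (m : ℝ) + 2 ≤ n := by
    have : (m : ℝ) + 1 ≤ Fintype.card P := by exact_mod_cast h3
    linarith
  have hn0 : 0 < n := by linarith
  set l := (n + 1) / n with hl
  have hl0 : 0 < l := by positivity
  have hl1 : 1 ≤ l := by
    rw [hl, one_le_div hn0]; linarith
  have hln : l * n = n + 1 := by rw [hl]; field_simp
  have hcP : (Fintype.card P : ℝ) = n - 1 := by linarith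
  rw [hcP] at h4
  set S' := insert ((n + 1) / 2) ((fun x => l * x) '' S) with hS'
  have hG1 : Gam ((fun x => l * x) '' S) (n + 1) = l * Real.sqrt l * Gam S n := by
    rw [← hln, Gam_scale S hl0]
  have hsep : ∀ s ∈ (fun x => l * x) '' S, f * n ≤ |(n + 1) / 2 - s| := by
    rintro s ⟨t, ht', rfl⟩
    obtain ⟨x, rfl⟩ := h1.2 t ht'
    have h7 := Good_ptR hg x
    rw [← hn] at h7
    have e : (n + 1) / 2 - l * ht P x = l * (n / 2 - ht P x) := by rw [← hln]; ring
    simp only
    rw [e, abs_mul, abs_of_pos hl0, abs_sub_comm]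
    have : 0 ≤ |ht P x - n / 2| := abs_nonneg _
    nlinarith
  have hfn : 0 ≤ f * n := by positivity
  have hfn2 : f * n ≤ n / 2 := by nlinarith
  have hG2 := Gam_insert (h1.1.image _) hfn hsep (L := n + 1) (by linarith) (by linarith)
  have hsl : 1 ≤ Real.sqrt l := by rw [Real.one_le_sqrt]; exact hl1
  have hll : 1 ≤ l * Real.sqrt l := by nlinarith
  have hG3 : Gam S' (n + 1) ≤ C * (n - 1 / 2) - (D + 1 / 6 * r32 (f * n)) := by
    have e0 : n - 1 + 1 = n := by ring
    rw [e0] at h4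
    have e1 : l * Real.sqrt l * Gam S n ≤ l * Real.sqrt l * (C * (n - 2) - D) := by
      apply mul_le_mul_of_nonneg_left _ (by linarith)
      linarith
    have e2 := growth_num (show 2 ≤ n by linarith)
    rw [← hl] at e2
    have e3 : D ≤ l * Real.sqrt l * D := by nlinarith [h5.1]
    have e4 := mul_le_mul_of_nonneg_left e2 hC
    have e5 : l * Real.sqrt l * (C * (n - 2) - D) =
        C * (l * Real.sqrt l * (n - 2)) - l * Real.sqrt l * D := by ring
    unfold r32
    rw [hG1] at hG2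
    linarith
  refine ⟨S', D + 1 / 6 * r32 (f * n), b + 1, ⟨⟨_, Set.mem_insert _ _⟩, ?_⟩, ?_, ?_, Wd_pt h6,
    Sum.inr 0, ?_⟩
  · intro s hs
    rw [hS', Set.mem_insert_iff] at hs
    rcases hs with rfl | ⟨t, ht', rfl⟩
    · refine ⟨Sum.inr 0, ?_⟩
      rw [ht_ptR, hn]
      ring
    · obtain ⟨x, rfl⟩ := h1.2 t ht'
      refine ⟨Sum.inl x, ?_⟩
      rw [ht_ptL, hl, hn]
      ring
  · rw [hc]
    exact hG3
  · rw [hc]
    have hG0 := Gam_nonneg S' (show 0 ≤ n + 1 by linarith)
    exact IC_step hC hf (by linarith) hm2 h5 le_rfl (by linarith)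
  · intro y hy
    rcases y with x | q
    · exact ⟨Sum.not_inr_le_inl, Sum.not_inl_le_inr⟩
    · exact absurd (by rw [Subsingleton.elim q 0]) hy

theorem stepG (hA : Adm C M) (hf : 0 < f) (hf2 : f ≤ 1 / 2) {P : Type} [Fintype P]
    [PartialOrder P] (h : Sml M P ∨ Cl C M f P ∨ Cm C M f P) (hg : Good (P ⊕ Fin 1) f) :
    Cl C M f (P ⊕ Fin 1) := by
  rcases h with h | h | h
  · exact Cl_small hA hf h
  · obtain ⟨S, D, b, -, -, -, -, x, hx⟩ := h
    exfalso
    refine twins_bad hf (x := Sum.inl x) (y := Sum.inr 0) (by simp) ?_ ?_ hg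
    · intro y hy
      rcases y with z | q
      · have := hx z (fun h => hy (by rw [h]))
        exact ⟨fun h => this.1 (Sum.inl_le_inl_iff.1 h), fun h => this.2 (Sum.inl_le_inl_iff.1 h)⟩
      · exact ⟨Sum.not_inl_le_inr, Sum.not_inr_le_inl⟩
    · intro y hy
      rcases y with z | q
      · exact ⟨Sum.not_inr_le_inl, Sum.not_inl_le_inr⟩
      · exact absurd (by rw [Subsingleton.elim q 0]) hy
  · exact Cl_pt hA.1 hf hf2 h hg

theorem gen_inv (hA : Adm C M) (hf : 0 < f) (hf2 : f ≤ 1 / 2) {R : Type} [PartialOrder R]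
    (h : Gen M R) : ∀ [Fintype R], Good R f → Sml M R ∨ Cl C M f R ∨ Cm C M f R := by
  induction h with
  | base P h1 h2 h3 =>
    intro _ _
    left
    refine ⟨h2, ?_⟩
    rwa [Nat.card_eq_fintype_card] at h3
  | ordinal P Q R hP hQ e ihP ihQ =>
    intro hR hg
    obtain ⟨e⟩ := e
    have hfin : Finite (P ⊕ₗ Q) := Finite.of_equiv R e.toEquiv
    have hfP : Finite P := Finite.of_injective (lexL P Q) (lexL P Q).injective
    have hfQ : Finite Q := Finite.of_injective (lexR P Q) (lexR P Q).injective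
    let _ : Fintype P := Fintype.ofFinite P
    let _ : Fintype Q := Fintype.ofFinite Q
    have hg' : Good (P ⊕ₗ Q) f := Good_iso e hg
    have h1 : Cw C M f P := by
      rcases ihP (Good_lexL hg') with h | h | h
      · exact h.wk hA hf
      · exact h.wk
      · exact h.wk hA.1
    have h2 : Cw C M f Q := by
      rcases ihQ (Good_lexR hg') with h | h | h
      · exact h.wk hA hf
      · exact h.wk
      · exact h.wk hA.1
    exact Or.inr (Or.inr (Cm_iso e (Cm_lex h1 h2)))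
  | isolated P R hP e ihP =>
    intro hR hg
    obtain ⟨e⟩ := e
    have hfin : Finite (P ⊕ Fin 1) := Finite.of_equiv R e.toEquiv
    have hfP : Finite P := Finite.of_injective (Sum.inl : P → P ⊕ Fin 1) Sum.inl_injective
    let _ : Fintype P := Fintype.ofFinite P
    have hg' : Good (P ⊕ Fin 1) f := Good_iso e hg
    exact Or.inr (Or.inl (Cl_iso e (stepG hA hf hf2 (ihP (Good_ptL hg')) hg')))

theorem gen_width (hA : Adm C M) (hf : 0 < f) (hf2 : f ≤ 1 / 2) (P : Type) [Fintype P]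
    [PartialOrder P] (h : Gen M P) (hg : Good P f) : Wd P (EG C M f) := by
  have hw : Cw C M f P := by
    rcases gen_inv hA hf hf2 h hg with h | h | h
    · exact h.wk hA hf
    · exact h.wk
    · exact h.wk hA.1
  obtain ⟨S, D, b, m, -, h1, -, -, h2, h3⟩ := hw
  have hm : (0 : ℝ) < m := by
    have : (1 : ℝ) ≤ m := by exact_mod_cast h1
    linarith
  exact fun s hs => (h3 s hs).trans (IC_end hA.1 hf hm h2)

theorem adm (M : ℕ) : Adm (8 * Real.sqrt ((M : ℝ) + 2)) M := by
  refine ⟨by positivity, fun n hn1 hn2 => ?_⟩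
  unfold r32
  have h1 : (1 : ℝ) ≤ n := by exact_mod_cast hn1
  have h2 : (n : ℝ) + 1 ≤ M + 2 := by
    have : (n : ℝ) ≤ M + 1 := by exact_mod_cast hn2
    linarith
  have h3 := Real.sqrt_le_sqrt h2
  have h4 : 0 ≤ Real.sqrt ((M : ℝ) + 2) := Real.sqrt_nonneg _
  have h5 : 0 ≤ Real.sqrt ((n : ℝ) + 1) := Real.sqrt_nonneg _
  calc ((n : ℝ) + 1) * Real.sqrt ((n : ℝ) + 1) ≤ ((n : ℝ) + 1) * Real.sqrt ((M : ℝ) + 2) :=
        mul_le_mul_of_nonneg_left h3 (by linarith)
    _ ≤ 8 * Real.sqrt ((M : ℝ) + 2) * ((n : ℝ) - 1 / 2) := by nlinarith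

theorem Gen.nonempty {m : ℕ} {P : Type} [PartialOrder P] (h : Gen m P) : Nonempty P := by
  induction h with
  | base P h1 h2 h3 => exact h2
  | ordinal P Q R hP hQ e ihP ihQ =>
    obtain ⟨e⟩ := e
    obtain ⟨x⟩ := ihP
    exact ⟨e.symm (lexL P Q x)⟩
  | isolated P R hP e ihP =>
    obtain ⟨e⟩ := e
    exact ⟨e.symm (Sum.inr 0)⟩

theorem Gen.mono {m m' : ℕ} (hm : m ≤ m') {P : Type} [PartialOrder P] (h : Gen m P) :
    Gen m' P := by
  induction h with
  | base P h1 h2 h3 => exact Gen.base P h1 h2 (h3.trans hm)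
  | ordinal P Q R hP hQ e ihP ihQ => exact Gen.ordinal P Q R ihP ihQ e
  | isolated P R hP e ihP => exact Gen.isolated P R ihP e

theorem gen_one : Gen 1 (Fin 1) := Gen.base _ inferInstance inferInstance (by simp)

/-- the balance constants of the posets in `Gen m` -/
theorem gen_balance (m : ℕ) (hm : 1 ≤ m) (P : Type) [Fintype P] [PartialOrder P] (h : Gen m P)
    {w : ℕ} (hw : 2 * m ≤ w) (A : Finset P) (hA : IsAntichain (· ≤ ·) (A : Set P))
    (hAw : A.card = w) : 1 / 2 - 1000 * Real.sqrt m / (w : ℝ) ≤ balance P := by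
  have hm1 : (1 : ℝ) ≤ m := by exact_mod_cast hm
  have hwm : 2 * (m : ℝ) ≤ w := by exact_mod_cast hw
  have hwR : (2 : ℝ) ≤ w := by linarith
  have hne := h.nonempty
  have hs : 1 ≤ Real.sqrt m := by rw [Real.one_le_sqrt]; exact hm1
  by_contra hc
  push Not at hc
  have hb := balance_nonneg (P := P)
  obtain ⟨g, hg⟩ : ∃ g : ℝ, g = 1000 * Real.sqrt m / (w : ℝ) := ⟨_, rfl⟩
  rw [← hg] at hc
  have hf2 : g < 1 / 2 := by linarith
  have hf : 0 < g := by rw [hg]; positivity
  have h1 := gen_width (adm m) hf hf2.le P h (good_of_balance hc) A hA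
  rw [hAw] at h1
  have h2 : Real.sqrt ((m : ℝ) + 2) ≤ 2 * Real.sqrt m := by
    rw [show (2 : ℝ) * Real.sqrt m = Real.sqrt (4 * m) by
      rw [Real.sqrt_mul (by norm_num), show (4 : ℝ) = 2 ^ 2 by norm_num,
        Real.sqrt_sq (by norm_num)]]
    apply Real.sqrt_le_sqrt
    linarith
  have h3 : 18 * (8 * Real.sqrt ((m : ℝ) + 2)) / g ≤ 0.288 * w := by
    rw [hg, div_div_eq_mul_div, div_le_iff₀ (by positivity)]
    nlinarith
  have h4 : 1 / (2 * g) ≤ w / 2000 := by
    rw [hg, div_le_div_iff₀ (by positivity) (by norm_num)]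
    have : 2 * (1000 * Real.sqrt m / (w : ℝ)) * w = 2000 * Real.sqrt m := by
      field_simp
      ring
    nlinarith
  have h5 : (2000 : ℝ) < w := by
    rw [hg, div_lt_iff₀ (by linarith)] at hf2
    linarith
  unfold EG at h1
  linarith

end Pool.Agent.N502.IO
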