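import Mathlib
import Pool.Agent.N502.IO.Gen

set_option autoImplicit false

/-!
# Series-parallel interval orders of width `w` with balance constant at most `1/2 - 1/(12 w - 8)`
-/

open Finset

namespace Pool.Agent.N502.IO

open Pool.Agent.TH447.KS (IsIntervalOrder)
open Pool.Agent.H931R3.Bal (avg pr SeriesParallel pr_disj_inl pr_lex_inl pr_lex_inr sp_one
  width_one)
open Pool.Agent.H581.KS

/-- there is a series-parallel interval order with `n` elements and width `w`, all of whose
incomparable pairs are `ε`-unbalanced, with average heights in `X` -/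
def St (w n : ℕ) (ε : ℝ) (X : Set ℝ) : Prop :=
  ∃ (P : Type) (_ : Fintype P) (_ : PartialOrder P), Fintype.card P = n ∧ HasWidth P w ∧
    Good P ε ∧ IsIntervalOrder P ∧ TwoA P ∧ (SeriesParallel P ∧ Gen 1 P) ∧ ∀ x : P, ht P x ∈ X

theorem St_mono {w n : ℕ} {ε ε' : ℝ} {X : Set ℝ} (h : St w n ε X) (he : ε' ≤ ε) : St w n ε' X := by
  obtain ⟨P, i1, i2, h1, h2, h3, h4⟩ := h
  exact ⟨P, i1, i2, h1, h2, fun x y hxy hyx => he.trans (h3 x y hxy hyx), h4⟩

theorem ht_fin_one (x : Fin 1) : ht (Fin 1) x = 1 := by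
  unfold ht Pool.Agent.H931R3.Bal.avg
  have hz : ∀ f : Pool.Agent.H931R3.Bal.LEn (Fin 1) (Fintype.card (Fin 1)),
      (((f.1 x : Fin _) : ℕ) : ℝ) + 1 = 1 := by
    intro f
    have : ((f.1 x : Fin _) : ℕ) = 0 := by
      have := (f.1 x).2
      simp only [Fintype.card_fin] at this
      omega
    rw [this]; norm_num
  rw [sum_congr rfl (fun f _ => hz f), sum_const, card_univ, nsmul_eq_mul, mul_one]
  exact div_self (Pool.Agent.H931R3.Bal.card_ne rfl)

theorem St_one (ε : ℝ) : St 1 1 ε {1} := by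
  refine ⟨Fin 1, inferInstance, inferInstance, by simp, width_one, ?_, interval_fin 1, two_fin 1,
    ⟨sp_one, gen_one⟩, ht_fin_one⟩
  intro x y hxy
  exact absurd (le_of_eq (Subsingleton.elim x y)) hxy

/-- a new greatest element -/
theorem St_top {w n : ℕ} {ε : ℝ} {X : Set ℝ} (hw : 1 ≤ w) (h : St w n ε X) :
    St w (n + 1) ε (insert ((n : ℝ) + 1) X) := by
  obtain ⟨P, i1, i2, h1, h2, h3, h4, h5, h6, h7⟩ := h
  have hc : Fintype.card (P ⊕ₗ Fin 1) = n + 1 := by rw [card_lex', h1]; simp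
  refine ⟨P ⊕ₗ Fin 1, inferInstance, inferInstance, hc, ?_, ?_, interval_lex h4 (interval_fin 1),
    two_lex h5 (two_fin 1), ⟨SeriesParallel.direct P (Fin 1) _ h6.1 sp_one ⟨OrderIso.refl _⟩,
    Gen.ordinal P (Fin 1) _ h6.2 gen_one ⟨OrderIso.refl _⟩⟩, ?_⟩
  · have := width_lex h2 (Q := Fin 1) (v := 1) width_one
    rwa [max_eq_left hw] at this
  · intro x y hxy hyx
    rw [card_lex']
    rcases lex_cases x with ⟨a, rfl⟩ | ⟨a, rfl⟩ <;> rcases lex_cases y with ⟨b, rfl⟩ | ⟨b, rfl⟩
    · have := h3 a b (fun h => hxy ((lexL P (Fin 1)).le_iff_le.2 h))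
        (fun h => hyx ((lexL P (Fin 1)).le_iff_le.2 h))
      have e := pr_lex_inl (P := P) (Q := Fin 1) rfl rfl a b
      change ε ≤ |Pool.Agent.H931R3.Bal.pr (P ⊕ₗ Fin 1) _ (toLex (Sum.inl a))
        (toLex (Sum.inl b)) - 1 / 2|
      rwa [e]
    · exact absurd (lexL_lt_lexR a b).le hxy
    · exact absurd (lexL_lt_lexR b a).le hyx
    · exact absurd (le_of_eq (by rw [Subsingleton.elim a b])) hxy
  · intro x
    rcases lex_cases x with ⟨a, rfl⟩ | ⟨a, rfl⟩
    · rw [ht_lexL]
      exact Set.mem_insert_of_mem _ (h7 a)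
    · rw [ht_lexR, ht_fin_one, h1]
      left
      ring

/-- a new isolated element -/
theorem St_pt {w n : ℕ} {ε : ℝ} {X : Set ℝ} (h : St w n ε X)
    (hX : ∀ s ∈ X, ε * (n + 1) ≤ |s - ((n : ℝ) + 1) / 2|) :
    St (w + 1) (n + 1) ε (insert (((n : ℝ) + 2) / 2)
      ((fun x => ((n : ℝ) + 2) / (n + 1) * x) '' X)) := by
  obtain ⟨P, i1, i2, h1, h2, h3, h4, h5, h6, h7⟩ := h
  have hc : Fintype.card (P ⊕ Fin 1) = n + 1 := by rw [card_pt', h1]
  have hpos : (0 : ℝ) < (n : ℝ) + 1 := by positivity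
  have key : ∀ x : P, ε ≤ |1 - avg P (Fintype.card P) x (fun i => (i : ℝ) + 1) /
      (Fintype.card P + 1) - 1 / 2| := by
    intro x
    have h8 := hX _ (h7 x)
    unfold ht at h8
    have e : avg P (Fintype.card P) x (fun i => (i : ℝ) + 1) - ((n : ℝ) + 1) / 2 =
        - ((1 - avg P (Fintype.card P) x (fun i => (i : ℝ) + 1) / (Fintype.card P + 1) - 1 / 2) *
        (n + 1)) := by
      rw [h1]
      field_simp
      ring
    rw [e, abs_neg, abs_mul, abs_of_pos hpos] at h8
    exact le_of_mul_le_mul_right h8 hpos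
  refine ⟨P ⊕ Fin 1, inferInstance, inferInstance, hc, width_point h2, ?_, interval_pt h4,
    two_pt h5, ⟨SeriesParallel.disj P (Fin 1) _ h6.1 sp_one ⟨OrderIso.refl _⟩,
    Gen.isolated P _ h6.2 ⟨OrderIso.refl _⟩⟩, ?_⟩
  · intro a b hab hba
    rw [card_pt']
    rcases a with a | a <;> rcases b with b | b
    · rw [pr_disj_inl rfl (by simp)]
      exact h3 a b (fun hh => hab (Sum.inl_le_inl_iff.2 hh)) (fun hh => hba (Sum.inl_le_inl_iff.2 hh))
    · rw [pr_pt_inl_inr rfl]
      exact key a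
    · rw [pr_pt_inr_inl rfl]
      have := key b
      rw [abs_sub_comm]
      rwa [show 1 - avg P (Fintype.card P) b (fun i => (i : ℝ) + 1) /
        (Fintype.card P + 1) - 1 / 2 = 1 / 2 - avg P (Fintype.card P) b (fun i => (i : ℝ) + 1) /
        (Fintype.card P + 1) by ring] at this
    · exact absurd (by rw [Subsingleton.elim a b]) hab
  · intro a
    rcases a with a | a
    · right
      exact ⟨ht P a, h7 a, by rw [ht_ptL, h1]⟩
    · left
      rw [ht_ptR, h1]

/-- spacing above the centre -/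
def Spc (X : Set ℝ) (c : ℝ) : Prop := ∀ s ∈ X, ∀ t ∈ X, c < s → s < t → s + 1 ≤ t

theorem Spc_top {X : Set ℝ} {c n : ℝ} (h : Spc X c) (hX : ∀ s ∈ X, s ≤ n) :
    Spc (insert (n + 1) X) c := by
  intro s hs t ht' hc hst
  rcases hs with rfl | hs
  · rcases ht' with rfl | ht'
    · exact absurd hst (lt_irrefl _)
    · have := hX t ht'
      linarith
  · rcases ht' with rfl | ht'
    · have := hX s hs
      linarith
    · exact h s hs t ht' hc hst

theorem Spc_pt {X : Set ℝ} {c m : ℝ} (hm : 0 ≤ m) (h : Spc X c) (hc : c ≤ (m + 1) / 2) :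
    Spc (insert ((m + 2) / 2) ((fun x => (m + 2) / (m + 1) * x) '' X)) ((m + 2) / 2) := by
  have hl : 0 < (m + 2) / (m + 1) := by positivity
  have hl1 : 1 ≤ (m + 2) / (m + 1) := by rw [one_le_div (by linarith)]; linarith
  have e : (m + 2) / 2 = (m + 2) / (m + 1) * ((m + 1) / 2) := by field_simp
  intro s hs t ht' hcs hst
  rcases hs with rfl | ⟨s, hs, rfl⟩
  · exact absurd hcs (lt_irrefl _)
  · rcases ht' with rfl | ⟨t, ht', rfl⟩
    · exact absurd hst (not_lt.2 hcs.le)
    · simp only at hcs hst ⊢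
      have h1 : (m + 1) / 2 < s := by
        rw [e] at hcs
        exact lt_of_mul_lt_mul_left hcs hl.le
      have h2 : s < t := lt_of_mul_lt_mul_left hst hl.le
      have h3 := h s hs t ht' (hc.trans_lt h1) h2
      nlinarith

theorem low_family (w : ℕ) (hw : 1 ≤ w) : ∃ (n : ℕ) (X : Set ℝ), 1 ≤ n ∧ n + 2 ≤ 3 * w ∧
    St w n (1 / (12 * (w : ℝ) - 8)) X ∧ (∀ s ∈ X, s ≤ n) ∧ Spc X (((n : ℝ) + 1) / 2) := by
  induction w, hw using Nat.le_induction with
  | base =>
    refine ⟨1, {1}, le_rfl, by norm_num, St_one _, ?_, ?_⟩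
    · intro s hs
      rw [Set.mem_singleton_iff] at hs
      rw [hs]; norm_num
    · intro s hs t ht' _ hst
      rw [Set.mem_singleton_iff] at hs ht'
      rw [hs, ht'] at hst
      exact absurd hst (lt_irrefl _)
  | succ w hw ih =>
    obtain ⟨n, X, hn1, hn, hSt, hX, hSp⟩ := ih
    have hw1 : (1 : ℝ) ≤ w := by exact_mod_cast hw
    have hn1R : (1 : ℝ) ≤ n := by exact_mod_cast hn1
    have hnR : (n : ℝ) + 2 ≤ 3 * w := by exact_mod_cast hn
    have heps : 1 / (12 * ((w : ℝ) + 1) - 8) ≤ 1 / (12 * (w : ℝ) - 8) := by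
      apply one_div_le_one_div_of_le
      · linarith
      · linarith
    have fin : ∀ (m : ℕ) (Y : Set ℝ), n + 1 ≤ m → m ≤ n + 2 → St w m (1 / (12 * (w : ℝ) - 8)) Y →
        (∀ s ∈ Y, s ≤ m) → Spc Y (((n : ℝ) + 1) / 2) →
        (∀ s ∈ Y, 1 / 4 ≤ |s - ((m : ℝ) + 1) / 2|) →
        ∃ (n' : ℕ) (X : Set ℝ), 1 ≤ n' ∧ n' + 2 ≤ 3 * (w + 1) ∧
        St (w + 1) n' (1 / (12 * ((w + 1 : ℕ) : ℝ) - 8)) X ∧ (∀ s ∈ X, s ≤ n') ∧
        Spc X (((n' : ℝ) + 1) / 2) := by
      intro m Y hm1 hm2 hY1 hY2 hY3 hY4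
      have hm1R : (n : ℝ) + 1 ≤ m := by exact_mod_cast hm1
      have hm2R : (m : ℝ) ≤ n + 2 := by exact_mod_cast hm2
      have hm0 : (0 : ℝ) ≤ m := Nat.cast_nonneg m
      refine ⟨m + 1, insert (((m : ℝ) + 2) / 2) ((fun x => ((m : ℝ) + 2) / (m + 1) * x) '' Y),
        by omega, by omega, ?_, ?_, ?_⟩
      · push_cast
        refine St_pt (St_mono hY1 heps) ?_
        intro s hs
        refine le_trans ?_ (hY4 s hs)
        rw [div_mul_eq_mul_div, div_le_div_iff₀ (by linarith) (by norm_num)]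
        linarith
      · push_cast
        rintro s (rfl | ⟨s, hs, rfl⟩)
        · linarith
        · have h1 := hY2 s hs
          simp only
          rw [div_mul_eq_mul_div, div_le_iff₀ (by linarith)]
          nlinarith
      · push_cast
        have h2 := Spc_pt hm0 hY3 (by linarith)
        rw [show (m : ℝ) + 1 + 1 = m + 2 by ring]
        exact h2
    have hX1 : ∀ s ∈ insert ((n : ℝ) + 1) X, s ≤ ((n + 1 : ℕ) : ℝ) := by
      push_cast
      rintro s (rfl | hs)
      · exact le_rfl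
      · have := hX s hs
        linarith
    have hSt1 := St_top hw hSt
    have hSp1 := Spc_top hSp hX
    by_cases hcase : ∀ s ∈ insert ((n : ℝ) + 1) X, 1 / 4 ≤ |s - (((n + 1 : ℕ) : ℝ) + 1) / 2|
    · exact fin (n + 1) _ le_rfl (by omega) hSt1 hX1 hSp1 hcase
    · push Not at hcase
      obtain ⟨x, hx, hx2⟩ := hcase
      push_cast at hx2
      rw [abs_lt] at hx2
      have hxX : x ∈ X ∧ ((n : ℝ) + 1) / 2 < x := by
        rcases hx with rfl | hx
        · exfalso
          linarith [hx2.1, hx2.2]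
        · exact ⟨hx, by linarith [hx2.1]⟩
      have hSt2 := St_top hw hSt1
      have hSp2 := Spc_top hSp1 hX1
      push_cast at hSt2 hSp2
      have hn2 : 2 ≤ n := by
        by_contra hc
        have hn1' : n = 1 := by omega
        have h3 := hX x hxX.1
        rw [hn1'] at h3 hxX
        push_cast at h3 hxX
        linarith [hxX.2]
      have hn2R : (2 : ℝ) ≤ n := by exact_mod_cast hn2
      refine fin (n + 2) _ (by omega) le_rfl hSt2 ?_ hSp2 ?_
      · push_cast
        rintro s (rfl | rfl | hs)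
        · linarith
        · linarith
        · have := hX s hs
          linarith
      · push_cast
        rintro s (rfl | rfl | hs)
        · refine le_trans ?_ (le_abs_self _)
          linarith
        · refine le_trans ?_ (le_abs_self _)
          linarith
        · rcases lt_trichotomy s x with h | h | h
          · rcases le_or_gt s (((n : ℝ) + 1) / 2) with h4 | h4
            · rw [abs_sub_comm]
              refine le_trans ?_ (le_abs_self _)
              linarith
            · have := hSp s hs x hxX.1 h4 h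
              rw [abs_sub_comm]
              refine le_trans ?_ (le_abs_self _)
              linarith [hx2.1, hx2.2]
          · rw [h, abs_sub_comm]
            refine le_trans ?_ (le_abs_self _)
            linarith [hx2.1, hx2.2]
          · have := hSp x hxX.1 s hs hxX.2 h
            refine le_trans ?_ (le_abs_self _)
            linarith [hx2.1, hx2.2]

end Pool.Agent.N502.IO
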