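import Mathlib
import Pool.Agent.N502.IO.Low
import Pool.Agent.N502.IO.Iter

set_option autoImplicit false

/-!
# The exact orders of `1/2 - δ` for two classes of interval orders
-/

open Finset

namespace Pool.Agent.N502.IO

open Pool.Agent.TH447.KS (IsIntervalOrder)
open Pool.Agent.H931R3.Bal (HasWidth SeriesParallel balance_nonneg prob_eq pr_add
  SeriesParallel.nonempty pr)
open Pool.Agent.H13R3.WB (balance prob)
open Pool.Agent.H581.KS (Good)

/-- infimum of the balance constants of the series-parallel interval orders of width `w` -/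
noncomputable def dSI (w : ℕ) : ℝ :=
  sInf {d : ℝ | ∃ (P : Type) (_ : Fintype P) (_ : PartialOrder P), SeriesParallel P ∧
    IsIntervalOrder P ∧ HasWidth P w ∧ balance P = d}

theorem nonempty_of_width {P : Type} [PartialOrder P] {w : ℕ} (h : HasWidth P w) (hw : 1 ≤ w) :
    Nonempty P := by
  obtain ⟨⟨A, _, hAc⟩, _⟩ := h
  obtain ⟨x, _⟩ := Finset.card_pos.1 (show 0 < A.card by omega)
  exact ⟨x⟩

/-- unbalanced pairs and the balance constant -/
theorem balance_of_good {P : Type} [Fintype P] [PartialOrder P] [Nonempty P] {f : ℝ}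
    (hf : f ≤ 1 / 2) (h : Good P f) : balance P ≤ 1 / 2 - f := by
  have : Nonempty (P × P) := inferInstance
  unfold Pool.Agent.H13R3.WB.balance
  apply ciSup_le
  rintro ⟨x, y⟩
  simp only
  have h0 : ∀ x y : P, x ≤ y → prob P y x = 0 := fun x y h =>
    Pool.Agent.H13R3.WB.prob_eq_zero_of_le h
  by_cases hxy : x ≤ y
  · rw [h0 x y hxy]
    exact (min_le_right _ _).trans (by linarith)
  · by_cases hyx : y ≤ x
    · rw [h0 y x hyx]
      exact (min_le_left _ _).trans (by linarith)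
    · have hne : x ≠ y := fun h => hxy (le_of_eq h)
      have h1 := h x y hxy hyx
      have h2 := pr_add (P := P) rfl hne
      rw [prob_eq rfl, prob_eq rfl]
      rcases le_abs.1 h1 with h3 | h3
      · exact (min_le_right _ _).trans (by linarith)
      · exact (min_le_left _ _).trans (by linarith)

theorem dSI_bdd {w : ℕ} (hw : 1 ≤ w) : BddBelow {d : ℝ | ∃ (P : Type) (_ : Fintype P)
    (_ : PartialOrder P), SeriesParallel P ∧ IsIntervalOrder P ∧ HasWidth P w ∧ balance P = d} := by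
  refine ⟨0, ?_⟩
  rintro d ⟨Q, _, _, _, _, h4, rfl⟩
  have := nonempty_of_width h4 hw
  exact balance_nonneg

theorem low_eps {w : ℕ} (hw : 1 ≤ w) : 1 / (12 * (w : ℝ) - 8) ≤ 1 / 2 := by
  have hw1 : (1 : ℝ) ≤ w := by exact_mod_cast hw
  have : 1 / (12 * (w : ℝ) - 8) ≤ 1 / 4 := by
    apply one_div_le_one_div_of_le (by norm_num)
    linarith
  linarith

theorem dSI_le {w : ℕ} (hw : 1 ≤ w) : dSI w ≤ 1 / 2 - 1 / (12 * (w : ℝ) - 8) := by
  obtain ⟨n, X, hn, -, ⟨P, i1, i2, h1, h2, h3, h4, h5, h6, -⟩, -, -⟩ := low_family w hw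
  have hne : Nonempty P := nonempty_of_width (w := w) h2 hw
  refine le_trans ?_ (balance_of_good (low_eps hw) h3)
  unfold dSI
  exact csInf_le (dSI_bdd hw) ⟨P, i1, i2, h6.1, h4, h2, rfl⟩

theorem dSI_ge {w : ℕ} (hw : 1 ≤ w) : 1 / 2 - 100 / (w : ℝ) ≤ dSI w := by
  obtain ⟨n, X, hn, -, ⟨P, i1, i2, h1, h2, h3, h4, h5, h6, -⟩, -, -⟩ := low_family w hw
  unfold dSI
  apply le_csInf
  · exact ⟨_, P, i1, i2, h6.1, h4, h2, rfl⟩
  · rintro d ⟨Q, _, _, h1, h2, ⟨⟨A, hA, hAw⟩, _⟩, rfl⟩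
    exact sp_balance Q h1 h2 hw A hA hAw

theorem dSI_growth {w v : ℕ} (hw : 1 ≤ w) (hv : 1200 * w ≤ v) : dSI w < dSI v := by
  have h1 := dSI_le hw
  have h2 := dSI_ge (show 1 ≤ v by omega)
  have hw1 : (1 : ℝ) ≤ w := by exact_mod_cast hw
  have hvR : 1200 * (w : ℝ) ≤ v := by exact_mod_cast hv
  have h3 : 100 / (v : ℝ) < 1 / (12 * (w : ℝ) - 8) := by
    rw [div_lt_div_iff₀ (by linarith) (by linarith)]
    linarith
  linarith

/-- infimum of the balance constants of the posets of width `w` in `Gen m` -/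
noncomputable def dG (m w : ℕ) : ℝ :=
  sInf {d : ℝ | ∃ (P : Type) (_ : Fintype P) (_ : PartialOrder P), Gen m P ∧ HasWidth P w ∧
    balance P = d}

theorem dG_le {m w : ℕ} (hm : 1 ≤ m) (hw : 1 ≤ w) : dG m w ≤ 1 / 2 - 1 / (12 * (w : ℝ) - 8) := by
  obtain ⟨n, X, hn, -, ⟨P, i1, i2, h1, h2, h3, h4, h5, h6, -⟩, -, -⟩ := low_family w hw
  have hne : Nonempty P := nonempty_of_width (w := w) h2 hw
  refine le_trans ?_ (balance_of_good (low_eps hw) h3)
  unfold dG
  apply csInf_le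
  · refine ⟨0, ?_⟩
    rintro d ⟨Q, _, _, _, h4, rfl⟩
    have := nonempty_of_width h4 hw
    exact balance_nonneg
  · exact ⟨P, i1, i2, h6.2.mono hm, h2, rfl⟩

theorem dG_ge {m w : ℕ} (hm : 1 ≤ m) (hw : 2 * m ≤ w) :
    1 / 2 - 1000 * Real.sqrt m / (w : ℝ) ≤ dG m w := by
  obtain ⟨n, X, hn, -, ⟨P, i1, i2, h1, h2, h3, h4, h5, h6, -⟩, -, -⟩ :=
    low_family w (by omega)
  unfold dG
  apply le_csInf
  · exact ⟨_, P, i1, i2, h6.2.mono hm, h2, rfl⟩
  · rintro d ⟨Q, _, _, h1, ⟨⟨A, hA, hAw⟩, _⟩, rfl⟩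
    exact gen_balance m hm Q h1 hw A hA hAw

theorem dG_growth {m w v : ℕ} (hm : 1 ≤ m) (hw : 1 ≤ w) (hv : 12000 * m * w ≤ v) :
    dG m w < dG m v := by
  have hmw : m ≤ m * w := Nat.le_mul_of_pos_right m hw
  have h1 := dG_le hm hw
  have h2 := dG_ge hm (show 2 * m ≤ v by nlinarith)
  have hm1 : (1 : ℝ) ≤ m := by exact_mod_cast hm
  have hw1 : (1 : ℝ) ≤ w := by exact_mod_cast hw
  have hvR : 12000 * (m : ℝ) * w ≤ v := by exact_mod_cast hv
  have hs : Real.sqrt m ≤ m := by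
    rw [Real.sqrt_le_left (by linarith)]
    nlinarith
  have hv0 : 0 < (v : ℝ) := by nlinarith
  have h3 : 1000 * Real.sqrt m / (v : ℝ) < 1 / (12 * (w : ℝ) - 8) := by
    rw [div_lt_div_iff₀ hv0 (by linarith)]
    have h4 : 1000 * Real.sqrt m * (12 * (w : ℝ) - 8) ≤ 1000 * m * (12 * (w : ℝ) - 8) := by
      apply mul_le_mul_of_nonneg_right _ (by linarith)
      linarith
    nlinarith
  linarith

theorem dM_bdd {k w : ℕ} (hw : 1 ≤ w) : BddBelow {d : ℝ | ∃ (P : Type) (_ : Fintype P)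
    (_ : PartialOrder P), IsIntervalOrder P ∧ MonoAnti k P ∧ HasWidth P w ∧ balance P = d} := by
  refine ⟨0, ?_⟩
  rintro d ⟨Q, _, _, _, _, h4, rfl⟩
  have := nonempty_of_width h4 hw
  exact balance_nonneg

theorem dM_ge {k w : ℕ} (hk : 2 ≤ k) (hw : 1 ≤ w) :
    1 / 2 - 3 * k * (1 + Real.log w) / w ≤ dM k w := by
  obtain ⟨n, X, hn, -, ⟨P, i1, i2, h1, h2, h3, h4, h5, h6, -⟩, -, -⟩ := low_family w hw
  unfold dM
  apply le_csInf
  · exact ⟨_, P, i1, i2, h4, h5.mono hk, h2, rfl⟩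
  · rintro d ⟨Q, _, _, h1, h2, h3, rfl⟩
    exact class_balance k Q h1 h2 w hw h3

theorem log_small {w : ℕ} (hw : 1 ≤ w) (h : w < 14641) :
    Real.log w / (20000 * w) ≤ 1 / (12 * (w : ℝ) - 8) := by
  have hw1 : (1 : ℝ) ≤ w := by exact_mod_cast hw
  have hlog : Real.log w ≤ 10 := by
    have h1 : Real.log w ≤ Real.log (Real.exp 10) := by
      apply Real.log_le_log (by linarith)
      have h2 : (w : ℝ) ≤ 14641 := by exact_mod_cast h.le
      have h3 : (14641 : ℝ) ≤ Real.exp 10 := by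
        have h4 : (2.7 : ℝ) ≤ Real.exp 1 := by
          have := Real.exp_one_gt_d9
          linarith
        have h5 : Real.exp 10 = Real.exp 1 ^ 10 := by
          rw [← Real.exp_nat_mul]; norm_num
        rw [h5]
        calc (14641 : ℝ) ≤ 2.7 ^ 10 := by norm_num
          _ ≤ Real.exp 1 ^ 10 := pow_le_pow_left₀ (by norm_num) h4 10
      linarith
    rwa [Real.log_exp] at h1
  rw [div_le_div_iff₀ (by linarith) (by linarith)]
  have h0 : 0 ≤ Real.log w := Real.log_nonneg hw1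
  nlinarith

theorem dM_le {k w : ℕ} (hk : 2 ≤ k) (hw : 1 ≤ w) :
    dM k w ≤ 1 / 2 - Real.log w / (20000 * w) := by
  rcases lt_or_ge w 14641 with h | h
  · obtain ⟨n, X, hn, -, ⟨P, i1, i2, h1, h2, h3, h4, h5, h6, -⟩, -, -⟩ := low_family w hw
    have hne : Nonempty P := nonempty_of_width (w := w) h2 hw
    have h8 := balance_of_good (low_eps hw) h3
    have h9 := log_small hw h
    refine le_trans ?_ (h8.trans (by linarith))
    unfold dM
    exact csInf_le (dM_bdd hw) ⟨P, i1, i2, h4, h5.mono hk, h2, rfl⟩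
  · obtain ⟨n, S, P, i1, i2, h1, h2, h3, h4, h5, h6⟩ := exists_ext w h
    have hne : Nonempty P := nonempty_of_width (w := w) h2 hw
    have hw1 : (1 : ℝ) ≤ w := by exact_mod_cast hw
    have hll : Real.log w ≤ w := (Real.log_le_sub_one_of_pos (by linarith)).trans (by linarith)
    have hb : Real.log w / (20000 * (w : ℝ)) ≤ 1 / 2 := by
      rw [div_le_iff₀ (by positivity)]
      linarith
    refine le_trans ?_ (balance_of_good hb h3)
    unfold dM
    exact csInf_le (dM_bdd hw) ⟨P, i1, i2, h5, h6.mono hk, h2, rfl⟩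

theorem dM_le' {k w : ℕ} (hk : 2 ≤ k) (hw : 1 ≤ w) :
    dM k w ≤ 1 / 2 - (1 + Real.log w) / (40000 * w) := by
  have hw1 : (1 : ℝ) ≤ w := by exact_mod_cast hw
  have hlog : 0 ≤ Real.log w := Real.log_nonneg hw1
  rcases le_or_gt 1 (Real.log w) with h | h
  · refine (dM_le hk hw).trans ?_
    have : (1 + Real.log w) / (40000 * (w : ℝ)) ≤ Real.log w / (20000 * w) := by
      rw [div_le_div_iff₀ (by positivity) (by positivity)]
      nlinarith
    linarith
  · obtain ⟨n, X, hn, -, ⟨P, i1, i2, h1, h2, h3, h4, h5, h6, -⟩, -, -⟩ := low_family w hw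
    have hne : Nonempty P := nonempty_of_width (w := w) h2 hw
    have h8 := balance_of_good (low_eps hw) h3
    have h9 : (1 + Real.log w) / (40000 * (w : ℝ)) ≤ 1 / (12 * (w : ℝ) - 8) := by
      rw [div_le_div_iff₀ (by positivity) (by linarith)]
      nlinarith
    refine le_trans ?_ (h8.trans (by linarith))
    unfold dM
    exact csInf_le (dM_bdd hw) ⟨P, i1, i2, h4, h5.mono hk, h2, rfl⟩

theorem log_ratio {a b : ℝ} (ha : 1 ≤ a) (hab : a ≤ b) :
    (1 + Real.log b) / b ≤ (1 + Real.log a) / a := by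
  have ha0 : 0 < a := by linarith
  have hb0 : 0 < b := by linarith
  rw [div_le_div_iff₀ hb0 ha0]
  have h1 : Real.log b ≤ Real.log a + (b / a - 1) := by
    have h2 := Real.log_le_sub_one_of_pos (show 0 < b / a by positivity)
    rw [Real.log_div hb0.ne' ha0.ne'] at h2
    linarith
  have h3 : 0 ≤ Real.log a := Real.log_nonneg ha
  have h4 : b / a * a = b := by field_simp
  have h5 : (1 + Real.log b) * a ≤ (Real.log a + b / a) * a :=
    mul_le_mul_of_nonneg_right (by linarith) ha0.le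
  nlinarith [mul_nonneg h3 (sub_nonneg.2 hab)]

theorem dM_growth {k : ℕ} (hk : 2 ≤ k) : ∃ K : ℕ, ∀ w v : ℕ, 1 ≤ w → K * w ≤ v →
    dM k w < dM k v := by
  refine ⟨(240001 * k) ^ 2, fun w v hw hv => ?_⟩
  have hk1 : (2 : ℝ) ≤ k := by exact_mod_cast hk
  have hw1 : (1 : ℝ) ≤ w := by exact_mod_cast hw
  obtain ⟨q, hq⟩ : ∃ q : ℝ, q = 240001 * k := ⟨_, rfl⟩
  have hq1 : 1 ≤ q := by rw [hq]; linarith
  have hvR : q ^ 2 * (w : ℝ) ≤ v := by
    rw [hq]
    exact_mod_cast hv
  have hqw : 1 ≤ q ^ 2 * (w : ℝ) := by nlinarith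
  have hv1 : 1 ≤ v := by
    have : (1 : ℝ) ≤ v := hqw.trans hvR
    exact_mod_cast this
  have h1 := dM_le' hk hw
  have h2 := dM_ge hk hv1
  have h3 := log_ratio hqw hvR
  have hlog : 0 ≤ Real.log w := Real.log_nonneg hw1
  have hlq : 1 + Real.log (q ^ 2) ≤ 2 * q := by
    rw [Real.log_pow]
    have := Real.log_le_sub_one_of_pos (show 0 < q by linarith)
    push_cast
    linarith
  have h4 : 1 + Real.log (q ^ 2 * w) ≤ 2 * q * (1 + Real.log w) := by
    rw [Real.log_mul (by positivity) (by linarith)]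
    nlinarith
  have h5 : (1 + Real.log (q ^ 2 * w)) / (q ^ 2 * w) ≤ 2 * (1 + Real.log w) / (q * w) := by
    rw [div_le_div_iff₀ (by positivity) (by positivity)]
    have : (1 + Real.log (q ^ 2 * w)) * (q * w) ≤ 2 * q * (1 + Real.log w) * (q * w) :=
      mul_le_mul_of_nonneg_right h4 (by positivity)
    nlinarith
  have h6 : 3 * k * (1 + Real.log v) / v ≤ 3 * k * (2 * (1 + Real.log w) / (q * w)) := by
    rw [mul_div_assoc]
    exact mul_le_mul_of_nonneg_left (h3.trans h5) (by positivity)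
  have h7 : 3 * k * (2 * (1 + Real.log w) / (q * w)) < (1 + Real.log w) / (40000 * w) := by
    rw [hq, ← mul_div_assoc, div_lt_div_iff₀ (by positivity) (by positivity)]
    have h8 : 0 < (1 + Real.log w) * ((k : ℝ) * w) := by positivity
    nlinarith
  linarith

end Pool.Agent.N502.IO
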